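import Pool.Agent.Lib.MP_a45bfb_lc.Core

namespace Pool.Agent.Lib.MP_a45bfb_lc

open Ordinal Set

noncomputable local instance mG : MeasurableSpace (SimpleGraph ℕ) := @borel _ graphTop

theorem isBorel_iff (C : Set (SimpleGraph ℕ)) : IsBorel C ↔ MeasurableSet C := Iff.rfl

theorem borel_adj (a b : ℕ) : MeasurableSet {G : SimpleGraph ℕ | G.Adj a b} := by
  refine MeasurableSpace.measurableSet_generateFrom ?_
  refine isOpen_induced_iff.2 ⟨(fun f : ℕ × ℕ → Bool => f (a, b)) ⁻¹' {true}, ?_, ?_⟩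
  · exact (isOpen_discrete {true}).preimage (continuous_apply (a, b))
  · ext G
    simp [ind]

def reach (G : SimpleGraph ℕ) (T : Set ℕ) (x : ℕ) : ℕ → ℕ → Prop
  | 0, y => y = x
  | n + 1, y => ∃ z, reach G T x n z ∧ G.Adj z y ∧ z ∈ T ∧ y ∈ T

theorem conn_iff (G : SimpleGraph ℕ) (T : Set ℕ) (x y : ℕ) :
    Conn G T x y ↔ ∃ n, reach G T x n y := by
  constructor
  · intro h
    induction h with
    | refl => exact ⟨0, rfl⟩
    | tail _ hbc ih =>
      obtain ⟨n, hn⟩ := ih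
      exact ⟨n + 1, _, hn, hbc⟩
  · rintro ⟨n, hn⟩
    induction n generalizing y with
    | zero => exact hn ▸ Conn.refl _ _ _
    | succ n ih =>
      obtain ⟨z, hz, h1, h2, h3⟩ := hn
      exact (ih z hz).tail h1 h2 h3

theorem borel_reach (T : Set ℕ) (x : ℕ) (n : ℕ) : ∀ y, MeasurableSet {G | reach G T x n y} := by
  induction n with
  | zero =>
    intro y
    exact MeasurableSet.const (y = x)
  | succ n ih =>
    intro y
    have : {G | reach G T x (n + 1) y} =
        ⋃ z : ℕ, ({G | reach G T x n z} ∩ ({G | G.Adj z y} ∩ {_G | z ∈ T ∧ y ∈ T})) := by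
      ext G
      simp [reach]
    rw [this]
    exact MeasurableSet.iUnion fun z => (ih z).inter ((borel_adj z y).inter (MeasurableSet.const _))

theorem borel_conn (T : Set ℕ) (x y : ℕ) : MeasurableSet {G | Conn G T x y} := by
  have : {G | Conn G T x y} = ⋃ n : ℕ, {G | reach G T x n y} := by
    ext G
    simp [conn_iff]
  rw [this]
  exact MeasurableSet.iUnion fun n => borel_reach T x n y

theorem countable_Iio {α : Ordinal.{0}} (hα : α < ω₁) : (Set.Iio α).Countable := by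
  rw [← Cardinal.le_aleph0_iff_set_countable, Cardinal.mk_Iio_ordinal]
  have h1 : α.card < Cardinal.aleph 1 := Cardinal.lt_omega_iff_card_lt.1 hα
  rw [← Cardinal.succ_aleph0, Order.lt_succ_iff] at h1
  exact Cardinal.lift_le_aleph0.2 h1

theorem comp_comp {G : SimpleGraph ℕ} {F0 F : Finset ℕ} {x y : ℕ} (hx : x ∉ F0)
    (hy : y ∈ comp G ((F0 : Set ℕ)ᶜ) x) (hyF : y ∉ F) :
    comp G (comp G ((F0 : Set ℕ)ᶜ) x \ (F : Set ℕ)) y = comp G (((F0 ∪ F : Finset ℕ) : Set ℕ)ᶜ) y := by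
  have hsub : comp G ((F0 : Set ℕ)ᶜ) x ⊆ (F0 : Set ℕ)ᶜ := comp_subset (by simpa using hx)
  have hy0 : y ∉ F0 := hsub hy
  ext z
  constructor
  · intro hz
    refine Conn.mono ?_ hz
    intro w hw
    have h1 := hsub hw.1
    have h2 := hw.2
    simp only [Finset.coe_union, mem_compl_iff, mem_union, Finset.mem_coe] at h1 h2 ⊢
    tauto
  · intro hz
    have hmem : ∀ w, Conn G (((F0 ∪ F : Finset ℕ) : Set ℕ)ᶜ) y w →
        w ∈ comp G ((F0 : Set ℕ)ᶜ) x \ (F : Set ℕ) := by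
      intro w hw
      have h1 : w ∈ (((F0 ∪ F : Finset ℕ) : Set ℕ)ᶜ) :=
        Conn.mem (by simp [hy0, hyF]) hw
      refine ⟨Conn.trans hy (hw.mono ?_), ?_⟩
      · intro v hv
        simp only [Finset.coe_union, mem_compl_iff, mem_union, Finset.mem_coe] at hv ⊢
        tauto
      · simp only [Finset.coe_union, mem_compl_iff, mem_union, Finset.mem_coe] at h1 ⊢
        tauto
    induction hz with
    | refl => exact Conn.refl _ _ _
    | @tail p q hp hpq ih => exact Conn.tail ih hpq.1 (hmem p hp) (hmem q (hp.tail hpq))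

theorem borel_R_comp : ∀ (α : Ordinal.{0}), α < ω₁ → ∀ (F0 : Finset ℕ) (x : ℕ), x ∉ F0 →
    MeasurableSet {G : SimpleGraph ℕ | R G α (comp G ((F0 : Set ℕ)ᶜ) x)} := by
  intro α
  induction α using Ordinal.induction with
  | h α ih =>
    intro hα F0 x hx
    have heq : {G : SimpleGraph ℕ | R G α (comp G ((F0 : Set ℕ)ᶜ) x)} =
        ⋃ F : Finset ℕ, ⋂ y : ℕ, {G : SimpleGraph ℕ | (Conn G ((F0 : Set ℕ)ᶜ) x y ∧ y ∉ F0 ∪ F) →
          ∃ β < α, R G β (comp G (((F0 ∪ F : Finset ℕ) : Set ℕ)ᶜ) y)} := by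
      ext G
      simp only [mem_ofPred_eq, mem_iUnion, mem_iInter]
      rw [R_iff]
      have hsub : comp G ((F0 : Set ℕ)ᶜ) x ⊆ (F0 : Set ℕ)ᶜ := comp_subset (by simpa using hx)
      refine exists_congr fun F => forall_congr' fun y => ?_
      constructor
      · rintro h ⟨h1, h2⟩
        have h2' : y ∉ F := fun h => h2 (Finset.mem_union_right _ h)
        have := h ⟨h1, h2'⟩
        rw [comp_comp hx h1 h2'] at this
        exact this
      · rintro h ⟨h1, h2⟩
        have h0 : y ∉ F0 := hsub h1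
        rw [comp_comp hx h1 h2]
        refine h ⟨h1, ?_⟩
        rw [Finset.mem_union]
        exact fun hh => hh.elim h0 h2
    rw [heq]
    refine MeasurableSet.iUnion fun F => MeasurableSet.iInter fun y => ?_
    by_cases hy : y ∈ F0 ∪ F
    · have : {G : SimpleGraph ℕ | (Conn G ((F0 : Set ℕ)ᶜ) x y ∧ y ∉ F0 ∪ F) →
          ∃ β < α, R G β (comp G (((F0 ∪ F : Finset ℕ) : Set ℕ)ᶜ) y)} = Set.univ := by
        ext G
        simp only [mem_ofPred_eq, mem_univ, iff_true]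
        exact fun h => absurd hy h.2
      rw [this]
      exact MeasurableSet.univ
    · have : {G : SimpleGraph ℕ | (Conn G ((F0 : Set ℕ)ᶜ) x y ∧ y ∉ F0 ∪ F) →
          ∃ β < α, R G β (comp G (((F0 ∪ F : Finset ℕ) : Set ℕ)ᶜ) y)} =
          {G : SimpleGraph ℕ | Conn G ((F0 : Set ℕ)ᶜ) x y}ᶜ ∪
          ⋃ β ∈ Set.Iio α, {G : SimpleGraph ℕ | R G β (comp G (((F0 ∪ F : Finset ℕ) : Set ℕ)ᶜ) y)} := by
        ext G
        simp only [mem_ofPred_eq, mem_union, mem_compl_iff, mem_iUnion, mem_Iio, exists_prop]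
        tauto
      rw [this]
      refine (borel_conn _ x y).compl.union ?_
      exact MeasurableSet.biUnion (countable_Iio hα) fun β hβ =>
        ih β hβ (lt_trans hβ hα) (F0 ∪ F) y hy

theorem borel_R (α : Ordinal.{0}) (hα : α < ω₁) :
    MeasurableSet {G : SimpleGraph ℕ | R G α Set.univ} := by
  have heq : {G : SimpleGraph ℕ | R G α Set.univ} =
      ⋃ F : Finset ℕ, ⋂ y : ℕ, {G : SimpleGraph ℕ | y ∉ F →
        ∃ β < α, R G β (comp G ((F : Set ℕ)ᶜ) y)} := by
    ext G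
    simp only [mem_ofPred_eq, mem_iUnion, mem_iInter]
    rw [R_iff]
    refine exists_congr fun F => forall_congr' fun y => ?_
    rw [← compl_eq_univ_sdiff]
    rfl
  rw [heq]
  refine MeasurableSet.iUnion fun F => MeasurableSet.iInter fun y => ?_
  by_cases hy : y ∈ F
  · have : {G : SimpleGraph ℕ | y ∉ F → ∃ β < α, R G β (comp G ((F : Set ℕ)ᶜ) y)} = Set.univ := by
      ext G
      simp only [mem_ofPred_eq, mem_univ, iff_true]
      exact fun h => absurd hy h
    rw [this]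
    exact MeasurableSet.univ
  · have : {G : SimpleGraph ℕ | y ∉ F → ∃ β < α, R G β (comp G ((F : Set ℕ)ᶜ) y)} =
        ⋃ β ∈ Set.Iio α, {G : SimpleGraph ℕ | R G β (comp G ((F : Set ℕ)ᶜ) y)} := by
      ext G
      simp only [mem_ofPred_eq, mem_iUnion, mem_Iio, exists_prop]
      tauto
    rw [this]
    exact MeasurableSet.biUnion (countable_Iio hα) fun β hβ =>
      borel_R_comp β (lt_trans hβ hα) F y hy

theorem rayless_iff (G : SimpleGraph ℕ) : Rayless G ↔ RaylessOn G Set.univ := by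
  simp [Rayless, RaylessOn]

theorem mem_Rank_iff (G : SimpleGraph ℕ) (α : Ordinal.{0}) :
    G ∈ Rank α ↔ R G α Set.univ ∧ ∀ β < α, ¬ R G β Set.univ := by
  constructor
  · rintro ⟨_, h⟩
    exact (hasRank_iff G α _).1 h
  · intro h
    exact ⟨(rayless_iff G).2 (R_rayless α _ h.1), (hasRank_iff G α _).2 h⟩

theorem borel_Rank (α : Ordinal.{0}) (hα : α < ω₁) : IsBorel (Rank α) := by
  have : Rank α = {G : SimpleGraph ℕ | R G α Set.univ} ∩
      ⋂ β ∈ Set.Iio α, {G : SimpleGraph ℕ | R G β Set.univ}ᶜ := by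
    ext G
    rw [mem_Rank_iff]
    simp
  rw [this]
  exact (borel_R α hα).inter (MeasurableSet.biInter (countable_Iio hα)
    fun β hβ => (borel_R β (lt_trans hβ hα)).compl)

theorem exists_le_rank_iff (G : SimpleGraph ℕ) (δ : Ordinal.{0}) :
    (∃ α ≤ δ, G ∈ Rank α) ↔ R G δ Set.univ := by
  constructor
  · rintro ⟨α, hα, h⟩
    exact R_mono hα ((mem_Rank_iff G α).1 h).1
  · intro h
    obtain ⟨β, hβ, hr⟩ := exists_hasRank δ _ h
    exact ⟨β, hβ, (rayless_iff G).2 (R_rayless δ _ h), hr⟩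

theorem rayless_iff_rank (G : SimpleGraph ℕ) : Rayless G ↔ ∃ α < ω₁, G ∈ Rank α := by
  constructor
  · intro h
    obtain ⟨α, hα, hR⟩ := rayless_R ((rayless_iff G).1 h)
    obtain ⟨β, hβ, hr⟩ := exists_hasRank α _ hR
    exact ⟨β, hβ.trans_lt hα, h, hr⟩
  · rintro ⟨_, _, h, _⟩
    exact h

theorem minorOn_of_isMinor {G H : SimpleGraph ℕ} (h : IsMinor G H) :
    MinorOn G Set.univ H Set.univ := by
  obtain ⟨B, h1, h2, h3⟩ := h
  exact ⟨B, fun v _ => ⟨h1 v, subset_univ _⟩, fun u _ v _ => h2 u v, fun u _ v _ => h3 u v⟩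

theorem R_of_isMinor {G H : SimpleGraph ℕ} (h : IsMinor G H) {α : Ordinal.{0}}
    (hR : R H α Set.univ) : R G α Set.univ := R_minor α _ _ (minorOn_of_isMinor h) hR

/-- Rank classes are closed under minor-twins. -/
theorem rank_minor {G H : SimpleGraph ℕ} (h : IsMinor G H) {β : Ordinal.{0}} (hH : H ∈ Rank β) :
    ∃ α ≤ β, G ∈ Rank α :=
  (exists_le_rank_iff G β).2 (R_of_isMinor h ((exists_le_rank_iff H β).1 ⟨β, le_rfl, hH⟩))

theorem isBorel_inter {C D : Set (SimpleGraph ℕ)} (hC : IsBorel C) (hD : IsBorel D) :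
    IsBorel (C ∩ D) := MeasurableSet.inter hC hD

theorem isBorel_empty : IsBorel ∅ := MeasurableSet.empty

end Pool.Agent.Lib.MP_a45bfb_lc
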