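import Pool.Agent.Lib.MP_a45bfb_lc.Classes

/-!
# Coding a class of finite graphs by a graph with finite components
-/

namespace Pool.Agent.Lib.MP_a45bfb_lc

open Ordinal Set

/-- The cone lemma, for a partial model. -/
theorem minor_of_cone {n m : ℕ} {F : SimpleGraph (Fin n)} {H : SimpleGraph (Fin m)}
    (B : ℕ → Set ℕ) (hB : ∀ x ≤ n, ConnectedOn (code H) (B x))
    (hdis : ∀ x ≤ n, ∀ y ≤ n, x ≠ y → Disjoint (B x) (B y))
    (hadj : ∀ x y, (code F).Adj x y → ∃ a ∈ B x, ∃ b ∈ B y, (code H).Adj a b) :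
    IsMinor F H := by
  classical
  let B' : Fin n → Set ℕ := fun v => if 0 ∈ B (v + 1) then B 0 else B (v + 1)
  have hne : ∀ v : Fin n, (0 : ℕ) ≠ v + 1 := fun v => by omega
  have hle : ∀ v : Fin n, (v : ℕ) + 1 ≤ n := fun v => v.isLt
  have h0 : ∀ v, 0 ∉ B' v := by
    intro v
    by_cases hv : 0 ∈ B (v + 1)
    · simp only [B', if_pos hv]
      exact fun h => Set.disjoint_left.1 (hdis 0 (Nat.zero_le _) (v + 1) (hle v) (hne v)) h hv
    · simp only [B', if_neg hv]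
      exact hv
  have hconn : ∀ v, ConnectedOn (code H) (B' v) := by
    intro v
    by_cases hv : 0 ∈ B (v + 1)
    · simp only [B', if_pos hv]
      exact hB 0 (Nat.zero_le _)
    · simp only [B', if_neg hv]
      exact hB _ (hle v)
  have hdis' : ∀ u v, u ≠ v → Disjoint (B' u) (B' v) := by
    intro u v huv
    have hne' : (u + 1 : ℕ) ≠ v + 1 := fun h => huv (Fin.ext (by omega))
    by_cases hu : 0 ∈ B (u + 1) <;> by_cases hv : 0 ∈ B (v + 1)
    · exact absurd hv (Set.disjoint_left.1 (hdis _ (hle u) _ (hle v) hne') hu)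
    · simp only [B', if_pos hu, if_neg hv]
      exact hdis _ (Nat.zero_le _) _ (hle v) (hne v)
    · simp only [B', if_neg hu, if_pos hv]
      exact hdis _ (hle u) _ (Nat.zero_le _) (hne u).symm
    · simp only [B', if_neg hu, if_neg hv]
      exact hdis _ (hle u) _ (hle v) hne'
  have hedge : ∀ u v, F.Adj u v → ∃ a ∈ B' u, ∃ b ∈ B' v, (code H).Adj a b := by
    intro u v huv
    have hne' : (u + 1 : ℕ) ≠ v + 1 := fun h => F.ne_of_adj huv (Fin.ext (by omega))
    by_cases hu : 0 ∈ B (u + 1) <;> by_cases hv : 0 ∈ B (v + 1)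
    · exact absurd hv (Set.disjoint_left.1 (hdis _ (hle u) _ (hle v) hne') hu)
    · simp only [B', if_pos hu, if_neg hv]
      exact hadj 0 (v + 1) (Or.inl ⟨rfl, v, rfl⟩)
    · simp only [B', if_neg hu, if_pos hv]
      exact hadj (u + 1) 0 (Or.inr (Or.inl ⟨rfl, u, rfl⟩))
    · simp only [B', if_neg hu, if_neg hv]
      exact hadj (u + 1) (v + 1) (Or.inr (Or.inr ⟨u, v, rfl, rfl, huv⟩))
  have hpos : ∀ v, ∃ p : Fin m, (p + 1 : ℕ) ∈ B' v := by
    intro v
    have hE : ∃ a ∈ B' v, ∃ b, (code H).Adj a b := by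
      by_cases hv : 0 ∈ B (v + 1)
      · obtain ⟨a, ha, b, _, hab⟩ := hadj 0 (v + 1) (Or.inl ⟨rfl, v, rfl⟩)
        exact ⟨a, by simp only [B', if_pos hv]; exact ha, b, hab⟩
      · obtain ⟨a, ha, b, _, hab⟩ := hadj (v + 1) 0 (Or.inr (Or.inl ⟨rfl, v, rfl⟩))
        exact ⟨a, by simp only [B', if_neg hv]; exact ha, b, hab⟩
    obtain ⟨a, ha, b, hab⟩ := hE
    have ha0 : a ≠ 0 := fun h => h0 v (h ▸ ha)
    have han := (code_le hab).1
    refine ⟨⟨a - 1, by omega⟩, ?_⟩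
    simp only
    rwa [Nat.sub_add_cancel (Nat.one_le_iff_ne_zero.2 ha0)]
  refine ⟨fun v => {w : Fin m | (w + 1 : ℕ) ∈ B' v}, fun v => ⟨?_, ?_⟩, ?_, ?_⟩
  · obtain ⟨p, hp⟩ := hpos v
    exact ⟨p, hp⟩
  · intro x hx y hy
    obtain ⟨q, hq, hc⟩ := conn_pull (h0 v) ((hconn v).2 (x + 1) hx (y + 1) hy)
    have : y = q := Fin.ext (by omega)
    rw [this]
    exact hc
  · intro u v huv
    rw [Set.disjoint_left]
    intro w hw hw'
    exact Set.disjoint_left.1 (hdis' u v huv) hw hw'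
  · intro u v huv
    obtain ⟨a, ha, b, hb, hab⟩ := hedge u v huv
    rcases hab with ⟨rfl, _⟩ | ⟨rfl, _⟩ | ⟨p, q, rfl, rfl, hpq⟩
    · exact absurd ha (h0 u)
    · exact absurd hb (h0 v)
    · exact ⟨p, ha, q, hb, hpq⟩

/-- The disjoint union of the cones over the members of `A` (and infinitely many isolated
vertices). -/
def K (A : Set FinGraph) : SimpleGraph (FinGraph × ℕ) where
  Adj p q := p.1 = q.1 ∧ p.1 ∈ A ∧ (code p.1.2).Adj p.2 q.2
  symm := ⟨by
    rintro ⟨F, x⟩ ⟨F', y⟩ ⟨h1, h2, h3⟩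
    simp only at h1 h2 h3
    subst h1
    exact ⟨rfl, h2, h3.symm⟩⟩
  loopless := ⟨by
    rintro ⟨F, x⟩ ⟨_, _, h3⟩
    exact (code F.2).loopless.irrefl _ h3⟩

theorem K_fst {A : Set FinGraph} {S : Set (FinGraph × ℕ)} {p q : FinGraph × ℕ}
    (h : Conn (K A) S p q) : q.1 = p.1 := by
  induction h with
  | refl => rfl
  | tail _ hbc ih => exact hbc.1.1.symm.trans ih

theorem K_finComps (A : Set FinGraph) : FinComps (K A) := by
  rintro ⟨F, x⟩
  refine Set.Finite.subset (s := ({F} : Set FinGraph) ×ˢ (Set.Iic F.1 ∪ {x})) ?_ ?_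
  · exact (finite_singleton F).prod ((finite_Iic F.1).union (finite_singleton x))
  · rintro ⟨F', y⟩ hy
    have h1 : F' = F := K_fst hy
    refine ⟨h1, ?_⟩
    rcases Relation.ReflTransGen.cases_tail hy with h | ⟨c, _, hc⟩
    · exact Or.inr (congrArg Prod.snd h)
    · left
      obtain ⟨⟨e1, _, e3⟩, _⟩ := hc
      obtain ⟨c1, c2⟩ := c
      simp only at e1 e3
      subst e1
      subst h1
      exact (code_le e3).2

theorem K_slice {A : Set FinGraph} {S : Set (FinGraph × ℕ)} {p q : FinGraph × ℕ}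
    (h : Conn (K A) S p q) : Conn (code p.1.2) {y | (p.1, y) ∈ S} p.2 q.2 := by
  induction h with
  | refl => exact Conn.refl _ _ _
  | @tail b c hb hbc ih =>
    have h1 : b.1 = p.1 := K_fst hb
    obtain ⟨⟨e1, _, e3⟩, hbS, hcS⟩ := hbc
    obtain ⟨b1, b2⟩ := b
    obtain ⟨c1, c2⟩ := c
    simp only at h1 e1 e3 ih ⊢
    subst e1
    subst h1
    exact ih.tail e3 hbS hcS

theorem dom_of_K {A A' : Set FinGraph} (h : IsMinor (K A) (K A')) {F : FinGraph} (hF : F ∈ A)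
    (hn : 0 < F.1) : ∃ H ∈ A', IsMinor F.2 H.2 := by
  obtain ⟨B, hB, hdis, hadj⟩ := h
  obtain ⟨⟨H, y0⟩, hy0⟩ := (hB (F, 0)).1
  have hadj' : ∀ x y, (code F.2).Adj x y → (K A).Adj (F, x) (F, y) := fun x y hxy =>
    ⟨rfl, hF, hxy⟩
  have hall0 : ∀ q ∈ B (F, 0), q.1 = H := fun q hq => K_fst ((hB (F, 0)).2 _ hy0 q hq)
  have hall : ∀ x ≤ F.1, ∀ q ∈ B (F, x), q.1 = H := by
    intro x hx q hq
    rcases Nat.eq_zero_or_pos x with rfl | hpos
    · exact hall0 q hq
    · have hx1 : x - 1 < F.1 := by omega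
      have hc : (code F.2).Adj 0 x := Or.inl ⟨rfl, ⟨x - 1, hx1⟩, by simp; omega⟩
      obtain ⟨a, ha, b, hb, hab⟩ := hadj _ _ (hadj' 0 x hc)
      have h1 : b.1 = H := hab.1.symm.trans (hall0 a ha)
      exact (K_fst ((hB (F, x)).2 b hb q hq)).trans h1
  have hHA : H ∈ A' := by
    have hc : (code F.2).Adj 0 1 := Or.inl ⟨rfl, ⟨0, hn⟩, rfl⟩
    obtain ⟨a, ha, b, hb, hab⟩ := hadj _ _ (hadj' 0 1 hc)
    exact hall0 a ha ▸ hab.2.1
  refine ⟨H, hHA, minor_of_cone (fun x => {y | (H, y) ∈ B (F, x)}) ?_ ?_ ?_⟩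
  · intro x hx
    refine ⟨?_, ?_⟩
    · obtain ⟨q, hq⟩ := (hB (F, x)).1
      have h1 := hall x hx q hq
      refine ⟨q.2, ?_⟩
      show (H, q.2) ∈ B (F, x)
      rw [← h1]
      exact hq
    · intro a ha b hb
      exact K_slice ((hB (F, x)).2 _ ha _ hb)
  · intro x _ y _ hxy
    rw [Set.disjoint_left]
    intro a ha ha'
    exact Set.disjoint_left.1 (hdis (F, x) (F, y) (fun h => hxy (congrArg Prod.snd h))) ha ha'
  · intro x y hxy
    obtain ⟨a, ha, b, hb, hab⟩ := hadj _ _ (hadj' x y hxy)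
    have hx := (code_le hxy).1
    have hy := (code_le hxy).2
    have ha1 := hall x hx a ha
    have hb1 := hall y hy b hb
    obtain ⟨a1, a2⟩ := a
    obtain ⟨b1, b2⟩ := b
    simp only at ha1 hb1
    subst ha1
    subst hb1
    exact ⟨a2, ha, b2, hb, hab.2.2⟩

theorem classes_of_wqo (h : IsWQO FinComp) : ClassesWQO := by
  intro A hA
  by_cases hne : ∀ i, (A i).Nonempty
  · have hinf : Infinite (FinGraph × ℕ) :=
      Infinite.of_injective (fun n : ℕ => ((⟨0, ⊥⟩ : FinGraph), n)) fun a b hab =>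
        congrArg Prod.snd hab
    obtain ⟨e⟩ : Nonempty (ℕ ≃ FinGraph × ℕ) := nonempty_equiv_of_countable
    have hdown : ∀ i, IsMinor ((K (A i)).comap e) (K (A i)) := fun i =>
      isMinor_iff.2 (MinorOn.of_map e e.injective.injOn (fun _ _ => trivial)
        fun _ _ _ _ h => h)
    have hup : ∀ i, IsMinor (K (A i)) ((K (A i)).comap e) := fun i =>
      isMinor_iff.2 (MinorOn.of_map e.symm e.symm.injective.injOn (fun _ _ => trivial)
        fun u _ v _ h => by
          simp only [SimpleGraph.comap_adj, Equiv.apply_symm_apply]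
          exact h)
    obtain ⟨i, j, hij, hm⟩ := h (fun i => (K (A i)).comap e) fun i =>
      mem_FinComp.2 (FinComps.of_minor (hdown i) (K_finComps _))
    refine ⟨i, j, hij, fun F hF => ?_⟩
    rcases Nat.eq_zero_or_pos F.1 with h0 | hpos
    · obtain ⟨H, hH⟩ := hne j
      refine hA j H hH F ?_
      obtain ⟨n, F⟩ := F
      simp only at h0
      subst h0
      exact ⟨fun v => v.elim0, fun v => v.elim0, fun v => v.elim0, fun v => v.elim0⟩
    · obtain ⟨H, hH, hFH⟩ := dom_of_K (((hup i).trans hm).trans (hdown j)) hF hpos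
      exact hA j H hH F hFH
  · push Not at hne
    obtain ⟨i, hi⟩ := hne
    refine ⟨i, i + 1, Nat.lt_succ_self i, ?_⟩
    rw [hi]
    exact empty_subset _

end Pool.Agent.Lib.MP_a45bfb_lc
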