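import Pool.Agent.Lib.MP_a45bfb_lc.Defs2

/-!
# Countable families over a quasi-order whose down-closed sets are well-quasi-ordered
-/

namespace Pool.Agent.Lib.MP_a45bfb_lc

open Set

universe u

variable {Q : Type u} {r : Q → Q → Prop}

theorem DownWQO.wqo [IsPreorder Q r] (h : DownWQO r) : WellQuasiOrdered r := by
  intro f
  obtain ⟨i, j, hij, hsub⟩ := h (fun k => {a | r a (f k)}) fun k a ha b hb => _root_.trans hb ha
  exact ⟨i, j, hij, hsub (show f i ∈ {a | r a (f i)} from refl_of r (f i))⟩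

theorem forall₂_match {R : ℕ → ℕ → Prop} {l l' : List ℕ} (h : List.Forall₂ R l l') :
    l.Nodup → l'.Nodup →
    ∃ φ : ℕ → ℕ, Set.InjOn φ {x | x ∈ l} ∧ ∀ x ∈ l, φ x ∈ l' ∧ R x (φ x) := by
  induction h with
  | nil => exact fun _ _ => ⟨id, fun _ _ _ _ h => h, fun x hx => by simp at hx⟩
  | @cons a b l l' hab _ ih =>
    intro h1 h2
    rw [List.nodup_cons] at h1 h2
    obtain ⟨φ, hφ, hφ'⟩ := ih h1.2 h2.2
    have hne : ∀ x ∈ l, x ≠ a := fun x hx h => h1.1 (h ▸ hx)
    have hup : ∀ x ∈ l, Function.update φ a b x = φ x := fun x hx =>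
      Function.update_of_ne (hne x hx) _ _
    refine ⟨Function.update φ a b, ?_, ?_⟩
    · intro x hx y hy hxy
      simp only [mem_ofPred_eq, List.mem_cons] at hx hy
      rcases hx with rfl | hx <;> rcases hy with rfl | hy
      · rfl
      · rw [Function.update_self, hup y hy] at hxy
        exact absurd (hxy ▸ (hφ' y hy).1) h2.1
      · rw [Function.update_self, hup x hx] at hxy
        exact absurd (hxy ▸ (hφ' x hx).1) h2.1
      · rw [hup x hx, hup y hy] at hxy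
        exact hφ hx hy hxy
    · intro x hx
      rw [List.mem_cons] at hx
      rcases hx with rfl | hx
      · rw [Function.update_self]
        exact ⟨List.mem_cons_self, hab⟩
      · rw [hup x hx]
        exact ⟨List.mem_cons_of_mem _ (hφ' x hx).1, (hφ' x hx).2⟩

theorem exists_match {f g : ℕ → Q} {l₁ l₂ : List ℕ} (h₁ : l₁.Nodup) (h₂ : l₂.Nodup)
    (h : List.SublistForall₂ r (l₁.map f) (l₂.map g)) :
    ∃ φ : ℕ → ℕ, Set.InjOn φ {x | x ∈ l₁} ∧ ∀ x ∈ l₁, φ x ∈ l₂ ∧ r (f x) (g (φ x)) := by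
  obtain ⟨l, h1, h2⟩ := List.sublistForall₂_iff.1 h
  obtain ⟨l', h3, rfl⟩ := List.sublist_map_iff.1 h2
  rw [List.forall₂_map_left_iff, List.forall₂_map_right_iff] at h1
  obtain ⟨φ, hφ, hφ'⟩ := forall₂_match h1 h₁ (h3.nodup h₂)
  exact ⟨φ, hφ, fun x hx => ⟨h3.subset (hφ' x hx).1, (hφ' x hx).2⟩⟩

/-- If the down-closed subsets of `(Q, r)` are well-quasi-ordered by inclusion, then the countable
families of members of `Q` are well-quasi-ordered by injective domination. -/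
theorem families_wqo [IsPreorder Q r] (h : DownWQO r) (P : ℕ → Set ℕ) (γ : ℕ → ℕ → Q) :
    ∃ i j, i < j ∧ ∃ f : ℕ → ℕ, Set.InjOn f (P i) ∧
      ∀ x ∈ P i, f x ∈ P j ∧ r (γ i x) (γ j (f x)) := by
  classical
  have hw := h.wqo
  -- the types that are dominated infinitely often
  let I : ℕ → Set Q := fun i => {a | ∀ N, ∃ x, N ≤ x ∧ x ∈ P i ∧ r a (γ i x)}
  have hI : ∀ i, ∀ a ∈ I i, ∀ b, r b a → b ∈ I i := by
    intro i a ha b hb N
    obtain ⟨x, h1, h2, h3⟩ := ha N
    exact ⟨x, h1, h2, _root_.trans hb h3⟩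
  -- the exceptional members
  have hE : ∀ i, {x ∈ P i | γ i x ∉ I i}.Finite := by
    intro i
    by_contra hinf
    have hinf' : {x ∈ P i | γ i x ∉ I i}.Infinite := hinf
    obtain ⟨g, hg⟩ := hw.exists_monotone_subseq
      (fun k => γ i (Nat.nth (fun x => x ∈ {x ∈ P i | γ i x ∉ I i}) k))
    have hmem : ∀ k, Nat.nth (fun x => x ∈ {x ∈ P i | γ i x ∉ I i}) k ∈
        {x ∈ P i | γ i x ∉ I i} := fun k => Nat.nth_mem_of_infinite hinf' k
    have hmono : StrictMono (Nat.nth (fun x => x ∈ {x ∈ P i | γ i x ∉ I i})) :=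
      Nat.nth_strictMono hinf'
    refine (hmem (g 0)).2 fun N => ⟨_, ?_, (hmem (g N)).1, hg 0 N (Nat.zero_le _)⟩
    exact le_trans (g.strictMono.le_apply (x := N)) (hmono.le_apply (x := g N))
  let L : ℕ → List ℕ := fun i => (hE i).toFinset.toList
  have hL : ∀ i x, x ∈ L i ↔ x ∈ P i ∧ γ i x ∉ I i := by
    intro i x
    simp [L]
  have hLn : ∀ i, (L i).Nodup := fun i => Finset.nodup_toList _
  have hH := Set.PartiallyWellOrderedOn.partiallyWellOrderedOn_sublistForall₂ r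
    (partiallyWellOrderedOn_univ_iff.2 hw)
  have hpre : IsPreorder (List Q) (List.SublistForall₂ r) := {}
  obtain ⟨g, hg⟩ := hH.exists_monotone_subseq (f := fun i => (L i).map (γ i))
    (fun _ _ _ => mem_univ _)
  obtain ⟨a, b, hab, hsub⟩ := h (fun k => I (g k)) fun k => hI (g k)
  refine ⟨g a, g b, g.strictMono hab, ?_⟩
  obtain ⟨φ, hφ, hφ'⟩ := exists_match (hLn _) (hLn _) (hg a b hab.le)
  obtain ⟨N, hN⟩ : ∃ N, ∀ x ∈ L (g a), φ x ≤ N :=
    ⟨(L (g a)).toFinset.sup φ, fun x hx => Finset.le_sup (f := φ) (List.mem_toFinset.2 hx)⟩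
  have hs : ∀ x c : ℕ, ∃ y, c < y ∧ (x ∈ P (g a) → x ∉ L (g a) →
      y ∈ P (g b) ∧ r (γ (g a) x) (γ (g b) y)) := by
    intro x c
    by_cases hx : x ∈ P (g a) ∧ x ∉ L (g a)
    · have hxI : γ (g a) x ∈ I (g a) := by
        by_contra hno
        exact hx.2 ((hL _ _).2 ⟨hx.1, hno⟩)
      obtain ⟨y, h1, h2, h3⟩ := hsub hxI (c + 1)
      exact ⟨y, h1, fun _ _ => ⟨h2, h3⟩⟩
    · exact ⟨c + 1, Nat.lt_succ_self c, fun h1 h2 => absurd ⟨h1, h2⟩ hx⟩
  choose s hs1 hs2 using hs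
  let G : ℕ → ℕ := fun n => Nat.rec (s 0 N) (fun x p => s (x + 1) p) n
  have hG0 : G 0 = s 0 N := rfl
  have hG1 : ∀ n, G (n + 1) = s (n + 1) (G n) := fun _ => rfl
  have hGm : StrictMono G := strictMono_nat_of_lt_succ fun n => by
    rw [hG1]
    exact hs1 _ _
  have hGN : ∀ n, N < G n := fun n =>
    lt_of_lt_of_le (by rw [hG0]; exact hs1 _ _) (hGm.monotone (Nat.zero_le n))
  have hGp : ∀ x, x ∈ P (g a) → x ∉ L (g a) → G x ∈ P (g b) ∧ r (γ (g a) x) (γ (g b) (G x)) := by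
    intro x h1 h2
    cases x with
    | zero => exact hs2 0 N h1 h2
    | succ n => exact hs2 (n + 1) (G n) h1 h2
  refine ⟨fun x => if x ∈ L (g a) then φ x else G x, ?_, ?_⟩
  · intro x hx y hy hxy
    simp only at hxy
    by_cases h1 : x ∈ L (g a) <;> by_cases h2 : y ∈ L (g a)
    · rw [if_pos h1, if_pos h2] at hxy
      exact hφ h1 h2 hxy
    · rw [if_pos h1, if_neg h2] at hxy
      exact absurd hxy (by have := hN x h1; have := hGN y; omega)
    · rw [if_neg h1, if_pos h2] at hxy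
      exact absurd hxy (by have := hN y h2; have := hGN x; omega)
    · rw [if_neg h1, if_neg h2] at hxy
      exact hGm.injective hxy
  · intro x hx
    by_cases h1 : x ∈ L (g a)
    · simp only [if_pos h1]
      exact ⟨((hL _ _).1 (hφ' x h1).1).1, (hφ' x h1).2⟩
    · simp only [if_neg h1]
      exact hGp x hx h1

end Pool.Agent.Lib.MP_a45bfb_lc
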