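import Pool.Agent.Lib.MP_a45bfb_lc.ClassCode
import Pool.Agent.Lib.MP_a45bfb_lc.Multi

/-!
# From classes of finite graphs to graphs with finite components
-/

namespace Pool.Agent.Lib.MP_a45bfb_lc

open Ordinal Set

/-- The induced subgraph on a finite set, as a graph on `Fin`. -/
noncomputable def fg (G : SimpleGraph ℕ) (s : Finset ℕ) : FinGraph :=
  ⟨s.card, G.comap (s.orderEmbOfFin rfl)⟩

theorem fg_down (G : SimpleGraph ℕ) (s : Finset ℕ) :
    MinorOn (fg G s).2 Set.univ G (s : Set ℕ) :=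
  MinorOn.of_map (s.orderEmbOfFin rfl) (s.orderEmbOfFin rfl).injective.injOn
    (fun v _ => s.orderEmbOfFin_mem rfl v) fun _ _ _ _ h => h

theorem fg_up (G : SimpleGraph ℕ) (s : Finset ℕ) :
    MinorOn G (s : Set ℕ) (fg G s).2 Set.univ := by
  have hex : ∀ v ∈ s, ∃ k : Fin s.card, s.orderEmbOfFin rfl k = v := by
    intro v hv
    have : v ∈ Set.range (s.orderEmbOfFin rfl) := by
      rw [Finset.range_orderEmbOfFin]
      exact hv
    exact this
  have hsing : ∀ v ∈ s, ∃ k : Fin s.card, {k' : Fin s.card | s.orderEmbOfFin rfl k' = v} = {k} ∧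
      s.orderEmbOfFin rfl k = v := by
    intro v hv
    obtain ⟨k, hk⟩ := hex v hv
    refine ⟨k, ?_, hk⟩
    ext k'
    constructor
    · intro h
      exact (s.orderEmbOfFin rfl).injective (h.trans hk.symm)
    · rintro rfl
      exact hk
  refine ⟨fun v => {k' : Fin s.card | s.orderEmbOfFin rfl k' = v}, fun v hv => ⟨?_, subset_univ _⟩,
    ?_, ?_⟩
  · obtain ⟨k, hk, _⟩ := hsing v hv
    have h0 : ConnectedOn (fg G s).2 ({k} : Set (Fin s.card)) := connectedOn_singleton _ _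
    rw [← hk] at h0
    exact h0
  · intro u _ v _ huv
    rw [Set.disjoint_left]
    intro k hk hk'
    exact huv (hk.symm.trans hk')
  · intro u hu v hv huv
    obtain ⟨k, _, hk⟩ := hsing u hu
    obtain ⟨k', _, hk'⟩ := hsing v hv
    refine ⟨k, hk, k', hk', ?_⟩
    show G.Adj (s.orderEmbOfFin rfl k) (s.orderEmbOfFin rfl k')
    rw [hk, hk']
    exact huv

/-- Gluing minor models over the components. -/
theorem isMinor_of_comps {G H : SimpleGraph ℕ} (P P' : Set ℕ)
    (hP : ∀ v, ∃ x ∈ P, v ∈ comp G Set.univ x)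
    (hP' : ∀ x ∈ P', ∀ y ∈ P', y ∈ comp H Set.univ x → x = y)
    (hPi : ∀ x ∈ P, ∀ y ∈ P, y ∈ comp G Set.univ x → x = y)
    (f : ℕ → ℕ) (hf : Set.InjOn f P) (hfP : ∀ x ∈ P, f x ∈ P')
    (hm : ∀ x ∈ P, MinorOn G (comp G Set.univ x) H (comp H Set.univ (f x))) :
    IsMinor G H := by
  choose rt hrt hmem using hP
  have hm' : ∀ x, ∃ B : ℕ → Set ℕ, x ∈ P → (∀ v ∈ comp G Set.univ x, ConnectedOn H (B v) ∧
      B v ⊆ comp H Set.univ (f x)) ∧ (∀ u ∈ comp G Set.univ x, ∀ v ∈ comp G Set.univ x, u ≠ v →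
      Disjoint (B u) (B v)) ∧ ∀ u ∈ comp G Set.univ x, ∀ v ∈ comp G Set.univ x, G.Adj u v →
      ∃ a ∈ B u, ∃ b ∈ B v, H.Adj a b := by
    intro x
    by_cases hx : x ∈ P
    · obtain ⟨B, hB⟩ := hm x hx
      exact ⟨B, fun _ => hB⟩
    · exact ⟨fun _ => ∅, fun h => absurd h hx⟩
  choose B hB using hm'
  have hsame : ∀ u v, u ∈ comp G Set.univ (rt v) → rt u = rt v := by
    intro u v huv
    exact (hPi (rt v) (hrt v) (rt u) (hrt u) (Conn.trans huv (Conn.symm (hmem u)))).symm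
  refine ⟨fun v => B (rt v) v, fun v => ((hB _ (hrt v)).1 v (hmem v)).1, ?_, ?_⟩
  · intro u v huv
    by_cases h : rt u = rt v
    · simp only
      rw [← h]
      refine (hB _ (hrt u)).2.1 u (hmem u) v ?_ huv
      rw [h]
      exact hmem v
    · rw [Set.disjoint_left]
      intro a ha ha'
      have h1 := ((hB _ (hrt u)).1 u (hmem u)).2 ha
      have h2 := ((hB _ (hrt v)).1 v (hmem v)).2 ha'
      have h3 := hP' _ (hfP _ (hrt u)) _ (hfP _ (hrt v)) (Conn.trans h1 (Conn.symm h2))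
      exact h (hf (hrt u) (hrt v) h3)
  · intro u v huv
    have h1 : v ∈ comp G Set.univ (rt u) := Conn.tail (hmem u) huv trivial trivial
    have h2 := hsame v u h1
    simp only
    rw [h2]
    exact (hB _ (hrt u)).2.2 u (hmem u) v h1 huv

/-- The least elements of the components. -/
def reps (G : SimpleGraph ℕ) : Set ℕ := {x | ∀ y ∈ comp G Set.univ x, x ≤ y}

theorem reps_cover (G : SimpleGraph ℕ) (v : ℕ) : ∃ x ∈ reps G, v ∈ comp G Set.univ x := by
  classical
  have hne : (comp G Set.univ v).Nonempty := ⟨v, Conn.refl _ _ _⟩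
  have hmem : sInf (comp G Set.univ v) ∈ comp G Set.univ v := Nat.sInf_mem hne
  refine ⟨sInf (comp G Set.univ v), fun y hy => Nat.sInf_le (Conn.trans hmem hy),
    Conn.symm hmem⟩

theorem reps_unique (G : SimpleGraph ℕ) (x : ℕ) (hx : x ∈ reps G) (y : ℕ) (hy : y ∈ reps G)
    (h : y ∈ comp G Set.univ x) : x = y :=
  le_antisymm (hx y h) (hy x (Conn.symm h))

instance finGraph_preorder : IsPreorder FinGraph (fun F F' => IsMinor F.2 F'.2) where
  refl F := IsMinor.refl F.2
  trans _ _ _ h h' := IsMinor.trans h h'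

theorem wqo_of_classes (h : ClassesWQO) : IsWQO FinComp := by
  intro G hG
  have hfc : ∀ i, FinComps (G i) := fun i => mem_FinComp.1 (hG i)
  have hd : DownWQO (fun F F' : FinGraph => IsMinor F.2 F'.2) := fun A hA => h A hA
  obtain ⟨i, j, hij, f, hf, hf'⟩ := families_wqo hd (fun i => reps (G i))
    (fun i x => fg (G i) (hfc i x).toFinset)
  refine ⟨i, j, hij, isMinor_of_comps (reps (G i)) (reps (G j)) (reps_cover _) (reps_unique _)
    (reps_unique _) f hf (fun x hx => (hf' x hx).1) fun x hx => ?_⟩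
  have h1 := fg_up (G i) (hfc i x).toFinset
  have h2 := fg_down (G j) (hfc j (f x)).toFinset
  rw [Finite.coe_toFinset] at h1 h2
  exact (h1.trans (isMinor_iff.1 (hf' x hx).2)).trans h2

theorem wqo_FinComp_iff : IsWQO FinComp ↔ ClassesWQO := ⟨classes_of_wqo, wqo_of_classes⟩

end Pool.Agent.Lib.MP_a45bfb_lc
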