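import Pool.Agent.Lib.MP_a45bfb_lc.Finite

/-!
# Graphs with finite components and classes of finite graphs
-/

namespace Pool.Agent.Lib.MP_a45bfb_lc

open Ordinal Set

universe u

section general

variable {V W X : Type u} {G : SimpleGraph V} {H : SimpleGraph W} {K : SimpleGraph X}

theorem connectedOn_singleton (G : SimpleGraph V) (x : V) : ConnectedOn G ({x} : Set V) := by
  refine ⟨⟨x, rfl⟩, fun a ha b hb => ?_⟩
  rw [mem_singleton_iff.1 ha, mem_singleton_iff.1 hb]
  exact Conn.refl _ _ _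

theorem MinorOn.of_map {S : Set V} {T : Set W} (f : V → W) (hf : Set.InjOn f S)
    (hT : ∀ v ∈ S, f v ∈ T) (hadj : ∀ u ∈ S, ∀ v ∈ S, G.Adj u v → H.Adj (f u) (f v)) :
    MinorOn G S H T := by
  refine ⟨fun v => {f v}, fun v hv => ⟨connectedOn_singleton _ _, ?_⟩, ?_, ?_⟩
  · rintro _ rfl
    exact hT v hv
  · intro u hu v hv huv
    rw [Set.disjoint_singleton]
    exact fun h => huv (hf hu hv h)
  · intro u hu v hv huv
    exact ⟨_, rfl, _, rfl, hadj u hu v hv huv⟩

theorem MinorOn.trans {S : Set V} {T : Set W} {U : Set X} (h1 : MinorOn G S H T)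
    (h2 : MinorOn H T K U) : MinorOn G S K U := by
  obtain ⟨B, hB, hBd, hBa⟩ := h1
  obtain ⟨D, hD, hDd, hDa⟩ := h2
  refine ⟨fun v => ⋃ w ∈ B v, D w, fun v hv => ⟨⟨?_, ?_⟩, ?_⟩, ?_, ?_⟩
  · obtain ⟨w, hw⟩ := (hB v hv).1.1
    obtain ⟨x, hx⟩ := (hD w ((hB v hv).2 hw)).1.1
    exact ⟨x, mem_biUnion hw hx⟩
  · intro a ha b hb
    simp only [mem_iUnion, exists_prop] at ha hb
    obtain ⟨w, hw, haw⟩ := ha
    obtain ⟨w', hw', hbw'⟩ := hb
    have key : ∀ w', Conn H (B v) w w' → ∀ b ∈ D w', Conn K (⋃ w ∈ B v, D w) a b := by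
      intro w' h
      induction h with
      | refl =>
        intro b hb
        exact ((hD w ((hB v hv).2 hw)).1.2 a haw b hb).mono (subset_biUnion_of_mem hw)
      | @tail p q _ hpq ih =>
        intro b hb
        obtain ⟨h1, hp, hq⟩ := hpq
        obtain ⟨s, hs, t, ht, hst⟩ := hDa p ((hB v hv).2 hp) q ((hB v hv).2 hq) h1
        have h3 : Conn K (⋃ w ∈ B v, D w) a t :=
          (ih s hs).tail hst (mem_biUnion hp hs) (mem_biUnion hq ht)
        exact h3.trans (((hD q ((hB v hv).2 hq)).1.2 t ht b hb).mono (subset_biUnion_of_mem hq))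
    exact key w' ((hB v hv).1.2 w hw w' hw') b hbw'
  · intro a ha
    simp only [mem_iUnion, exists_prop] at ha
    obtain ⟨w, hw, haw⟩ := ha
    exact (hD w ((hB v hv).2 hw)).2 haw
  · intro u hu v hv huv
    rw [Set.disjoint_left]
    intro a ha ha'
    simp only [mem_iUnion, exists_prop] at ha ha'
    obtain ⟨w, hw, haw⟩ := ha
    obtain ⟨w', hw', haw'⟩ := ha'
    have hne : w ≠ w' := by
      rintro rfl
      exact Set.disjoint_left.1 (hBd u hu v hv huv) hw hw'
    exact Set.disjoint_left.1 (hDd w ((hB u hu).2 hw) w' ((hB v hv).2 hw') hne) haw haw'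
  · intro u hu v hv huv
    obtain ⟨p, hp, q, hq, hpq⟩ := hBa u hu v hv huv
    obtain ⟨s, hs, t, ht, hst⟩ := hDa p ((hB u hu).2 hp) q ((hB v hv).2 hq) hpq
    exact ⟨s, mem_biUnion hp hs, t, mem_biUnion hq ht, hst⟩

theorem isMinor_iff : IsMinor G H ↔ MinorOn G Set.univ H Set.univ := by
  constructor
  · rintro ⟨B, h1, h2, h3⟩
    exact ⟨B, fun v _ => ⟨h1 v, subset_univ _⟩, fun u _ v _ => h2 u v, fun u _ v _ => h3 u v⟩
  · rintro ⟨B, h1, h2, h3⟩
    exact ⟨B, fun v => (h1 v trivial).1, fun u v => h2 u trivial v trivial,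
      fun u v => h3 u trivial v trivial⟩

theorem IsMinor.trans (h1 : IsMinor G H) (h2 : IsMinor H K) : IsMinor G K :=
  isMinor_iff.2 ((isMinor_iff.1 h1).trans (isMinor_iff.1 h2))

theorem IsMinor.refl (G : SimpleGraph V) : IsMinor G G :=
  isMinor_iff.2 (MinorOn.of_map id (fun _ _ _ _ h => h) (fun _ _ => trivial)
    fun _ _ _ _ h => h)

/-- All components are finite. -/
def FinComps (G : SimpleGraph V) : Prop := ∀ x, (comp G Set.univ x).Finite

theorem FinComps.of_minor (h : IsMinor G H) (hH : FinComps H) : FinComps G := by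
  obtain ⟨B, hB, hdis, hadj⟩ := h
  intro x
  obtain ⟨w, hw⟩ := (hB x).1
  have hsub : ∀ y ∈ comp G Set.univ x, ∀ b ∈ B y, b ∈ comp H Set.univ w := by
    intro y hy
    induction hy with
    | refl => exact fun b hb => ((hB x).2 w hw b hb).mono (subset_univ _)
    | @tail p q _ hpq ih =>
      intro b hb
      obtain ⟨s, hs, t, ht, hst⟩ := hadj p q hpq.1
      have h1 : Conn H Set.univ w t := Conn.tail (ih s hs) hst trivial trivial
      exact h1.trans (((hB q).2 t ht b hb).mono (subset_univ _))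
  have hch : ∀ y, ∃ b, b ∈ B y := fun y => (hB y).1
  choose f hf using hch
  refine Set.Finite.of_finite_image (f := f) ((hH w).subset ?_) ?_
  · rintro _ ⟨y, hy, rfl⟩
    exact hsub y hy _ (hf y)
  · intro y _ z _ hyz
    by_contra hne
    exact Set.disjoint_left.1 (hdis y z hne) (hf y) (hyz ▸ hf z)

end general

/-- The graphs on `ℕ` all of whose components are finite. -/
def FinComp : Set (SimpleGraph ℕ) := {G | ∀ C, IsComponent G Set.univ C → C.Finite}

theorem mem_FinComp {G : SimpleGraph ℕ} : G ∈ FinComp ↔ FinComps G := by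
  constructor
  · intro h x
    exact h _ ⟨x, trivial, rfl⟩
  · rintro h C ⟨x, _, rfl⟩
    exact h x

theorem finComp_sub : FinComp ⊆ RankLE 1 := by
  intro G hG
  rw [mem_RankLE, R_iff]
  refine ⟨∅, fun x _ => ⟨0, by simp, ?_⟩⟩
  have : (Set.univ : Set ℕ) \ ((∅ : Finset ℕ) : Set ℕ) = Set.univ := by simp
  rw [this]
  exact R_of_finite (mem_FinComp.1 hG x) _

theorem minorClosed_FinComp : MinorClosed FinComp := fun _ hG _ hH =>
  mem_FinComp.2 (FinComps.of_minor hH (mem_FinComp.1 hG))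

theorem isBorel_FinComp : IsBorel FinComp := by
  have : FinComp = ⋂ x : ℕ, {G : SimpleGraph ℕ | R G 0 (comp G (((∅ : Finset ℕ) : Set ℕ)ᶜ) x)} := by
    ext G
    rw [mem_FinComp]
    simp only [mem_iInter, mem_ofPred_eq, Finset.coe_empty, compl_empty]
    exact forall_congr' fun x => ⟨fun h => R_of_finite h _, finite_of_R_zero⟩
  rw [this]
  exact MeasurableSet.iInter fun x => borel_R_comp 0 (Ordinal.omega_pos 1) ∅ x (by simp)

theorem questionFor_FinComp : QuestionFor FinComp ↔ IsWQO FinComp := by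
  constructor
  · intro h
    exact h _ Subset.rfl (fun G hG => rayless_of_mem (finComp_sub hG))
      (twinClosed_of_minorClosed minorClosed_FinComp)
      fun α hα => isBorel_inter isBorel_FinComp (borel_Rank α hα)
  · intro h
    exact questionFor_of_wqo (IsWQO.mono (fun G hG => hG.1) h)

theorem gmt_of_classes (h : ClassesWQO) : GraphMinorTheorem := by
  intro n g
  obtain ⟨i, j, hij, hsub⟩ := h (fun k => {F : FinGraph | IsMinor F.2 (g k)})
    (fun k F hF F' hF' => IsMinor.trans hF' hF)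
  exact ⟨i, j, hij, hsub (show (⟨n i, g i⟩ : FinGraph) ∈ {F : FinGraph | IsMinor F.2 (g i)} from
    IsMinor.refl (g i))⟩

end Pool.Agent.Lib.MP_a45bfb_lc
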