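import Pool.Agent.Lib.MP_a45bfb_lc.Defs

namespace Pool.Agent.Lib.MP_a45bfb_lc

open Ordinal Set

universe u

variable {V W : Type u} {G : SimpleGraph V} {T T' S : Set V} {x y z : V}

def comp (G : SimpleGraph V) (T : Set V) (x : V) : Set V := {y | Conn G T x y}

theorem Conn.symm (h : Conn G T x y) : Conn G T y x := by
  induction h with
  | refl => exact Relation.ReflTransGen.refl
  | tail _ hbc ih => exact Relation.ReflTransGen.head ⟨hbc.1.symm, hbc.2.2, hbc.2.1⟩ ih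

theorem Conn.trans (h : Conn G T x y) (h' : Conn G T y z) : Conn G T x z :=
  Relation.ReflTransGen.trans h h'

theorem Conn.refl (G : SimpleGraph V) (T : Set V) (x : V) : Conn G T x x :=
  Relation.ReflTransGen.refl

theorem Conn.tail (h : Conn G T x y) (h1 : G.Adj y z) (h2 : y ∈ T) (h3 : z ∈ T) :
    Conn G T x z := Relation.ReflTransGen.tail h ⟨h1, h2, h3⟩

theorem Conn.mono (hT : T ⊆ T') (h : Conn G T x y) : Conn G T' x y := by
  induction h with
  | refl => exact Relation.ReflTransGen.refl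
  | tail _ hbc ih => exact Relation.ReflTransGen.tail ih ⟨hbc.1, hT hbc.2.1, hT hbc.2.2⟩

theorem Conn.mem (hx : x ∈ T) (h : Conn G T x y) : y ∈ T := by
  rcases Relation.ReflTransGen.cases_tail h with h | ⟨c, _, hc⟩
  · exact h ▸ hx
  · exact hc.2.2

theorem comp_subset (hx : x ∈ T) : comp G T x ⊆ T := fun _ hy => Conn.mem hx hy

theorem conn_comp (h : Conn G T x y) : Conn G (comp G T x) x y := by
  induction h with
  | refl => exact Conn.refl _ _ _
  | @tail b c hb hbc ih =>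
    exact ih.tail hbc.1 hb (Conn.tail hb hbc.1 hbc.2.1 hbc.2.2)

theorem comp_eq (h : Conn G T x y) : comp G T x = comp G T y := by
  ext z
  exact ⟨fun hz => h.symm.trans hz, fun hz => h.trans hz⟩

/-- The rank of `G[S]` is at most `α`. -/
def R (G : SimpleGraph V) (α : Ordinal.{0}) (S : Set V) : Prop :=
  ∃ F : Finset V, ∀ x ∈ S \ (F : Set V), ∃ β, ∃ _ : β < α, R G β (comp G (S \ F) x)
termination_by α

theorem R_iff (G : SimpleGraph V) (α : Ordinal.{0}) (S : Set V) :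
    R G α S ↔ ∃ F : Finset V, ∀ x ∈ S \ (F : Set V), ∃ β < α, R G β (comp G (S \ F) x) := by
  rw [R]
  simp only [exists_prop]

theorem R_of_finite (h : S.Finite) (α : Ordinal.{0}) : R G α S := by
  rw [R_iff]
  refine ⟨h.toFinset, fun x hx => ?_⟩
  exact absurd hx.1 (by simpa using hx.2)

theorem finite_of_R_zero (h : R G 0 S) : S.Finite := by
  rw [R_iff] at h
  obtain ⟨F, hF⟩ := h
  refine F.finite_toSet.subset fun x hx => ?_
  by_contra hxF
  obtain ⟨β, hβ, _⟩ := hF x ⟨hx, hxF⟩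
  exact absurd hβ (by simp)

theorem R_mono {α β : Ordinal.{0}} (hab : α ≤ β) (h : R G α S) : R G β S := by
  rw [R_iff] at h ⊢
  obtain ⟨F, hF⟩ := h
  exact ⟨F, fun x hx => (hF x hx).imp fun γ hγ => ⟨hγ.1.trans_le hab, hγ.2⟩⟩

theorem R_rayless : ∀ (α : Ordinal.{0}) (S : Set V), R G α S → RaylessOn G S := by
  intro α
  induction α using Ordinal.induction with
  | h α ih =>
    intro S h
    rw [R_iff] at h
    obtain ⟨F, hF⟩ := h
    rintro ⟨f, hf, hfS, hadj⟩
    have hfin : {n | f n ∈ (F : Set V)}.Finite := F.finite_toSet.preimage hf.injOn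
    obtain ⟨N, hN⟩ := hfin.bddAbove
    have hout : ∀ n, N < n → f n ∉ (F : Set V) := fun n hn hmem => absurd (hN hmem) (not_le.2 hn)
    have hstart : f (N + 1) ∈ S \ (F : Set V) := ⟨hfS _, hout _ (Nat.lt_succ_self _)⟩
    obtain ⟨β, hβ, hR⟩ := hF _ hstart
    refine ih β hβ _ hR ⟨fun n => f (N + 1 + n), ?_, ?_, ?_⟩
    · intro a b hab
      have := hf hab
      omega
    · intro n
      induction n with
      | zero => exact Conn.refl _ _ _
      | succ n ihn =>
        exact Conn.tail ihn (hadj (N + 1 + n)) ⟨hfS _, hout _ (by omega)⟩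
          ⟨hfS _, hout _ (by omega)⟩
    · intro n
      exact hadj (N + 1 + n)

/-- `G[S]` is a minor of `H[T]`. -/
def MinorOn (G : SimpleGraph V) (S : Set V) (H : SimpleGraph W) (T : Set W) : Prop :=
  ∃ B : V → Set W, (∀ v ∈ S, ConnectedOn H (B v) ∧ B v ⊆ T) ∧
    (∀ u ∈ S, ∀ v ∈ S, u ≠ v → Disjoint (B u) (B v)) ∧
    ∀ u ∈ S, ∀ v ∈ S, G.Adj u v → ∃ a ∈ B u, ∃ b ∈ B v, H.Adj a b

theorem R_minor {H : SimpleGraph W} : ∀ (α : Ordinal.{0}) (S : Set V) (T : Set W),
    MinorOn G S H T → R H α T → R G α S := by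
  intro α
  induction α using Ordinal.induction with
  | h α ih =>
    rintro S T ⟨B, hB, hdis, hadj⟩ h
    rw [R_iff] at h ⊢
    obtain ⟨F, hF⟩ := h
    have hfin : {v ∈ S | ∃ w ∈ F, w ∈ B v}.Finite := by
      have hsub : {v ∈ S | ∃ w ∈ F, w ∈ B v} ⊆ ⋃ w ∈ F, {v ∈ S | w ∈ B v} := by
        rintro v ⟨hv, w, hw, hwv⟩
        exact mem_biUnion hw ⟨hv, hwv⟩
      refine Set.Finite.subset (F.finite_toSet.biUnion fun w _ => ?_) hsub
      refine Set.Subsingleton.finite ?_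
      rintro u ⟨hu, hwu⟩ v ⟨hv, hwv⟩
      by_contra hne
      exact Set.disjoint_left.1 (hdis u hu v hv hne) hwu hwv
    refine ⟨hfin.toFinset, fun x hx => ?_⟩
    have hout : ∀ v ∈ S \ (hfin.toFinset : Set V), B v ⊆ T \ (F : Set W) := by
      intro v hv w hw
      refine ⟨(hB v hv.1).2 hw, fun hwF => hv.2 ?_⟩
      simp only [Finite.coe_toFinset, mem_ofPred_eq]
      exact ⟨hv.1, w, hwF, hw⟩
    obtain ⟨w, hw⟩ := (hB x hx.1).1.1
    obtain ⟨β, hβ, hR⟩ := hF w (hout x hx hw)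
    refine ⟨β, hβ, ih β hβ _ _ ⟨B, ?_, ?_, ?_⟩ hR⟩
    · intro v hv
      have hvS : v ∈ S \ (hfin.toFinset : Set V) := Conn.mem hx hv
      refine ⟨(hB v hvS.1).1, ?_⟩
      induction hv with
      | refl => exact fun b hb => ((hB x hx.1).1.2 w hw b hb).mono (hout x hx)
      | @tail p q hp hpq ihp =>
        have hpS := hpq.2.1
        obtain ⟨a, ha, b, hb, hab⟩ := hadj p hpS.1 q hvS.1 hpq.1
        have h1 := ihp hpS ha
        have h2 : Conn H (T \ (F : Set W)) w b :=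
          Conn.tail h1 hab (hout p hpS ha) (hout q hvS hb)
        exact fun c hc => h2.trans (((hB q hvS.1).1.2 b hb c hc).mono (hout q hvS))
    · intro u hu v hv
      exact hdis u (Conn.mem hx hu).1 v (Conn.mem hx hv).1
    · intro u hu v hv
      exact hadj u (Conn.mem hx hu).1 v (Conn.mem hx hv).1

theorem exists_unranked [Countable V] (hS : ∀ α < ω₁, ¬ R G α S) (F : Finset V) :
    ∃ x ∈ S \ (F : Set V), ∀ α < ω₁, ¬ R G α (comp G (S \ F) x) := by
  by_contra hcon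
  push Not at hcon
  have hex : ∀ x : V, ∃ α < ω₁, x ∈ S \ (F : Set V) → R G α (comp G (S \ F) x) := by
    intro x
    by_cases hx : x ∈ S \ (F : Set V)
    · obtain ⟨α, hα, h⟩ := hcon x hx
      exact ⟨α, hα, fun _ => h⟩
    · exact ⟨0, by exact Ordinal.omega_pos 1, fun h => absurd h hx⟩
  choose a ha hR using hex
  have hsup : ⨆ x, a x < ω₁ := Ordinal.iSup_lt_omega_one ha
  have hlim : (⨆ x, a x) + 1 < ω₁ := (Cardinal.isSuccLimit_omega 1).add_one_lt hsup
  refine hS _ hlim ((R_iff _ _ _).2 ⟨F, fun x hx => ⟨a x, ?_, hR x hx⟩⟩)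
  exact lt_of_le_of_lt (Ordinal.le_iSup a x) (lt_add_one _)

theorem conn_start {C : Set V} (h : Conn G C x y) (hne : y ≠ x) :
    ∃ x', G.Adj x x' ∧ x ∈ C ∧ x' ∈ C \ {x} ∧ Conn G (C \ {x}) x' y := by
  induction h with
  | refl => exact absurd rfl hne
  | @tail p q hp hpq ih =>
    by_cases hpx : p = x
    · subst hpx
      exact ⟨q, hpq.1, hpq.2.1, ⟨hpq.2.2, hne⟩, Conn.refl _ _ _⟩
    · obtain ⟨x', h1, h2, h3, h4⟩ := ih hpx
      exact ⟨x', h1, h2, h3, h4.tail hpq.1 ⟨hpq.2.1, hpx⟩ ⟨hpq.2.2, hne⟩⟩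

theorem rayless_R [Countable V] (h : RaylessOn G S) : ∃ α < ω₁, R G α S := by
  by_contra hcon
  push Not at hcon
  -- states
  let P : Set V × V → Prop := fun p => p.2 ∈ p.1 ∧ (∀ y ∈ p.1, Conn G p.1 p.2 y) ∧
    (∀ α < ω₁, ¬ R G α p.1) ∧ p.1 ⊆ S
  have hstep : ∀ s : {p // P p}, ∃ s' : {p // P p}, G.Adj s.1.2 s'.1.2 ∧
      s'.1.1 ⊆ s.1.1 \ {s.1.2} := by
    rintro ⟨⟨C, x⟩, hx, hC, hU, hCS⟩
    obtain ⟨y, hy, hyU⟩ := exists_unranked hU {x}
    simp only [Finset.coe_singleton] at hy hyU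
    obtain ⟨x', h1, h2, h3, h4⟩ := conn_start (hC y hy.1) (by simpa using hy.2)
    have hce : comp G (C \ {x}) x' = comp G (C \ {x}) y := comp_eq h4
    refine ⟨⟨(comp G (C \ {x}) x', x'), Conn.refl _ _ _, ?_, ?_, ?_⟩, h1, ?_⟩
    · intro z hz
      exact conn_comp hz
    · simp only [hce]
      exact hyU
    · exact (comp_subset h3).trans (sdiff_subset.trans hCS)
    · exact comp_subset h3
  choose next hn1 hn2 using hstep
  obtain ⟨y0, hy0, hU0⟩ := exists_unranked hcon ∅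
  simp only [Finset.coe_empty, sdiff_empty] at hy0 hU0
  let s0 : {p // P p} := ⟨(comp G S y0, y0), Conn.refl _ _ _, fun z hz => conn_comp hz, hU0,
    comp_subset hy0⟩
  let s : ℕ → {p // P p} := fun n => Nat.rec s0 (fun _ t => next t) n
  have hs : ∀ n, s (n + 1) = next (s n) := fun n => rfl
  have hmono : ∀ n k, (s (n + 1 + k)).1.1 ⊆ (s n).1.1 \ {(s n).1.2} := by
    intro n k
    induction k with
    | zero =>
      rw [Nat.add_zero, hs]
      exact hn2 _
    | succ k ih =>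
      refine Subset.trans ?_ ih
      rw [show n + 1 + (k + 1) = (n + 1 + k) + 1 from rfl, hs]
      exact (hn2 _).trans sdiff_subset
  refine h ⟨fun n => (s n).1.2, ?_, fun n => (s n).2.2.2.2 (s n).2.1, fun n => ?_⟩
  · have hlt : ∀ a b, a < b → (s a).1.2 ≠ (s b).1.2 := by
      intro a b hab heq
      obtain ⟨k, rfl⟩ := Nat.exists_eq_add_of_lt hab
      have h1 : (s (a + k + 1)).1.2 ∈ (s (a + k + 1)).1.1 := (s (a + k + 1)).2.1
      rw [show a + k + 1 = a + 1 + k by ring] at h1 heq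
      have h2 := hmono a k h1
      exact h2.2 heq.symm
    intro a b hab
    rcases lt_trichotomy a b with hl | he | hg
    · exact absurd hab (hlt a b hl)
    · exact he
    · exact absurd hab.symm (hlt b a hg)
  · show G.Adj (s n).1.2 (s (n + 1)).1.2
    rw [hs]
    exact hn1 _

theorem hasRank_iff' (G : SimpleGraph V) (α : Ordinal.{0}) (S : Set V) :
    HasRank G α S ↔ (α = 0 ∧ S.Finite) ∨ (0 < α ∧ RaylessOn G S ∧
      (∀ β, β < α → ¬ HasRank G β S) ∧
      ∃ F : Finset V, ∀ C, IsComponent G (S \ F) C → ∃ β < α, HasRank G β C) := by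
  rw [HasRank]
  simp only [exists_prop]

theorem R_of_hasRank : ∀ (α : Ordinal.{0}) (S : Set V), HasRank G α S → R G α S := by
  intro α
  induction α using Ordinal.induction with
  | h α ih =>
    intro S h
    rw [hasRank_iff'] at h
    rcases h with ⟨rfl, hfin⟩ | ⟨_, _, _, F, hF⟩
    · exact R_of_finite hfin _
    · rw [R_iff]
      refine ⟨F, fun x hx => ?_⟩
      obtain ⟨β, hβ, hr⟩ := hF (comp G (S \ F) x) ⟨x, hx, rfl⟩
      exact ⟨β, hβ, ih β hβ _ hr⟩

theorem exists_hasRank : ∀ (α : Ordinal.{0}) (S : Set V), R G α S → ∃ β ≤ α, HasRank G β S := by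
  intro α
  induction α using Ordinal.induction with
  | h α ih =>
    intro S h
    by_cases hlt : ∃ β < α, R G β S
    · obtain ⟨β, hβ, hR⟩ := hlt
      obtain ⟨γ, hγ, hr⟩ := ih β hβ S hR
      exact ⟨γ, hγ.trans hβ.le, hr⟩
    · push Not at hlt
      refine ⟨α, le_rfl, ?_⟩
      rw [hasRank_iff']
      rcases eq_or_ne α 0 with rfl | h0
      · exact Or.inl ⟨rfl, finite_of_R_zero h⟩
      · refine Or.inr ⟨pos_iff_ne_zero.2 h0, R_rayless α S h,
          fun β hβ hr => hlt β hβ (R_of_hasRank β S hr), ?_⟩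
        rw [R_iff] at h
        obtain ⟨F, hF⟩ := h
        refine ⟨F, ?_⟩
        rintro C ⟨x, hx, rfl⟩
        obtain ⟨β, hβ, hR⟩ := hF x hx
        obtain ⟨γ, hγ, hr⟩ := ih β hβ _ hR
        exact ⟨γ, hγ.trans_lt hβ, hr⟩

theorem hasRank_iff (G : SimpleGraph V) (α : Ordinal.{0}) (S : Set V) :
    HasRank G α S ↔ R G α S ∧ ∀ β < α, ¬ R G β S := by
  constructor
  · intro h
    refine ⟨R_of_hasRank α S h, fun β hβ hR => ?_⟩
    obtain ⟨γ, hγ, hr⟩ := exists_hasRank β S hR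
    rw [hasRank_iff'] at h
    rcases h with ⟨rfl, _⟩ | ⟨_, _, hno, _⟩
    · exact absurd hβ (by simp)
    · exact hno γ (hγ.trans_lt hβ) hr
  · rintro ⟨h, hno⟩
    obtain ⟨β, hβ, hr⟩ := exists_hasRank α S h
    rcases hβ.lt_or_eq with hlt | rfl
    · exact absurd (R_of_hasRank β S hr) (hno β hlt)
    · exact hr

end Pool.Agent.Lib.MP_a45bfb_lc
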