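import Mathlib

/-!
# Countable rayless graphs, minors, rank and Borel families

All graphs of the problem have vertex set `ℕ`; subgraphs are induced subgraphs on vertex sets.
-/

namespace Pool.Agent.Lib.MP_a45bfb_lc

open Ordinal

universe u

variable {V W : Type u}

/-- `x` and `y` are joined by a walk of `G` all of whose vertices lie in `T`
(or `x = y`). -/
def Conn (G : SimpleGraph V) (T : Set V) (x y : V) : Prop :=
  Relation.ReflTransGen (fun a b => G.Adj a b ∧ a ∈ T ∧ b ∈ T) x y

/-- `C` is the vertex set of a component of the induced subgraph `G[T]`. -/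
def IsComponent (G : SimpleGraph V) (T C : Set V) : Prop :=
  ∃ x ∈ T, C = {y | Conn G T x y}

/-- The induced subgraph `G[B]` is connected (and nonempty). -/
def ConnectedOn (G : SimpleGraph V) (B : Set V) : Prop :=
  B.Nonempty ∧ ∀ x ∈ B, ∀ y ∈ B, Conn G B x y

/-- `G` is a minor of `H`: there are pairwise disjoint connected vertex sets `B v` of `H`, one for
each vertex `v` of `G`, with an edge of `H` between `B u` and `B v` for each edge `uv` of `G`. -/
def IsMinor (G : SimpleGraph V) (H : SimpleGraph W) : Prop :=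
  ∃ B : V → Set W, (∀ v, ConnectedOn H (B v)) ∧ (∀ u v, u ≠ v → Disjoint (B u) (B v)) ∧
    ∀ u v, G.Adj u v → ∃ a ∈ B u, ∃ b ∈ B v, H.Adj a b

/-- The induced subgraph `G[S]` has no one-way infinite path. -/
def RaylessOn (G : SimpleGraph V) (S : Set V) : Prop :=
  ¬ ∃ f : ℕ → V, Function.Injective f ∧ (∀ n, f n ∈ S) ∧ ∀ n, G.Adj (f n) (f (n + 1))

/-- `G` has no one-way infinite path. -/
def Rayless (G : SimpleGraph V) : Prop :=
  ¬ ∃ f : ℕ → V, Function.Injective f ∧ ∀ n, G.Adj (f n) (f (n + 1))

/-- `HasRank G α S`: the induced subgraph `G[S]` has rank `α`. Finite graphs have rank `0`; for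
`α > 0` the graph `G[S]` has rank `α` if it is rayless, has no rank `< α`, and deleting some
finite vertex set leaves only components of rank `< α`. -/
def HasRank (G : SimpleGraph V) (α : Ordinal.{0}) (S : Set V) : Prop :=
  (α = 0 ∧ S.Finite) ∨
  (0 < α ∧ RaylessOn G S ∧ (∀ β, β < α → ¬ HasRank G β S) ∧
    ∃ F : Finset V, ∀ C, IsComponent G (S \ F) C → ∃ β, ∃ _ : β < α, HasRank G β C)
termination_by α

/-- `Rank_α`: the set of rayless graphs on `ℕ` of rank `α`. -/
def Rank (α : Ordinal.{0}) : Set (SimpleGraph ℕ) := {G | Rayless G ∧ HasRank G α Set.univ}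

open Classical in
/-- The edge indicator function `ℕ² → {0,1}` of a graph on `ℕ`. -/
noncomputable def ind (G : SimpleGraph ℕ) : ℕ × ℕ → Bool := fun p => decide (G.Adj p.1 p.2)

/-- The topology of the space of graphs on `ℕ`: the one induced from the product topology on
`{0,1}^(ℕ²)` by the edge indicator function. -/
noncomputable abbrev graphTop : TopologicalSpace (SimpleGraph ℕ) :=
  TopologicalSpace.induced ind inferInstance

/-- `C` is a Borel set of graphs on `ℕ`. -/
def IsBorel (C : Set (SimpleGraph ℕ)) : Prop := @MeasurableSet _ (@borel _ graphTop) C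

/-- `C` is closed under minor-twins. -/
def TwinClosed (C : Set (SimpleGraph ℕ)) : Prop :=
  ∀ G ∈ C, ∀ H : SimpleGraph ℕ, IsMinor G H → IsMinor H G → H ∈ C

/-- `C` is well-quasi-ordered by the minor relation. -/
def IsWQO (C : Set (SimpleGraph ℕ)) : Prop :=
  ∀ g : ℕ → SimpleGraph ℕ, (∀ n, g n ∈ C) → ∃ i j, i < j ∧ IsMinor (g i) (g j)

end Pool.Agent.Lib.MP_a45bfb_lc
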