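import Pool.Agent.Lib.MP_a45bfb_lc.Main

/-!
# Classes of finite graphs and of finite rooted pieces
-/

namespace Pool.Agent.Lib.MP_a45bfb_lc

open Ordinal Set

universe u

/-- The graphs on `ℕ` all of whose components become finite after the deletion of a suitable set
of at most `n` vertices. -/
def Sep (n : ℕ) : Set (SimpleGraph ℕ) :=
  {G | ∃ X : Finset ℕ, X.card ≤ n ∧ ∀ C, IsComponent G ((X : Set ℕ)ᶜ) C → C.Finite}

/-- Finite graphs, up to isomorphism: the graphs on the sets `Fin n`. -/
abbrev FinGraph : Type := Σ n : ℕ, SimpleGraph (Fin n)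

/-- A class of finite graphs that is closed under minors (in particular under isomorphism). -/
def MinorClosedClass (A : Set FinGraph) : Prop :=
  ∀ F ∈ A, ∀ F' : FinGraph, IsMinor F'.2 F.2 → F' ∈ A

/-- The minor-closed classes of finite graphs are well-quasi-ordered by inclusion. -/
def ClassesWQO : Prop :=
  ∀ A : ℕ → Set FinGraph, (∀ i, MinorClosedClass (A i)) → ∃ i j, i < j ∧ A i ⊆ A j

/-- The graph minor theorem for finite graphs: in every infinite sequence of finite graphs some
member is a minor of a later one. -/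
def GraphMinorTheorem : Prop :=
  ∀ (n : ℕ → ℕ) (g : ∀ k, SimpleGraph (Fin (n k))), ∃ i j, i < j ∧ IsMinor (g i) (g j)

/-- The down-closed sets of the quasi-order `r` are well-quasi-ordered by inclusion. -/
def DownWQO {Q : Type u} (r : Q → Q → Prop) : Prop :=
  ∀ A : ℕ → Set Q, (∀ i, ∀ a ∈ A i, ∀ b, r b a → b ∈ A i) → ∃ i j, i < j ∧ A i ⊆ A j

/-- A finite piece with `n` roots: a finite graph with the roots `inl 0, ..., inl (n-1)` and
finitely many further vertices `inr x`; the further vertices induce a connected nonempty graph. -/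
def Piece (n : ℕ) : Type :=
  {P : Σ m : ℕ, SimpleGraph (Fin n ⊕ Fin m) // ConnectedOn P.2 (Set.range Sum.inr)}

/-- The rooted minor relation of pieces (edges between roots are ignored): pairwise disjoint
connected sets `B v` of `Q`, one for each vertex `v` of `P`, such that the `i`-th root of `Q` lies
in the set of the `i`-th root of `P`, with an edge of `Q` between `B u` and `B v` for each edge
`uv` of `P` for which `u` is not a root. -/
def RootedMinor {n : ℕ} (P Q : Piece n) : Prop :=
  ∃ B : Fin n ⊕ Fin P.1.1 → Set (Fin n ⊕ Fin Q.1.1),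
    (∀ v, ConnectedOn Q.1.2 (B v)) ∧ (∀ u v, u ≠ v → Disjoint (B u) (B v)) ∧
    (∀ i, Sum.inl i ∈ B (Sum.inl i)) ∧
    ∀ x v, P.1.2.Adj (Sum.inr x) v → ∃ a ∈ B (Sum.inr x), ∃ b ∈ B v, Q.1.2.Adj a b

end Pool.Agent.Lib.MP_a45bfb_lc
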