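import Pool.Agent.Lib.MP_a45bfb_lc.Main

/-!
# Countable families of graphs
-/

namespace Pool.Agent.Lib.MP_a45bfb_lc

open Ordinal Set

/-- The graphs on `ℕ` all of whose components have rank at most `δ`. -/
def CompRankLE (δ : Ordinal.{0}) : Set (SimpleGraph ℕ) :=
  {G | ∀ C, IsComponent G Set.univ C → ∃ α ≤ δ, HasRank G α C}

/-- The countable families (sequences) of members of `D` are well-quasi-ordered by domination: in
every sequence `F 0, F 1, ...` of such families there are `i < j` such that every member of `F i`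
is a minor of a member of `F j`. -/
def FamiliesWQO (D : Set (SimpleGraph ℕ)) : Prop :=
  ∀ F : ℕ → ℕ → SimpleGraph ℕ, (∀ i k, F i k ∈ D) →
    ∃ i j, i < j ∧ ∀ k, ∃ l, IsMinor (F i k) (F j l)

/-- The `k`-fold families: graphs on `ℕ` for `k = 0`, and sequences of `k`-fold families for
`k + 1`. -/
def Fam : ℕ → Type
  | 0 => SimpleGraph ℕ
  | k + 1 => ℕ → Fam k

/-- All graphs of the `k`-fold family are rayless. -/
def FamRayless : ∀ k : ℕ, Fam k → Prop
  | 0, G => Rayless (V := ℕ) G
  | k + 1, f => ∀ m : ℕ, FamRayless k (f m)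

/-- The (iterated) domination of `k`-fold families: the minor relation for `k = 0`, and for
`k + 1` every member of the first family is dominated by a member of the second one. -/
def FamLe : ∀ k : ℕ, Fam k → Fam k → Prop
  | 0, G, H => IsMinor (V := ℕ) (W := ℕ) G H
  | k + 1, f, g => ∀ m : ℕ, ∃ n : ℕ, FamLe k (f m) (g n)

/-- The `k`-fold families of rayless graphs on `ℕ` are well-quasi-ordered by domination. -/
def FamWQO (k : ℕ) : Prop :=
  ∀ F : ℕ → Fam k, (∀ i, FamRayless k (F i)) → ∃ i j, i < j ∧ FamLe k (F i) (F j)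

end Pool.Agent.Lib.MP_a45bfb_lc
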