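import Pool.Agent.Lib.MP_a45bfb_lc.FamDefs
import Pool.Agent.Lib.MP_a45bfb_lc.Classes

/-!
# Coding a countable family of graphs by the disjoint union of the cones
-/

namespace Pool.Agent.Lib.MP_a45bfb_lc

open Ordinal Set

/-- The cone over a graph on `ℕ`: the apex is `0`, and `x + 1` stands for `x`. -/
def cone (G : SimpleGraph ℕ) : SimpleGraph ℕ where
  Adj a b := (a = 0 ∧ b ≠ 0) ∨ (b = 0 ∧ a ≠ 0) ∨ ∃ u v : ℕ, a = u + 1 ∧ b = v + 1 ∧ G.Adj u v
  symm := ⟨by
    rintro a b (h | h | ⟨u, v, h1, h2, h3⟩)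
    · exact Or.inr (Or.inl h)
    · exact Or.inl h
    · exact Or.inr (Or.inr ⟨v, u, h2, h1, h3.symm⟩)⟩
  loopless := ⟨by
    rintro a (⟨rfl, h⟩ | ⟨rfl, h⟩ | ⟨u, v, h1, h2, h3⟩)
    · exact h rfl
    · exact h rfl
    · have : u = v := by omega
      exact G.loopless.irrefl _ (this ▸ h3)⟩

theorem cone_pull {G : SimpleGraph ℕ} {S : Set ℕ} (h0 : 0 ∉ S) {p y : ℕ}
    (h : Conn (cone G) S (p + 1) y) :
    ∃ q : ℕ, y = q + 1 ∧ Conn G {w : ℕ | (w + 1) ∈ S} p q := by
  induction h with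
  | refl => exact ⟨p, rfl, Conn.refl _ _ _⟩
  | @tail b c _ hbc ih =>
    obtain ⟨q, rfl, hq⟩ := ih
    obtain ⟨hadj, h1, h2⟩ := hbc
    rcases hadj with ⟨h, _⟩ | ⟨rfl, _⟩ | ⟨u, v, hu, rfl, huv⟩
    · omega
    · exact absurd h2 h0
    · have hqu : q = u := by omega
      subst hqu
      exact ⟨v, rfl, hq.tail huv h1 h2⟩

/-- The cone lemma: if the cone over `F` is a minor of the cone over `H` then `F` is a minor of
`H`. -/
theorem minor_of_cone' {F H : SimpleGraph ℕ} (h : IsMinor (cone F) (cone H)) : IsMinor F H := by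
  classical
  obtain ⟨B, hB, hdis, hadj⟩ := h
  let B' : ℕ → Set ℕ := fun v => if 0 ∈ B (v + 1) then B 0 else B (v + 1)
  have hne : ∀ v : ℕ, (0 : ℕ) ≠ v + 1 := fun v => by omega
  have h0 : ∀ v, 0 ∉ B' v := by
    intro v
    by_cases hv : 0 ∈ B (v + 1)
    · simp only [B', if_pos hv]
      exact fun h => Set.disjoint_left.1 (hdis 0 (v + 1) (hne v)) h hv
    · simp only [B', if_neg hv]
      exact hv
  have hconn : ∀ v, ConnectedOn (cone H) (B' v) := by
    intro v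
    by_cases hv : 0 ∈ B (v + 1)
    · simp only [B', if_pos hv]
      exact hB 0
    · simp only [B', if_neg hv]
      exact hB _
  have hdis' : ∀ u v, u ≠ v → Disjoint (B' u) (B' v) := by
    intro u v huv
    have hne' : u + 1 ≠ v + 1 := fun h => huv (by omega)
    by_cases hu : 0 ∈ B (u + 1) <;> by_cases hv : 0 ∈ B (v + 1)
    · exact absurd hv (Set.disjoint_left.1 (hdis _ _ hne') hu)
    · simp only [B', if_pos hu, if_neg hv]
      exact hdis _ _ (hne v)
    · simp only [B', if_neg hu, if_pos hv]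
      exact hdis _ _ (hne u).symm
    · simp only [B', if_neg hu, if_neg hv]
      exact hdis _ _ hne'
  have hedge : ∀ u v, F.Adj u v → ∃ a ∈ B' u, ∃ b ∈ B' v, (cone H).Adj a b := by
    intro u v huv
    have hne' : u + 1 ≠ v + 1 := fun h => F.ne_of_adj huv (by omega)
    by_cases hu : 0 ∈ B (u + 1) <;> by_cases hv : 0 ∈ B (v + 1)
    · exact absurd hv (Set.disjoint_left.1 (hdis _ _ hne') hu)
    · simp only [B', if_pos hu, if_neg hv]
      exact hadj 0 (v + 1) (Or.inl ⟨rfl, by omega⟩)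
    · simp only [B', if_neg hu, if_pos hv]
      exact hadj (u + 1) 0 (Or.inr (Or.inl ⟨rfl, by omega⟩))
    · simp only [B', if_neg hu, if_neg hv]
      exact hadj (u + 1) (v + 1) (Or.inr (Or.inr ⟨u, v, rfl, rfl, huv⟩))
  have hpos : ∀ v, ∃ p : ℕ, p + 1 ∈ B' v := by
    intro v
    obtain ⟨a, ha⟩ := (hconn v).1
    have ha0 : a ≠ 0 := fun h => h0 v (h ▸ ha)
    exact ⟨a - 1, by rwa [Nat.sub_add_cancel (Nat.one_le_iff_ne_zero.2 ha0)]⟩
  refine ⟨fun v => {w : ℕ | (w + 1) ∈ B' v}, fun v => ⟨?_, ?_⟩, ?_, ?_⟩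
  · obtain ⟨p, hp⟩ := hpos v
    exact ⟨p, hp⟩
  · intro x hx y hy
    obtain ⟨q, hq, hc⟩ := cone_pull (h0 v) ((hconn v).2 (x + 1) hx (y + 1) hy)
    have : y = q := by omega
    rw [this]
    exact hc
  · intro u v huv
    rw [Set.disjoint_left]
    intro w hw hw'
    exact Set.disjoint_left.1 (hdis' u v huv) hw hw'
  · intro u v huv
    obtain ⟨a, ha, b, hb, hab⟩ := hedge u v huv
    rcases hab with ⟨rfl, _⟩ | ⟨rfl, _⟩ | ⟨p, q, rfl, rfl, hpq⟩
    · exact absurd ha (h0 u)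
    · exact absurd hb (h0 v)
    · exact ⟨p, ha, q, hb, hpq⟩

/-- The disjoint union of the cones over a sequence of graphs. -/
def UU (f : ℕ → SimpleGraph ℕ) : SimpleGraph (ℕ × ℕ) where
  Adj p q := p.1 = q.1 ∧ (cone (f p.1)).Adj p.2 q.2
  symm := ⟨by
    rintro ⟨k, x⟩ ⟨l, y⟩ ⟨h1, h3⟩
    simp only at h1 h3
    subst h1
    exact ⟨rfl, h3.symm⟩⟩
  loopless := ⟨by
    rintro ⟨k, x⟩ ⟨_, h3⟩
    exact (cone (f k)).loopless.irrefl _ h3⟩

theorem UU_fst {f : ℕ → SimpleGraph ℕ} {S : Set (ℕ × ℕ)} {p q : ℕ × ℕ}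
    (h : Conn (UU f) S p q) : q.1 = p.1 := by
  induction h with
  | refl => rfl
  | tail _ hbc ih => exact hbc.1.1.symm.trans ih

theorem UU_slice {f : ℕ → SimpleGraph ℕ} {S : Set (ℕ × ℕ)} {p q : ℕ × ℕ}
    (h : Conn (UU f) S p q) : Conn (cone (f p.1)) {y | (p.1, y) ∈ S} p.2 q.2 := by
  induction h with
  | refl => exact Conn.refl _ _ _
  | @tail b c hb hbc ih =>
    have h1 : b.1 = p.1 := UU_fst hb
    obtain ⟨⟨e1, e3⟩, hbS, hcS⟩ := hbc
    obtain ⟨b1, b2⟩ := b
    obtain ⟨c1, c2⟩ := c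
    simp only at h1 e1 e3 ih ⊢
    subst e1
    subst h1
    exact ih.tail e3 hbS hcS

theorem dom_of_UU {f g : ℕ → SimpleGraph ℕ} (h : IsMinor (UU f) (UU g)) (k : ℕ) :
    ∃ l, IsMinor (f k) (g l) := by
  obtain ⟨B, hB, hdis, hadj⟩ := h
  obtain ⟨⟨l, y0⟩, hy0⟩ := (hB (k, 0)).1
  have hall0 : ∀ q ∈ B (k, 0), q.1 = l := fun q hq => UU_fst ((hB (k, 0)).2 _ hy0 q hq)
  have hall : ∀ x, ∀ q ∈ B (k, x), q.1 = l := by
    intro x q hq
    rcases Nat.eq_zero_or_pos x with rfl | hpos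
    · exact hall0 q hq
    · have hc : (UU f).Adj (k, 0) (k, x) := ⟨rfl, Or.inl ⟨rfl, by simp only; omega⟩⟩
      obtain ⟨a, ha, b, hb, hab⟩ := hadj _ _ hc
      have h1 : b.1 = l := hab.1.symm.trans (hall0 a ha)
      exact (UU_fst ((hB (k, x)).2 b hb q hq)).trans h1
  refine ⟨l, minor_of_cone' ⟨fun x => {y | (l, y) ∈ B (k, x)}, ?_, ?_, ?_⟩⟩
  · intro x
    refine ⟨?_, ?_⟩
    · obtain ⟨q, hq⟩ := (hB (k, x)).1
      have h1 := hall x q hq
      refine ⟨q.2, ?_⟩
      show (l, q.2) ∈ B (k, x)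
      rw [← h1]
      exact hq
    · intro a ha b hb
      exact UU_slice ((hB (k, x)).2 _ ha _ hb)
  · intro x y hxy
    rw [Set.disjoint_left]
    intro a ha ha'
    exact Set.disjoint_left.1 (hdis (k, x) (k, y) (fun h => hxy (congrArg Prod.snd h))) ha ha'
  · intro x y hxy
    obtain ⟨a, ha, b, hb, hab⟩ := hadj (k, x) (k, y) ⟨rfl, hxy⟩
    have ha1 := hall x a ha
    have hb1 := hall y b hb
    obtain ⟨a1, a2⟩ := a
    obtain ⟨b1, b2⟩ := b
    simp only at ha1 hb1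
    subst ha1
    subst hb1
    exact ⟨a2, ha, b2, hb, hab.2⟩

theorem R_subset {V : Type} {G : SimpleGraph V} {S T : Set V} (h : S ⊆ T) {α : Ordinal.{0}}
    (hR : R G α T) : R G α S :=
  R_minor α S T (MinorOn.of_map id (fun _ _ _ _ h => h) h fun _ _ _ _ h => h) hR

/-- The copy of the cone over `f k` in the union has rank at most the rank of `f k`. -/
theorem R_UU {f : ℕ → SimpleGraph ℕ} {k : ℕ} {δ : Ordinal.{0}} (h : R (f k) δ Set.univ) :
    R (UU f) δ {p | p.1 = k} := by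
  classical
  rw [R_iff] at h ⊢
  obtain ⟨F, hF⟩ := h
  refine ⟨insert (k, 0) (F.image fun x => (k, x + 1)), ?_⟩
  rintro ⟨k', x⟩ ⟨hk, hx⟩
  simp only [mem_ofPred_eq] at hk
  subst hk
  simp only [Finset.coe_insert, Finset.coe_image, mem_insert_iff, Prod.mk.injEq, true_and,
    mem_image, Finset.mem_coe, not_or, not_exists, not_and] at hx
  obtain ⟨y, rfl⟩ : ∃ y, x = y + 1 := ⟨x - 1, by omega⟩
  have hyF : y ∉ F := fun h => hx.2 y h rfl
  obtain ⟨β, hβ, hR⟩ := hF y ⟨trivial, hyF⟩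
  refine ⟨β, hβ, R_minor β _ _ (MinorOn.of_map (fun p => p.2 - 1) ?_ ?_ ?_) hR⟩
  all_goals
    have hmem : ∀ p ∈ comp (UU f) ({p | p.1 = k'} \ (insert (k', 0) (F.image fun x => (k', x + 1)) :
        Finset (ℕ × ℕ))) (k', y + 1), ∃ z, p = (k', z + 1) ∧
        z ∈ comp (f k') (Set.univ \ (F : Set ℕ)) y := by
      intro p hp
      induction hp with
      | refl => exact ⟨y, rfl, Conn.refl _ _ _⟩
      | @tail b c _ hbc ih =>
        obtain ⟨z, rfl, hz⟩ := ih
        obtain ⟨⟨e1, e3⟩, hb, hc⟩ := hbc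
        obtain ⟨c1, c2⟩ := c
        simp only at e1 e3
        subst e1
        have hc2 := hc.2
        have hb2 := hb.2
        simp only [Finset.coe_insert, Finset.coe_image, mem_insert_iff, Prod.mk.injEq, true_and,
          mem_image, Finset.mem_coe, not_or, not_exists, not_and] at hc2 hb2
        obtain ⟨w, rfl⟩ : ∃ w, c2 = w + 1 := ⟨c2 - 1, by omega⟩
        refine ⟨w, rfl, ?_⟩
        have hzF : z ∉ F := fun h => hb2.2 z h rfl
        have hwF : w ∉ F := fun h => hc2.2 w h rfl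
        rcases e3 with ⟨h, _⟩ | ⟨h, _⟩ | ⟨u, v, hu, hv, huv⟩
        · omega
        · omega
        · have h1 : z = u := by omega
          have h2 : w = v := by omega
          subst h1
          subst h2
          exact Conn.tail hz huv ⟨trivial, hzF⟩ ⟨trivial, hwF⟩
  · intro p hp q hq hpq
    obtain ⟨z, rfl, _⟩ := hmem p hp
    obtain ⟨w, rfl, _⟩ := hmem q hq
    simp only [Nat.add_sub_cancel] at hpq
    rw [hpq]
  · intro p hp
    obtain ⟨z, rfl, hz⟩ := hmem p hp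
    simpa only [Nat.add_sub_cancel] using hz
  · intro p hp q hq hpq
    obtain ⟨z, rfl, _⟩ := hmem p hp
    obtain ⟨w, rfl, _⟩ := hmem q hq
    simp only [Nat.add_sub_cancel]
    obtain ⟨_, ⟨h, _⟩ | ⟨h, _⟩ | ⟨u, v, hu, hv, huv⟩⟩ := hpq
    · simp only at h
      omega
    · simp only at h
      omega
    · simp only at hu hv
      have h1 : z = u := by omega
      have h2 : w = v := by omega
      subst h1
      subst h2
      exact huv

theorem mem_CompRankLE {G : SimpleGraph ℕ} {δ : Ordinal.{0}} :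
    G ∈ CompRankLE δ ↔ ∀ x, R G δ (comp G Set.univ x) := by
  constructor
  · intro h x
    obtain ⟨α, hα, hr⟩ := h _ ⟨x, trivial, rfl⟩
    exact R_mono hα (R_of_hasRank α _ hr)
  · rintro h C ⟨x, _, rfl⟩
    exact exists_hasRank δ _ (h x)

theorem rankLE_sub_comp (δ : Ordinal.{0}) : RankLE δ ⊆ CompRankLE δ := fun _ hG =>
  mem_CompRankLE.2 fun _ => R_subset (subset_univ _) (mem_RankLE.1 hG)

theorem comp_sub_rankLE (δ : Ordinal.{0}) : CompRankLE δ ⊆ RankLE (δ + 1) := by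
  intro G hG
  rw [mem_RankLE, R_iff]
  refine ⟨∅, fun x _ => ⟨δ, lt_add_one δ, ?_⟩⟩
  have : (Set.univ : Set ℕ) \ ((∅ : Finset ℕ) : Set ℕ) = Set.univ := by simp
  rw [this]
  exact mem_CompRankLE.1 hG x

theorem compMinor {V W : Type} {G : SimpleGraph V} {H : SimpleGraph W} (h : IsMinor G H) (x : V) :
    ∃ w, MinorOn G (comp G Set.univ x) H (comp H Set.univ w) := by
  obtain ⟨B, hB, hdis, hadj⟩ := h
  obtain ⟨w, hw⟩ := (hB x).1
  have hsub : ∀ y ∈ comp G Set.univ x, ∀ b ∈ B y, b ∈ comp H Set.univ w := by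
    intro y hy
    induction hy with
    | refl => exact fun b hb => ((hB x).2 w hw b hb).mono (subset_univ _)
    | @tail p q _ hpq ih =>
      intro b hb
      obtain ⟨s, hs, t, ht, hst⟩ := hadj p q hpq.1
      have h1 : Conn H Set.univ w t := Conn.tail (ih s hs) hst trivial trivial
      exact h1.trans (((hB q).2 t ht b hb).mono (subset_univ _))
  exact ⟨w, B, fun v hv => ⟨hB v, hsub v hv⟩, fun u _ v _ => hdis u v, fun u _ v _ => hadj u v⟩

theorem minorClosed_CompRankLE (δ : Ordinal.{0}) : MinorClosed (CompRankLE δ) := by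
  intro H hH G hGH
  rw [mem_CompRankLE] at hH ⊢
  intro x
  obtain ⟨w, hw⟩ := compMinor hGH x
  exact R_minor δ _ _ hw (hH w)

theorem isBorel_CompRankLE {δ : Ordinal.{0}} (hδ : δ < ω₁) : IsBorel (CompRankLE δ) := by
  have : CompRankLE δ =
      ⋂ x : ℕ, {G : SimpleGraph ℕ | R G δ (comp G (((∅ : Finset ℕ) : Set ℕ)ᶜ) x)} := by
    ext G
    rw [mem_CompRankLE]
    simp only [mem_iInter, mem_ofPred_eq, Finset.coe_empty, compl_empty]
  rw [this]
  exact MeasurableSet.iInter fun x => borel_R_comp δ hδ ∅ x (by simp)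

theorem questionFor_CompRankLE {δ : Ordinal.{0}} (hδ : δ < ω₁) :
    QuestionFor (CompRankLE δ) ↔ IsWQO (CompRankLE δ) := by
  constructor
  · intro h
    exact h _ Subset.rfl (fun G hG => rayless_of_mem (comp_sub_rankLE δ hG))
      (twinClosed_of_minorClosed (minorClosed_CompRankLE δ))
      fun α hα => isBorel_inter (isBorel_CompRankLE hδ) (borel_Rank α hα)
  · intro h
    exact questionFor_of_wqo (IsWQO.mono (fun G hG => hG.1) h)

theorem families_of_wqo {δ : Ordinal.{0}} (h : IsWQO (CompRankLE δ)) :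
    FamiliesWQO (RankLE δ) := by
  intro F hF
  obtain ⟨e⟩ : Nonempty (ℕ ≃ ℕ × ℕ) := nonempty_equiv_of_countable
  have hdown : ∀ i, IsMinor ((UU (F i)).comap e) (UU (F i)) := fun i =>
    isMinor_iff.2 (MinorOn.of_map e e.injective.injOn (fun _ _ => trivial) fun _ _ _ _ h => h)
  have hup : ∀ i, IsMinor (UU (F i)) ((UU (F i)).comap e) := fun i =>
    isMinor_iff.2 (MinorOn.of_map e.symm e.symm.injective.injOn (fun _ _ => trivial)
      fun u _ v _ h => by
        simp only [SimpleGraph.comap_adj, Equiv.apply_symm_apply]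
        exact h)
  obtain ⟨i, j, hij, hm⟩ := h (fun i => (UU (F i)).comap e) fun i => by
    rw [mem_CompRankLE]
    intro x
    obtain ⟨w, hw⟩ := compMinor (hdown i) x
    refine R_minor δ _ _ hw (R_subset ?_ (R_UU (k := w.1) (mem_RankLE.1 (hF i w.1))))
    intro q hq
    exact UU_fst hq
  exact ⟨i, j, hij, dom_of_UU (((hup i).trans hm).trans (hdown j))⟩

end Pool.Agent.Lib.MP_a45bfb_lc
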