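import Pool.Agent.Lib.MP_a45bfb_lc.FamUp

/-!
# Iterated families
-/

namespace Pool.Agent.Lib.MP_a45bfb_lc

open Ordinal Set

theorem exists_code_family : ∃ Φ : (ℕ → SimpleGraph ℕ) → SimpleGraph ℕ,
    (∀ f, (∀ m, Rayless (f m)) → Rayless (Φ f)) ∧
    ∀ f g, IsMinor (Φ f) (Φ g) → ∀ k, ∃ l, IsMinor (f k) (g l) := by
  obtain ⟨e⟩ : Nonempty (ℕ ≃ ℕ × ℕ) := nonempty_equiv_of_countable
  have hdown : ∀ f, IsMinor ((UU f).comap e) (UU f) := fun f =>
    isMinor_iff.2 (MinorOn.of_map e e.injective.injOn (fun _ _ => trivial) fun _ _ _ _ h => h)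
  have hup : ∀ f, IsMinor (UU f) ((UU f).comap e) := fun f =>
    isMinor_iff.2 (MinorOn.of_map e.symm e.symm.injective.injOn (fun _ _ => trivial)
      fun u _ v _ h => by
        simp only [SimpleGraph.comap_adj, Equiv.apply_symm_apply]
        exact h)
  refine ⟨fun f => (UU f).comap e, fun f hf => ?_, fun f g h => ?_⟩
  · have hex : ∀ m, ∃ α < ω₁, f m ∈ Rank α := fun m => (rayless_iff_rank (f m)).1 (hf m)
    choose a ha hr using hex
    refine rayless_of_mem (comp_sub_rankLE (⨆ m, a m) ((mem_CompRankLE).2 fun x => ?_))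
    obtain ⟨w, hw⟩ := compMinor (hdown f) x
    refine R_minor _ _ _ hw (R_subset ?_ (R_UU (k := w.1)
      (mem_RankLE.1 ⟨a w.1, Ordinal.le_iSup a w.1, hr w.1⟩)))
    intro q hq
    exact UU_fst hq
  · exact dom_of_UU (((hup f).trans h).trans (hdown g))

theorem famWQO_of_wqo (h : IsWQO {G : SimpleGraph ℕ | Rayless G}) (k : ℕ) : FamWQO k := by
  obtain ⟨Φ, hΦ1, hΦ2⟩ := exists_code_family
  have key : ∀ k, ∃ Ψ : Fam k → SimpleGraph ℕ, (∀ f, FamRayless k f → Rayless (Ψ f)) ∧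
      ∀ f g, IsMinor (Ψ f) (Ψ g) → FamLe k f g := by
    intro k
    induction k with
    | zero => exact ⟨fun G => G, fun _ h => h, fun _ _ h => h⟩
    | succ k ih =>
      obtain ⟨Ψ, h1, h2⟩ := ih
      refine ⟨fun f => Φ (fun m => Ψ (f m)), fun f hf => hΦ1 _ fun m => h1 _ (hf m), ?_⟩
      intro f g hfg m
      obtain ⟨l, hl⟩ := hΦ2 _ _ hfg m
      exact ⟨l, h2 _ _ hl⟩
  intro F hF
  obtain ⟨Ψ, h1, h2⟩ := key k
  obtain ⟨i, j, hij, hm⟩ := h (fun i => Ψ (F i)) fun i => h1 _ (hF i)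
  exact ⟨i, j, hij, h2 _ _ hm⟩

theorem wqo_of_famWQO (k : ℕ) (h : FamWQO k) : IsWQO {G : SimpleGraph ℕ | Rayless G} := by
  have key : ∀ k, ∃ c : SimpleGraph ℕ → Fam k, (∀ G, Rayless G → FamRayless k (c G)) ∧
      ∀ G H, FamLe k (c G) (c H) → IsMinor G H := by
    intro k
    induction k with
    | zero => exact ⟨fun G => G, fun _ h => h, fun _ _ h => h⟩
    | succ k ih =>
      obtain ⟨c, h1, h2⟩ := ih
      refine ⟨fun G _ => c G, fun G hG _ => h1 G hG, fun G H hGH => ?_⟩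
      obtain ⟨_, hl⟩ := hGH 0
      exact h2 _ _ hl
  intro g hg
  obtain ⟨c, h1, h2⟩ := key k
  obtain ⟨i, j, hij, hl⟩ := h (fun i => c (g i)) fun i => h1 _ (hg i)
  exact ⟨i, j, hij, h2 _ _ hl⟩

/-- Q1 is equivalent to the well-quasi-ordering of the `k`-fold families of rayless graphs, for
every single `k`. -/
theorem question_iff_fam (k : ℕ) : QuestionFor Set.univ ↔ FamWQO k := by
  have h15 : QuestionFor Set.univ ↔ IsWQO {G : SimpleGraph ℕ | Rayless G} := tfae_main.out 0 4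
  rw [h15]
  exact ⟨fun h => famWQO_of_wqo h k, wqo_of_famWQO k⟩

end Pool.Agent.Lib.MP_a45bfb_lc
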