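import Pool.Agent.Lib.MP_a45bfb_lc.FamDefs
import Pool.Agent.Lib.MP_a45bfb_lc.Multi

/-!
# Countable families over a quasi-order, by injective domination
-/

namespace Pool.Agent.Lib.MP_a45bfb_lc

open Ordinal Set

universe u

/-- If the countable families over `(Q, r)` are well-quasi-ordered by domination, then they are
also well-quasi-ordered by injective domination. -/
theorem families_wqo' {Q : Type u} {r : Q → Q → Prop} [IsPreorder Q r]
    (h : ∀ F : ℕ → ℕ → Q, ∃ i j, i < j ∧ ∀ k, ∃ l, r (F i k) (F j l))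
    (P : ℕ → Set ℕ) (γ : ℕ → ℕ → Q) :
    ∃ i j, i < j ∧ ∃ f : ℕ → ℕ, Set.InjOn f (P i) ∧
      ∀ x ∈ P i, f x ∈ P j ∧ r (γ i x) (γ j (f x)) := by
  classical
  have hw : WellQuasiOrdered r := by
    intro f
    obtain ⟨i, j, hij, hk⟩ := h (fun i _ => f i)
    obtain ⟨_, hl⟩ := hk 0
    exact ⟨i, j, hij, hl⟩
  let I : ℕ → Set Q := fun i => {a | ∀ N, ∃ x, N ≤ x ∧ x ∈ P i ∧ r a (γ i x)}
  have hI : ∀ i, ∀ a ∈ I i, ∀ b, r b a → b ∈ I i := by
    intro i a ha b hb N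
    obtain ⟨x, h1, h2, h3⟩ := ha N
    exact ⟨x, h1, h2, _root_.trans hb h3⟩
  have hE : ∀ i, {x ∈ P i | γ i x ∉ I i}.Finite := by
    intro i
    by_contra hinf
    have hinf' : {x ∈ P i | γ i x ∉ I i}.Infinite := hinf
    obtain ⟨g, hg⟩ := hw.exists_monotone_subseq
      (fun k => γ i (Nat.nth (fun x => x ∈ {x ∈ P i | γ i x ∉ I i}) k))
    have hmem : ∀ k, Nat.nth (fun x => x ∈ {x ∈ P i | γ i x ∉ I i}) k ∈
        {x ∈ P i | γ i x ∉ I i} := fun k => Nat.nth_mem_of_infinite hinf' k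
    have hmono : StrictMono (Nat.nth (fun x => x ∈ {x ∈ P i | γ i x ∉ I i})) :=
      Nat.nth_strictMono hinf'
    refine (hmem (g 0)).2 fun N => ⟨_, ?_, (hmem (g N)).1, hg 0 N (Nat.zero_le _)⟩
    exact le_trans (g.strictMono.le_apply (x := N)) (hmono.le_apply (x := g N))
  let L : ℕ → List ℕ := fun i => (hE i).toFinset.toList
  have hL : ∀ i x, x ∈ L i ↔ x ∈ P i ∧ γ i x ∉ I i := by
    intro i x
    simp [L]
  have hLn : ∀ i, (L i).Nodup := fun i => Finset.nodup_toList _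
  have hH := Set.PartiallyWellOrderedOn.partiallyWellOrderedOn_sublistForall₂ r
    (partiallyWellOrderedOn_univ_iff.2 hw)
  have hpre : IsPreorder (List Q) (List.SublistForall₂ r) := {}
  obtain ⟨g, hg⟩ := hH.exists_monotone_subseq (f := fun i => (L i).map (γ i))
    (fun _ _ _ => mem_univ _)
  obtain ⟨a, b, hab, hsub⟩ : ∃ a b, a < b ∧
      ∀ x ∈ P (g a), x ∉ L (g a) → γ (g a) x ∈ I (g b) := by
    by_cases hne : ∀ a, ∃ x ∈ P (g a), γ (g a) x ∈ I (g a)
    · choose d hd hd' using hne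
      obtain ⟨a, b, hab, hdom⟩ := h (fun a k =>
        if k ∈ P (g a) ∧ γ (g a) k ∈ I (g a) then γ (g a) k else γ (g a) (d a))
      refine ⟨a, b, hab, fun x hx hxL => ?_⟩
      have hxI : γ (g a) x ∈ I (g a) := by
        by_contra hno
        exact hxL ((hL _ _).2 ⟨hx, hno⟩)
      obtain ⟨l, hl⟩ := hdom x
      rw [if_pos ⟨hx, hxI⟩] at hl
      by_cases hc : l ∈ P (g b) ∧ γ (g b) l ∈ I (g b)
      · rw [if_pos hc] at hl
        exact hI _ _ hc.2 _ hl
      · rw [if_neg hc] at hl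
        exact hI _ _ (hd' b) _ hl
    · push Not at hne
      obtain ⟨a, ha⟩ := hne
      refine ⟨a, a + 1, Nat.lt_succ_self a, fun x hx hxL => ?_⟩
      exact absurd ((hL _ _).2 ⟨hx, ha x hx⟩) hxL
  refine ⟨g a, g b, g.strictMono hab, ?_⟩
  obtain ⟨φ, hφ, hφ'⟩ := exists_match (hLn _) (hLn _) (hg a b hab.le)
  obtain ⟨N, hN⟩ : ∃ N, ∀ x ∈ L (g a), φ x ≤ N :=
    ⟨(L (g a)).toFinset.sup φ, fun x hx => Finset.le_sup (f := φ) (List.mem_toFinset.2 hx)⟩
  have hs : ∀ x c : ℕ, ∃ y, c < y ∧ (x ∈ P (g a) → x ∉ L (g a) →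
      y ∈ P (g b) ∧ r (γ (g a) x) (γ (g b) y)) := by
    intro x c
    by_cases hx : x ∈ P (g a) ∧ x ∉ L (g a)
    · obtain ⟨y, h1, h2, h3⟩ := hsub x hx.1 hx.2 (c + 1)
      exact ⟨y, h1, fun _ _ => ⟨h2, h3⟩⟩
    · exact ⟨c + 1, Nat.lt_succ_self c, fun h1 h2 => absurd ⟨h1, h2⟩ hx⟩
  choose s hs1 hs2 using hs
  let G : ℕ → ℕ := fun n => Nat.rec (s 0 N) (fun x p => s (x + 1) p) n
  have hG0 : G 0 = s 0 N := rfl
  have hG1 : ∀ n, G (n + 1) = s (n + 1) (G n) := fun _ => rfl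
  have hGm : StrictMono G := strictMono_nat_of_lt_succ fun n => by
    rw [hG1]
    exact hs1 _ _
  have hGN : ∀ n, N < G n := fun n =>
    lt_of_lt_of_le (by rw [hG0]; exact hs1 _ _) (hGm.monotone (Nat.zero_le n))
  have hGp : ∀ x, x ∈ P (g a) → x ∉ L (g a) → G x ∈ P (g b) ∧ r (γ (g a) x) (γ (g b) (G x)) := by
    intro x h1 h2
    cases x with
    | zero => exact hs2 0 N h1 h2
    | succ n => exact hs2 (n + 1) (G n) h1 h2
  refine ⟨fun x => if x ∈ L (g a) then φ x else G x, ?_, ?_⟩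
  · intro x hx y hy hxy
    simp only at hxy
    by_cases h1 : x ∈ L (g a) <;> by_cases h2 : y ∈ L (g a)
    · rw [if_pos h1, if_pos h2] at hxy
      exact hφ h1 h2 hxy
    · rw [if_pos h1, if_neg h2] at hxy
      exact absurd hxy (by have := hN x h1; have := hGN y; omega)
    · rw [if_neg h1, if_pos h2] at hxy
      exact absurd hxy (by have := hN y h2; have := hGN x; omega)
    · rw [if_neg h1, if_neg h2] at hxy
      exact hGm.injective hxy
  · intro x hx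
    by_cases h1 : x ∈ L (g a)
    · simp only [if_pos h1]
      exact ⟨((hL _ _).1 (hφ' x h1).1).1, (hφ' x h1).2⟩
    · simp only [if_neg h1]
      exact hGp x hx h1

end Pool.Agent.Lib.MP_a45bfb_lc
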