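import Pool.Agent.Lib.MP_a45bfb_lc.ClassUp

/-!
# Rooted minors of finite pieces
-/

namespace Pool.Agent.Lib.MP_a45bfb_lc

open Ordinal Set

universe u

section
variable {n : ℕ} {V W X : Type u}

/-- The technical form of the rooted minor relation. -/
def RMinor (G : SimpleGraph V) (e : Fin n → V) (S : Set V) (H : SimpleGraph W)
    (e' : Fin n → W) (T : Set W) : Prop :=
  ∃ B : V → Set W,
    (∀ v ∈ S ∪ Set.range e, ConnectedOn H (B v)) ∧
    (∀ v ∈ S, B v ⊆ T) ∧ (∀ i, e' i ∈ B (e i) ∧ B (e i) ⊆ T ∪ {e' i}) ∧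
    (∀ u ∈ S ∪ Set.range e, ∀ v ∈ S ∪ Set.range e, u ≠ v → Disjoint (B u) (B v)) ∧
    ∀ u ∈ S, ∀ v ∈ S ∪ Set.range e, G.Adj u v → ∃ a ∈ B u, ∃ b ∈ B v, H.Adj a b

theorem RMinor.of_map {G : SimpleGraph V} {e : Fin n → V} {S : Set V} {H : SimpleGraph W}
    {e' : Fin n → W} {T : Set W} (f : V → W) (h1 : ∀ i, f (e i) = e' i)
    (h2 : Set.InjOn f (S ∪ Set.range e)) (h3 : ∀ v ∈ S, f v ∈ T)
    (h4 : ∀ u ∈ S, ∀ v ∈ S ∪ Set.range e, G.Adj u v → H.Adj (f u) (f v)) :
    RMinor G e S H e' T := by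
  refine ⟨fun v => {f v}, fun v _ => connectedOn_singleton _ _, ?_, ?_, ?_, ?_⟩
  · rintro v hv _ rfl
    exact h3 v hv
  · intro i
    refine ⟨(h1 i).symm, ?_⟩
    rintro _ rfl
    exact Or.inr (h1 i)
  · intro u hu v hv huv
    rw [Set.disjoint_singleton]
    exact fun h => huv (h2 hu hv h)
  · intro u hu v hv huv
    exact ⟨_, rfl, _, rfl, h4 u hu v hv huv⟩

theorem RMinor.reindex {G : SimpleGraph V} {e : Fin n → V} {S : Set V} {H : SimpleGraph W}
    {e' : Fin n → W} {T : Set W} (h : RMinor G e S H e' T) (σ : Equiv.Perm (Fin n)) :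
    RMinor G (e ∘ σ) S H (e' ∘ σ) T := by
  have hr : Set.range (e ∘ σ) = Set.range e := σ.surjective.range_comp e
  obtain ⟨B, h1, h2, h3, h4, h5⟩ := h
  refine ⟨B, ?_, h2, fun i => h3 (σ i), ?_, ?_⟩
  · rw [hr]; exact h1
  · rw [hr]; exact h4
  · rw [hr]; exact h5

theorem RMinor.trans {G : SimpleGraph V} {e : Fin n → V} {S : Set V} {H : SimpleGraph W}
    {e' : Fin n → W} {T : Set W} {K : SimpleGraph X} {e'' : Fin n → X} {U : Set X}
    (h1 : RMinor G e S H e' T) (h2 : RMinor H e' T K e'' U) : RMinor G e S K e'' U := by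
  obtain ⟨B, hB, hBS, hBe, hBd, hBa⟩ := h1
  obtain ⟨D, hD, hDS, hDe, hDd, hDa⟩ := h2
  have hBT : ∀ v ∈ S ∪ Set.range e, B v ⊆ T ∪ Set.range e' := by
    rintro v (hv | ⟨i, rfl⟩)
    · exact (hBS v hv).trans subset_union_left
    · refine (hBe i).2.trans (union_subset_union_right _ ?_)
      rintro _ rfl
      exact ⟨i, rfl⟩
  -- edges of `H` inside a branch set have an end in `T`
  have hend : ∀ v ∈ S ∪ Set.range e, ∀ p ∈ B v, ∀ q ∈ B v, H.Adj p q →
      ∃ s ∈ D p, ∃ t ∈ D q, K.Adj s t := by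
    intro v hv p hp q hq hpq
    by_cases hpT : p ∈ T
    · exact hDa p hpT q (hBT v hv hq) hpq
    · have hqT : q ∈ T := by
        rcases hv with hv | ⟨i, rfl⟩
        · exact hBS v hv hq
        · rcases (hBe i).2 hp with h | h
          · exact absurd h hpT
          · rcases (hBe i).2 hq with h' | h'
            · exact h'
            · rw [mem_singleton_iff.1 h, mem_singleton_iff.1 h'] at hpq
              exact absurd hpq (H.loopless.irrefl _)
      obtain ⟨t, ht, s, hs, hts⟩ := hDa q hqT p (hBT v hv hp) hpq.symm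
      exact ⟨s, hs, t, ht, hts.symm⟩
  refine ⟨fun v => ⋃ w ∈ B v, D w, ?_, ?_, ?_, ?_, ?_⟩
  · intro v hv
    refine ⟨?_, ?_⟩
    · obtain ⟨w, hw⟩ := (hB v hv).1
      obtain ⟨x, hx⟩ := (hD w (hBT v hv hw)).1
      exact ⟨x, mem_biUnion hw hx⟩
    · intro a ha b hb
      simp only [mem_iUnion, exists_prop] at ha hb
      obtain ⟨w, hw, haw⟩ := ha
      obtain ⟨w', hw', hbw'⟩ := hb
      have key : ∀ w', Conn H (B v) w w' → ∀ b ∈ D w', Conn K (⋃ w ∈ B v, D w) a b := by
        intro w' h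
        induction h with
        | refl =>
          intro b hb
          exact ((hD w (hBT v hv hw)).2 a haw b hb).mono (subset_biUnion_of_mem hw)
        | @tail p q _ hpq ih =>
          intro b hb
          obtain ⟨h1, hp, hq⟩ := hpq
          obtain ⟨s, hs, t, ht, hst⟩ := hend v hv p hp q hq h1
          have h3 : Conn K (⋃ w ∈ B v, D w) a t :=
            (ih s hs).tail hst (mem_biUnion hp hs) (mem_biUnion hq ht)
          exact h3.trans (((hD q (hBT v hv hq)).2 t ht b hb).mono (subset_biUnion_of_mem hq))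
      exact key w' ((hB v hv).2 w hw w' hw') b hbw'
  · intro v hv a ha
    simp only [mem_iUnion, exists_prop] at ha
    obtain ⟨w, hw, haw⟩ := ha
    exact hDS w (hBS v hv hw) haw
  · intro i
    refine ⟨mem_biUnion (hBe i).1 (hDe i).1, ?_⟩
    intro a ha
    simp only [mem_iUnion, exists_prop] at ha
    obtain ⟨w, hw, haw⟩ := ha
    rcases (hBe i).2 hw with h | h
    · exact Or.inl (hDS w h haw)
    · rw [mem_singleton_iff.1 h] at haw
      exact (hDe i).2 haw
  · intro u hu v hv huv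
    rw [Set.disjoint_left]
    intro a ha ha'
    simp only [mem_iUnion, exists_prop] at ha ha'
    obtain ⟨w, hw, haw⟩ := ha
    obtain ⟨w', hw', haw'⟩ := ha'
    have hne : w ≠ w' := by
      rintro rfl
      exact Set.disjoint_left.1 (hBd u hu v hv huv) hw hw'
    exact Set.disjoint_left.1 (hDd w (hBT u hu hw) w' (hBT v hv hw') hne) haw haw'
  · intro u hu v hv huv
    obtain ⟨p, hp, q, hq, hpq⟩ := hBa u hu v hv huv
    obtain ⟨s, hs, t, ht, hst⟩ := hDa p (hBS u hu hp) q (hBT v hv hq) hpq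
    exact ⟨s, mem_biUnion hp hs, t, mem_biUnion hq ht, hst⟩

end

variable {n : ℕ}

/-- The rooted minor relation twisted by a permutation of the roots. -/
def TMinor (σ : Equiv.Perm (Fin n)) (P Q : Piece n) : Prop :=
  RMinor P.1.2 Sum.inl (Set.range Sum.inr) Q.1.2 (Sum.inl ∘ σ) (Set.range Sum.inr)

theorem TMinor.comp {σ τ : Equiv.Perm (Fin n)} {P Q R : Piece n} (h1 : TMinor σ P Q)
    (h2 : TMinor τ Q R) : TMinor (τ * σ) P R :=
  RMinor.trans h1 (RMinor.reindex h2 σ)

theorem TMinor.refl (P : Piece n) : TMinor 1 P P :=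
  RMinor.of_map id (fun _ => rfl) (fun _ _ _ _ h => h) (fun _ h => h) fun _ _ _ _ h => h

theorem mem_all {m : ℕ} (v : Fin n ⊕ Fin m) :
    v ∈ Set.range (Sum.inr : Fin m → Fin n ⊕ Fin m) ∪ Set.range (Sum.inl : Fin n → Fin n ⊕ Fin m) := by
  cases v with
  | inl i => exact Or.inr ⟨i, rfl⟩
  | inr x => exact Or.inl ⟨x, rfl⟩

theorem tminor_one_iff {P Q : Piece n} : TMinor 1 P Q ↔ RootedMinor P Q := by
  constructor
  · rintro ⟨B, h1, h2, h3, h4, h5⟩
    exact ⟨B, fun v => h1 v (mem_all v), fun u v => h4 u (mem_all u) v (mem_all v),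
      fun i => (h3 i).1, fun x v hxv => h5 _ ⟨x, rfl⟩ v (mem_all v) hxv⟩
  · rintro ⟨B, h1, h2, h3, h4⟩
    refine ⟨B, fun v _ => h1 v, ?_, ?_, fun u _ v _ => h2 u v, ?_⟩
    · rintro _ ⟨x, rfl⟩ w hw
      cases w with
      | inl i => exact absurd hw (Set.disjoint_left.1 (h2 (Sum.inl i) (Sum.inr x) (by simp)) (h3 i))
      | inr y => exact ⟨y, rfl⟩
    · intro i
      refine ⟨h3 i, fun w hw => ?_⟩
      cases w with
      | inl j =>
        right
        by_cases hij : i = j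
        · subst hij
          rfl
        · exact absurd hw (Set.disjoint_left.1 (h2 (Sum.inl j) (Sum.inl i)
            (fun h => hij (Sum.inl.inj h).symm)) (h3 j))
      | inr y => exact Or.inl ⟨y, rfl⟩
    · rintro _ ⟨x, rfl⟩ v _ hxv
      exact h4 x v hxv

instance rootedMinor_preorder : IsPreorder (Piece n) RootedMinor where
  refl P := tminor_one_iff.1 (TMinor.refl P)
  trans P Q R h h' := by
    have := TMinor.comp (tminor_one_iff.2 h) (tminor_one_iff.2 h')
    rw [mul_one] at this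
    exact tminor_one_iff.1 this

theorem comp_connected (G : SimpleGraph ℕ) (T : Set ℕ) (x : ℕ) : ConnectedOn G (comp G T x) := by
  refine ⟨⟨x, Conn.refl _ _ _⟩, fun a ha b hb => ?_⟩
  exact Conn.trans (Conn.symm (conn_comp ha)) (conn_comp hb)

/-- The embedding of the vertices of a piece. -/
noncomputable def pemb (e : Fin n → ℕ) (s : Finset ℕ) : Fin n ⊕ Fin s.card → ℕ :=
  Sum.elim e (s.orderEmbOfFin rfl)

/-- The piece of `G` on the roots `e` and the finite connected set `s`. -/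
noncomputable def mkPiece (G : SimpleGraph ℕ) (e : Fin n → ℕ) (s : Finset ℕ)
    (hs : ConnectedOn G (s : Set ℕ)) : Piece n :=
  ⟨⟨s.card, G.comap (pemb e s)⟩, by
    have hex : ∀ v ∈ s, ∃ k : Fin s.card, s.orderEmbOfFin rfl k = v := by
      intro v hv
      have : v ∈ Set.range (s.orderEmbOfFin rfl) := by
        rw [Finset.range_orderEmbOfFin]
        exact hv
      exact this
    refine ⟨?_, ?_⟩
    · obtain ⟨v, hv⟩ := hs.1
      obtain ⟨k, _⟩ := hex v hv
      exact ⟨Sum.inr k, k, rfl⟩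
    · rintro _ ⟨x, rfl⟩ _ ⟨y, rfl⟩
      have key : ∀ b, Conn G (s : Set ℕ) (s.orderEmbOfFin rfl x) b →
          ∀ y : Fin s.card, s.orderEmbOfFin rfl y = b →
          Conn (G.comap (pemb e s)) (Set.range Sum.inr) (Sum.inr x) (Sum.inr y) := by
        intro b hb
        induction hb with
        | refl =>
          intro y hy
          rw [(s.orderEmbOfFin rfl).injective hy]
          exact Conn.refl _ _ _
        | @tail p q _ hpq ih =>
          intro y hy
          obtain ⟨h1, hp, hq⟩ := hpq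
          obtain ⟨k, hk⟩ := hex p hp
          refine (ih k hk).tail ?_ ⟨k, rfl⟩ ⟨y, rfl⟩
          show G.Adj (s.orderEmbOfFin rfl k) (s.orderEmbOfFin rfl y)
          rw [hk, hy]
          exact h1
      exact key _ (hs.2 _ (s.orderEmbOfFin_mem rfl x) _ (s.orderEmbOfFin_mem rfl y)) y rfl⟩

theorem pemb_inj {e : Fin n → ℕ} (he : Function.Injective e) {s : Finset ℕ}
    (hes : ∀ i, e i ∉ s) : Function.Injective (pemb e s) := by
  intro u v huv
  cases u with
  | inl i =>
    cases v with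
    | inl j => exact congrArg Sum.inl (he huv)
    | inr y =>
      exfalso
      have h : e i = s.orderEmbOfFin rfl y := huv
      exact hes i (h ▸ s.orderEmbOfFin_mem rfl y)
  | inr x =>
    cases v with
    | inl j =>
      exfalso
      have h : s.orderEmbOfFin rfl x = e j := huv
      exact hes j (h ▸ s.orderEmbOfFin_mem rfl x)
    | inr y => exact congrArg Sum.inr ((s.orderEmbOfFin rfl).injective huv)

theorem piece_down (G : SimpleGraph ℕ) {e : Fin n → ℕ} (he : Function.Injective e) (s : Finset ℕ)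
    (hs : ConnectedOn G (s : Set ℕ)) (hes : ∀ i, e i ∉ s) :
    RMinor (mkPiece G e s hs).1.2 Sum.inl (Set.range Sum.inr) G e (s : Set ℕ) := by
  refine RMinor.of_map (pemb e s) (fun _ => rfl) (pemb_inj he hes).injOn ?_ ?_
  · rintro _ ⟨x, rfl⟩
    exact s.orderEmbOfFin_mem rfl x
  · intro u _ v _ huv
    exact huv

theorem piece_up (G : SimpleGraph ℕ) {e : Fin n → ℕ} (he : Function.Injective e) (s : Finset ℕ)
    (hs : ConnectedOn G (s : Set ℕ)) (hes : ∀ i, e i ∉ s) :
    RMinor G e (s : Set ℕ) (mkPiece G e s hs).1.2 Sum.inl (Set.range Sum.inr) := by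
  obtain ⟨w0, -⟩ := (mkPiece G e s hs).2.1
  have hne : Nonempty (Fin n ⊕ Fin s.card) := ⟨w0⟩
  obtain ⟨g, hinv⟩ : ∃ g : ℕ → Fin n ⊕ Fin s.card, ∀ w, g (pemb e s w) = w :=
    ⟨Function.invFun (pemb e s), Function.leftInverse_invFun (pemb_inj he hes)⟩
  have hex : ∀ v ∈ (s : Set ℕ), ∃ k : Fin s.card, pemb e s (Sum.inr k) = v := by
    intro v hv
    have : v ∈ Set.range (s.orderEmbOfFin rfl) := by
      rw [Finset.range_orderEmbOfFin]
      exact hv
    exact this
  have hall : ∀ v ∈ (s : Set ℕ) ∪ Set.range e, ∃ w, pemb e s w = v := by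
    rintro v (hv | ⟨i, rfl⟩)
    · obtain ⟨k, hk⟩ := hex v hv
      exact ⟨_, hk⟩
    · exact ⟨Sum.inl i, rfl⟩
  refine RMinor.of_map g (fun i => hinv (Sum.inl i)) ?_ ?_ ?_
  · intro u hu v hv huv
    obtain ⟨a, rfl⟩ := hall u hu
    obtain ⟨b, rfl⟩ := hall v hv
    rw [hinv, hinv] at huv
    rw [huv]
  · intro v hv
    obtain ⟨k, rfl⟩ := hex v hv
    rw [hinv]
    exact ⟨k, rfl⟩
  · intro u hu v hv huv
    obtain ⟨a, rfl⟩ := hall u (Or.inl hu)
    obtain ⟨b, rfl⟩ := hall v hv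
    show G.Adj (pemb e s _) (pemb e s _)
    rw [hinv, hinv]
    exact huv

end Pool.Agent.Lib.MP_a45bfb_lc
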