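import Pool.Agent.Lib.MP_a45bfb_lc.FamOrder
import Pool.Agent.Lib.MP_a45bfb_lc.FamDown
import Pool.Agent.Lib.MP_a45bfb_lc.Rooted

/-!
# From families of graphs to graphs with many components
-/

namespace Pool.Agent.Lib.MP_a45bfb_lc

open Ordinal Set

/-- The graph on `ℕ` that agrees with `G` on `C` and has no other edges. -/
def restr (G : SimpleGraph ℕ) (C : Set ℕ) : SimpleGraph ℕ where
  Adj u v := G.Adj u v ∧ u ∈ C ∧ v ∈ C
  symm := ⟨fun _ _ h => ⟨h.1.symm, h.2.2, h.2.1⟩⟩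
  loopless := ⟨fun u h => G.loopless.irrefl u h.1⟩

theorem restr_conn {G : SimpleGraph ℕ} {C S : Set ℕ} {x y : ℕ} (hx : x ∈ C)
    (h : Conn (restr G C) S x y) : y ∈ C := by
  induction h with
  | refl => exact hx
  | tail _ hbc _ => exact hbc.1.2.2

theorem restr_conn' {G : SimpleGraph ℕ} {C S : Set ℕ} {x y : ℕ} (hx : x ∉ C)
    (h : Conn (restr G C) S x y) : y = x := by
  induction h with
  | refl => rfl
  | tail _ hbc ih =>
    rw [ih] at hbc
    exact absurd hbc.1.2.1 hx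

theorem restr_mono {G : SimpleGraph ℕ} {C S : Set ℕ} {x y : ℕ}
    (h : Conn (restr G C) S x y) : Conn G S x y := by
  induction h with
  | refl => exact Conn.refl _ _ _
  | tail _ hbc ih => exact ih.tail hbc.1.1 hbc.2.1 hbc.2.2

theorem R_restr {G : SimpleGraph ℕ} {C : Set ℕ} {δ : Ordinal.{0}} (hδ : 0 < δ) (h : R G δ C) :
    R (restr G C) δ Set.univ := by
  rw [R_iff] at h ⊢
  obtain ⟨F, hF⟩ := h
  refine ⟨F, fun y hy => ?_⟩
  by_cases hyC : y ∈ C
  · obtain ⟨β, hβ, hR⟩ := hF y ⟨hyC, hy.2⟩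
    refine ⟨β, hβ, R_minor β _ _ (MinorOn.of_map id (fun _ _ _ _ h => h) ?_ ?_) hR⟩
    · intro z hz
      induction hz with
      | refl => exact Conn.refl _ _ _
      | @tail b c _ hbc ih =>
        exact Conn.tail ih hbc.1.1 ⟨hbc.1.2.1, hbc.2.1.2⟩ ⟨hbc.1.2.2, hbc.2.2.2⟩
    · intro u _ v _ huv
      exact huv.1
  · refine ⟨0, hδ, R_of_finite ((finite_singleton y).subset fun z hz => ?_) _⟩
    exact restr_conn' hyC hz

theorem minorOn_of_restr {G H : SimpleGraph ℕ} {x y : ℕ}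
    (h : IsMinor (restr G (comp G Set.univ x)) (restr H (comp H Set.univ y))) :
    MinorOn G (comp G Set.univ x) H (comp H Set.univ y) := by
  by_cases hsing : ∀ v ∈ comp G Set.univ x, v = x
  · refine MinorOn.of_map (fun _ => y) ?_ (fun _ _ => Conn.refl _ _ _) ?_
    · intro u hu v hv _
      rw [hsing u hu, hsing v hv]
    · intro u hu v hv huv
      rw [hsing u hu, hsing v hv] at huv
      exact absurd huv (G.loopless.irrefl _)
  · push Not at hsing
    obtain ⟨v0, hv0, hv0x⟩ := hsing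
    obtain ⟨B, hB, hdis, hadj⟩ := h
    have hnb : ∀ v ∈ comp G Set.univ x, ∃ u ∈ comp G Set.univ x, G.Adj v u := by
      intro v hv
      obtain ⟨t, ht, hne⟩ : ∃ t ∈ comp G Set.univ x, t ≠ v := by
        by_cases hvx : v = x
        · exact ⟨v0, hv0, fun h => hv0x (h.trans hvx)⟩
        · exact ⟨x, Conn.refl _ _ _, fun h => hvx h.symm⟩
      obtain ⟨x', h1, _, h2, _⟩ := conn_start ((comp_connected G Set.univ x).2 v hv t ht) hne
      exact ⟨x', h2.1, h1⟩
    have hsub : ∀ v ∈ comp G Set.univ x, B v ⊆ comp H Set.univ y := by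
      intro v hv
      obtain ⟨u, hu, hvu⟩ := hnb v hv
      obtain ⟨a, ha, b, _, hab⟩ := hadj v u ⟨hvu, hv, hu⟩
      intro w hw
      exact restr_conn hab.2.1 ((hB v).2 a ha w hw)
    refine ⟨B, fun v hv => ⟨⟨(hB v).1, fun p hp q hq => restr_mono ((hB v).2 p hp q hq)⟩,
      hsub v hv⟩, fun u _ v _ => hdis u v, fun u hu v hv huv => ?_⟩
    obtain ⟨a, ha, b, hb, hab⟩ := hadj u v ⟨huv, hu, hv⟩
    exact ⟨a, ha, b, hb, hab.1⟩

theorem wqo_of_families {δ : Ordinal.{0}} (hδ : 1 ≤ δ) (h : FamiliesWQO (RankLE δ)) :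
    IsWQO (CompRankLE δ) := by
  intro G hG
  have hδ0 : 0 < δ := lt_of_lt_of_le zero_lt_one hδ
  have hpre : IsPreorder {G : SimpleGraph ℕ // G ∈ RankLE δ} (fun a b => IsMinor a.1 b.1) :=
    { refl := fun a => IsMinor.refl a.1
      trans := fun a b c h1 h2 => IsMinor.trans h1 h2 }
  have hfam : ∀ F : ℕ → ℕ → {G : SimpleGraph ℕ // G ∈ RankLE δ},
      ∃ i j, i < j ∧ ∀ k, ∃ l, IsMinor (F i k).1 (F j l).1 := fun F =>
    h (fun i k => (F i k).1) fun i k => (F i k).2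
  obtain ⟨i, j, hij, f, hf, hf'⟩ := families_wqo'
    (r := fun a b : {G : SimpleGraph ℕ // G ∈ RankLE δ} => IsMinor a.1 b.1) hfam
    (fun i => reps (G i)) (fun i x => ⟨restr (G i) (comp (G i) Set.univ x),
      mem_RankLE.2 (R_restr hδ0 (mem_CompRankLE.1 (hG i) x))⟩)
  exact ⟨i, j, hij, isMinor_of_comps (reps (G i)) (reps (G j)) (reps_cover _) (reps_unique _)
    (reps_unique _) f hf (fun x hx => (hf' x hx).1) fun x hx => minorOn_of_restr (hf' x hx).2⟩

theorem questionFor_comp_iff {δ : Ordinal.{0}} (h1 : 1 ≤ δ) (hδ : δ < ω₁) :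
    QuestionFor (CompRankLE δ) ↔ FamiliesWQO (RankLE δ) :=
  (questionFor_CompRankLE hδ).trans ⟨families_of_wqo, wqo_of_families h1⟩

theorem question_iff_families :
    QuestionFor Set.univ ↔ FamiliesWQO {G : SimpleGraph ℕ | Rayless G} := by
  have h15 : QuestionFor Set.univ ↔ IsWQO {G : SimpleGraph ℕ | Rayless G} := tfae_main.out 0 4
  rw [h15]
  constructor
  · intro h F hF
    have hex : ∀ p : ℕ × ℕ, ∃ α < ω₁, F p.1 p.2 ∈ Rank α := fun p =>
      (rayless_iff_rank (F p.1 p.2)).1 (hF p.1 p.2)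
    choose a ha hr using hex
    have hsup : ⨆ n, a n < ω₁ := Ordinal.iSup_lt_omega_one ha
    refine families_of_wqo (δ := ⨆ n, a n) ?_ F fun i k => ⟨a (i, k), Ordinal.le_iSup a (i, k),
      hr (i, k)⟩
    exact IsWQO.mono (fun G hG => rayless_of_mem (comp_sub_rankLE _ hG)) h
  · intro h g hg
    obtain ⟨i, j, hij, hk⟩ := h (fun i _ => g i) fun i _ => hg i
    obtain ⟨_, hl⟩ := hk 0
    exact ⟨i, j, hij, hl⟩

end Pool.Agent.Lib.MP_a45bfb_lc
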