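import Pool.Agent.Lib.MP_a45bfb_lc.Defs2

namespace Pool.Agent.Lib.MP_a45bfb_lc

open Ordinal Set

/-- The cone over a finite graph, together with infinitely many isolated vertices. -/
def code {n : ℕ} (F : SimpleGraph (Fin n)) : SimpleGraph ℕ where
  Adj a b := (a = 0 ∧ ∃ v : Fin n, b = v + 1) ∨ (b = 0 ∧ ∃ v : Fin n, a = v + 1) ∨
    ∃ u v : Fin n, a = u + 1 ∧ b = v + 1 ∧ F.Adj u v
  symm := ⟨by
    rintro a b (h | h | ⟨u, v, h1, h2, h3⟩)
    · exact Or.inr (Or.inl h)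
    · exact Or.inl h
    · exact Or.inr (Or.inr ⟨v, u, h2, h1, h3.symm⟩)⟩
  loopless := ⟨by
    rintro a (⟨rfl, v, h⟩ | ⟨rfl, v, h⟩ | ⟨u, v, h1, h2, h3⟩)
    · omega
    · omega
    · have : u = v := Fin.ext (by omega)
      exact F.loopless.irrefl _ (this ▸ h3)⟩

theorem code_le {n : ℕ} {F : SimpleGraph (Fin n)} {a b : ℕ} (h : (code F).Adj a b) :
    a ≤ n ∧ b ≤ n := by
  rcases h with ⟨rfl, v, rfl⟩ | ⟨rfl, v, rfl⟩ | ⟨u, v, rfl, rfl, _⟩ <;> omega

theorem code_rank {n : ℕ} (F : SimpleGraph (Fin n)) : code F ∈ RankLE 1 := by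
  rw [mem_RankLE, R_iff]
  refine ⟨Finset.range (n + 1), fun x hx => ⟨0, by simp, R_of_finite ?_ _⟩⟩
  refine (finite_singleton x).subset fun y hy => ?_
  have hxn : n < x := by
    have := hx.2
    simp only [Finset.coe_range, mem_Iio, not_lt] at this
    omega
  induction hy with
  | refl => rfl
  | tail _ hbc ih =>
    have hb := code_le hbc.1
    rw [mem_singleton_iff.1 ih] at hb
    omega

theorem conn_pull {n : ℕ} {F : SimpleGraph (Fin n)} {S : Set ℕ} (h0 : 0 ∉ S) {p : Fin n} {y : ℕ}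
    (h : Conn (code F) S (p + 1 : ℕ) y) :
    ∃ q : Fin n, y = q + 1 ∧ Conn F {w : Fin n | (w + 1 : ℕ) ∈ S} p q := by
  induction h with
  | refl => exact ⟨p, rfl, Conn.refl _ _ _⟩
  | @tail b c _ hbc ih =>
    obtain ⟨q, rfl, hq⟩ := ih
    obtain ⟨hadj, h1, h2⟩ := hbc
    rcases hadj with ⟨h, _⟩ | ⟨rfl, _⟩ | ⟨u, v, hu, rfl, huv⟩
    · omega
    · exact absurd h2 h0
    · have hqu : q = u := Fin.ext (by omega)
      subst hqu
      exact ⟨v, rfl, hq.tail huv h1 h2⟩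

theorem minor_of_code {n m : ℕ} {F : SimpleGraph (Fin n)} {H : SimpleGraph (Fin m)}
    (h : IsMinor (code F) (code H)) : IsMinor F H := by
  classical
  obtain ⟨B, hB, hdis, hadj⟩ := h
  -- the new branch sets
  let B' : Fin n → Set ℕ := fun v => if 0 ∈ B (v + 1) then B 0 else B (v + 1)
  have hne : ∀ v : Fin n, (0 : ℕ) ≠ v + 1 := fun v => by omega
  have h0 : ∀ v, 0 ∉ B' v := by
    intro v
    by_cases hv : 0 ∈ B (v + 1)
    · simp only [B', if_pos hv]
      exact fun h => Set.disjoint_left.1 (hdis 0 (v + 1) (hne v)) h hv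
    · simp only [B', if_neg hv]
      exact hv
  have hconn : ∀ v, ConnectedOn (code H) (B' v) := by
    intro v
    by_cases hv : 0 ∈ B (v + 1)
    · simp only [B', if_pos hv]
      exact hB 0
    · simp only [B', if_neg hv]
      exact hB _
  have hdis' : ∀ u v, u ≠ v → Disjoint (B' u) (B' v) := by
    intro u v huv
    have hne' : (u + 1 : ℕ) ≠ v + 1 := fun h => huv (Fin.ext (by omega))
    by_cases hu : 0 ∈ B (u + 1) <;> by_cases hv : 0 ∈ B (v + 1)
    · exact absurd hv (Set.disjoint_left.1 (hdis _ _ hne') hu)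
    · simp only [B', if_pos hu, if_neg hv]
      exact hdis _ _ (hne v)
    · simp only [B', if_neg hu, if_pos hv]
      exact hdis _ _ (hne u).symm
    · simp only [B', if_neg hu, if_neg hv]
      exact hdis _ _ hne'
  have hedge : ∀ u v, F.Adj u v → ∃ a ∈ B' u, ∃ b ∈ B' v, (code H).Adj a b := by
    intro u v huv
    have hne' : (u + 1 : ℕ) ≠ v + 1 := fun h => F.ne_of_adj huv (Fin.ext (by omega))
    by_cases hu : 0 ∈ B (u + 1) <;> by_cases hv : 0 ∈ B (v + 1)
    · exact absurd hv (Set.disjoint_left.1 (hdis _ _ hne') hu)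
    · simp only [B', if_pos hu, if_neg hv]
      exact hadj _ _ (Or.inl ⟨rfl, v, rfl⟩)
    · simp only [B', if_neg hu, if_pos hv]
      exact hadj _ _ (Or.inr (Or.inl ⟨rfl, u, rfl⟩))
    · simp only [B', if_neg hu, if_neg hv]
      exact hadj _ _ (Or.inr (Or.inr ⟨u, v, rfl, rfl, huv⟩))
  -- every branch set contains a vertex of `H`, and consists of vertices of `H`
  have hpos : ∀ v, ∃ p : Fin m, (p + 1 : ℕ) ∈ B' v := by
    intro v
    -- an edge of `code F` at the vertex in question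
    have hE : ∃ a ∈ B' v, ∃ b, (code H).Adj a b := by
      by_cases hv : 0 ∈ B (v + 1)
      · obtain ⟨a, ha, b, _, hab⟩ := hadj 0 (v + 1) (Or.inl ⟨rfl, v, rfl⟩)
        exact ⟨a, by simp only [B', if_pos hv]; exact ha, b, hab⟩
      · obtain ⟨a, ha, b, _, hab⟩ := hadj (v + 1) 0 (Or.inr (Or.inl ⟨rfl, v, rfl⟩))
        exact ⟨a, by simp only [B', if_neg hv]; exact ha, b, hab⟩
    obtain ⟨a, ha, b, hab⟩ := hE
    have ha0 : a ≠ 0 := fun h => h0 v (h ▸ ha)
    have han := (code_le hab).1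
    refine ⟨⟨a - 1, by omega⟩, ?_⟩
    simp only
    rwa [Nat.sub_add_cancel (Nat.one_le_iff_ne_zero.2 ha0)]
  refine ⟨fun v => {w : Fin m | (w + 1 : ℕ) ∈ B' v}, fun v => ⟨?_, ?_⟩, ?_, ?_⟩
  · obtain ⟨p, hp⟩ := hpos v
    exact ⟨p, hp⟩
  · intro x hx y hy
    obtain ⟨q, hq, hc⟩ := conn_pull (h0 v) ((hconn v).2 (x + 1) hx (y + 1) hy)
    have : y = q := Fin.ext (by omega)
    rw [this]
    exact hc
  · intro u v huv
    rw [Set.disjoint_left]
    intro w hw hw'
    exact Set.disjoint_left.1 (hdis' u v huv) hw hw'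
  · intro u v huv
    obtain ⟨a, ha, b, hb, hab⟩ := hedge u v huv
    rcases hab with ⟨rfl, _⟩ | ⟨rfl, _⟩ | ⟨p, q, rfl, rfl, hpq⟩
    · exact absurd ha (h0 u)
    · exact absurd hb (h0 v)
    · exact ⟨p, ha, q, hb, hpq⟩

theorem gmt_of_wqo (h : IsWQO (RankLE 1)) : GraphMinorTheorem := by
  intro n g
  obtain ⟨i, j, hij, hm⟩ := h (fun k => code (g k)) fun k => code_rank (g k)
  exact ⟨i, j, hij, minor_of_code hm⟩

end Pool.Agent.Lib.MP_a45bfb_lc
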