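import Pool.Agent.Lib.MP_a45bfb_lc.HGDefs
import Pool.Agent.Lib.MP_a45bfb_lc.FamIter

/-!
# A connected code for sequences of connected graphs
-/

namespace Pool.Agent.Lib.MP_a45bfb_lc

open Ordinal Set

/-- Infinitely many copies of each `f m`, with a new vertex joined to the vertex `0` of each copy. -/
def CG (f : ℕ → SimpleGraph ℕ) : SimpleGraph (Option (ℕ × ℕ × ℕ)) where
  Adj s t := (∃ m c, s = none ∧ t = some (m, c, 0)) ∨ (∃ m c, t = none ∧ s = some (m, c, 0)) ∨
    ∃ m c x y, s = some (m, c, x) ∧ t = some (m, c, y) ∧ (f m).Adj x y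
  symm := ⟨by
    rintro s t (⟨m, c, h1, h2⟩ | ⟨m, c, h1, h2⟩ | ⟨m, c, x, y, h1, h2, h3⟩)
    · exact Or.inr (Or.inl ⟨m, c, h1, h2⟩)
    · exact Or.inl ⟨m, c, h1, h2⟩
    · exact Or.inr (Or.inr ⟨m, c, y, x, h2, h1, h3.symm⟩)⟩
  loopless := ⟨by
    rintro s (⟨m, c, h1, h2⟩ | ⟨m, c, h1, h2⟩ | ⟨m, c, x, y, h1, h2, h3⟩)
    · rw [h1] at h2
      exact absurd h2 (by simp)
    · rw [h1] at h2
      exact absurd h2 (by simp)
    · rw [h1] at h2
      simp only [Option.some.injEq, Prod.mk.injEq, true_and] at h2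
      rw [h2] at h3
      exact (f m).loopless.irrefl _ h3⟩

theorem CG_inv {f : ℕ → SimpleGraph ℕ} {m c x : ℕ} {t : Option (ℕ × ℕ × ℕ)}
    (h : (CG f).Adj (some (m, c, x)) t) :
    (x = 0 ∧ t = none) ∨ ∃ y, t = some (m, c, y) ∧ (f m).Adj x y := by
  rcases h with ⟨m', c', h1, h2⟩ | ⟨m', c', h1, h2⟩ | ⟨m', c', x', y', h1, h2, h3⟩
  · exact absurd h1 (by simp)
  · simp only [Option.some.injEq, Prod.mk.injEq] at h2
    exact Or.inl ⟨h2.2.2, h1⟩
  · simp only [Option.some.injEq, Prod.mk.injEq] at h1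
    obtain ⟨rfl, rfl, rfl⟩ := h1
    exact Or.inr ⟨y', h2, h3⟩

theorem CG_adj {f : ℕ → SimpleGraph ℕ} {m x y : ℕ} (c : ℕ) (h : (f m).Adj x y) :
    (CG f).Adj (some (m, c, x)) (some (m, c, y)) := Or.inr (Or.inr ⟨m, c, x, y, rfl, rfl, h⟩)

/-- Connected inside a set that avoids the apex: we stay in one copy. -/
theorem CG_pull {f : ℕ → SimpleGraph ℕ} {S : Set (Option (ℕ × ℕ × ℕ))} (h0 : none ∉ S)
    {m c x : ℕ} {t : Option (ℕ × ℕ × ℕ)} (h : Conn (CG f) S (some (m, c, x)) t) :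
    ∃ y, t = some (m, c, y) ∧ Conn (f m) {z | some (m, c, z) ∈ S} x y := by
  induction h with
  | refl => exact ⟨x, rfl, Conn.refl _ _ _⟩
  | @tail b t _ hbt ih =>
    obtain ⟨y, rfl, hy⟩ := ih
    obtain ⟨h1, h2, h3⟩ := hbt
    rcases CG_inv h1 with ⟨_, rfl⟩ | ⟨z, rfl, hz⟩
    · exact absurd h3 h0
    · exact ⟨z, rfl, hy.tail hz h2 h3⟩

/-- A path of a set to the apex leaves its copy through the vertex `0`. -/
theorem CG_pull_apex {f : ℕ → SimpleGraph ℕ} {S : Set (Option (ℕ × ℕ × ℕ))} {m c : ℕ}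
    {s : Option (ℕ × ℕ × ℕ)} (h : Conn (CG f) S s none) :
    ∀ x, s = some (m, c, x) → Conn (f m) {z | some (m, c, z) ∈ S} x 0 ∧
      (some (m, c, x) ∈ S → some (m, c, 0) ∈ S) := by
  induction h using Relation.ReflTransGen.head_induction_on with
  | refl => exact fun x hx => absurd hx (by simp)
  | @head s s' hss' _ ih =>
    rintro x rfl
    obtain ⟨h1, h2, h3⟩ := hss'
    rcases CG_inv h1 with ⟨rfl, _⟩ | ⟨z, rfl, hz⟩
    · exact ⟨Conn.refl _ _ _, fun h => h⟩
    · obtain ⟨h4, h5⟩ := ih z rfl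
      exact ⟨Conn.trans (Conn.tail (Conn.refl _ _ _) hz h2 h3) h4, fun _ => h5 h3⟩

/-- The graph is connected. -/
def Connd {V : Type} (G : SimpleGraph V) : Prop := ∀ x y, Conn G Set.univ x y

/-- The graph is connected after the deletion of any vertex, and every vertex has two
neighbours. -/
def TwoConn {V : Type} (G : SimpleGraph V) : Prop :=
  (∀ v u w, u ≠ v → w ≠ v → Conn G {v}ᶜ u w) ∧
  ∀ v, ∃ u1 u2, u1 ≠ u2 ∧ G.Adj v u1 ∧ G.Adj v u2

theorem CG_connd {f : ℕ → SimpleGraph ℕ} (hf : ∀ m, Connd (f m)) : Connd (CG f) := by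
  have h1 : ∀ s, Conn (CG f) Set.univ none s := by
    intro s
    rcases s with _ | ⟨m, c, x⟩
    · exact Conn.refl _ _ _
    · have h0 : Conn (CG f) Set.univ none (some (m, c, 0)) :=
        Conn.tail (Conn.refl _ _ _) (Or.inl ⟨m, c, rfl, rfl⟩) trivial trivial
      refine h0.trans ?_
      have := hf m 0 x
      induction this with
      | refl => exact Conn.refl _ _ _
      | @tail b c' _ hbc ih => exact Conn.tail ih (CG_adj c hbc.1) trivial trivial
  exact fun x y => (h1 x).symm.trans (h1 y)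

theorem CG_dom {f g : ℕ → SimpleGraph ℕ} (hf : ∀ m, Connd (f m)) (h : IsMinor (CG f) (CG g))
    (m : ℕ) : ∃ n, IsMinor (f m) (g n) := by
  obtain ⟨B, hB, hdis, hadj⟩ := h
  obtain ⟨c, hc⟩ : ∃ c, ∀ x, none ∉ B (some (m, c, x)) := by
    by_cases hex : ∃ x, none ∈ B (some (m, 0, x))
    · obtain ⟨x0, hx0⟩ := hex
      refine ⟨1, fun x hx => ?_⟩
      exact Set.disjoint_left.1 (hdis (some (m, 0, x0)) (some (m, 1, x)) (by simp)) hx0 hx
    · push Not at hex
      exact ⟨0, hex⟩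
  obtain ⟨t0, ht0⟩ := (hB (some (m, c, 0))).1
  rcases t0 with _ | ⟨n, d, y0⟩
  · exact absurd ht0 (hc 0)
  have hblock : ∀ x, ∀ t ∈ B (some (m, c, x)), ∃ y, t = some (n, d, y) := by
    intro x
    have hx := hf m 0 x
    induction hx with
    | refl => exact fun t ht => (CG_pull (hc 0) ((hB _).2 _ ht0 t ht)).imp fun _ h => h.1
    | @tail p q _ hpq ih =>
      intro t ht
      obtain ⟨a, ha, b, hb, hab⟩ := hadj _ _ (CG_adj (f := f) c hpq.1)
      obtain ⟨y, rfl⟩ := ih a ha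
      rcases CG_inv hab with ⟨_, rfl⟩ | ⟨z, rfl, _⟩
      · exact absurd hb (hc q)
      · exact (CG_pull (hc q) ((hB _).2 _ hb t ht)).imp fun _ h => h.1
  refine ⟨n, fun x => {y | some (n, d, y) ∈ B (some (m, c, x))}, ?_, ?_, ?_⟩
  · intro x
    refine ⟨?_, ?_⟩
    · obtain ⟨t, ht⟩ := (hB (some (m, c, x))).1
      obtain ⟨y, rfl⟩ := hblock x t ht
      exact ⟨y, ht⟩
    · intro y hy y' hy'
      obtain ⟨z, hz, hconn⟩ := CG_pull (hc x) ((hB _).2 _ hy _ hy')
      simp only [Option.some.injEq, Prod.mk.injEq, true_and] at hz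
      rw [hz]
      exact hconn
  · intro x x' hxx'
    rw [Set.disjoint_left]
    intro y hy hy'
    exact Set.disjoint_left.1 (hdis (some (m, c, x)) (some (m, c, x')) (by simpa using hxx'))
      hy hy'
  · intro x x' hxx'
    obtain ⟨a, ha, b, hb, hab⟩ := hadj _ _ (CG_adj (f := f) c hxx')
    obtain ⟨y, rfl⟩ := hblock x a ha
    rcases CG_inv hab with ⟨_, rfl⟩ | ⟨z, rfl, hz⟩
    · exact absurd hb (hc x')
    · exact ⟨y, ha, z, hb, hz⟩

theorem CG_two {L : SimpleGraph ℕ} (hL : TwoConn L) {g : ℕ → SimpleGraph ℕ}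
    (h : IsMinor L (CG g)) : ∃ n, IsMinor L (g n) := by
  classical
  obtain ⟨B, hB, hdis, hadj⟩ := h
  -- a vertex `v` such that all other branch sets avoid the apex
  obtain ⟨v, hv⟩ : ∃ v, ∀ u, u ≠ v → none ∉ B u := by
    by_cases hex : ∃ v, none ∈ B v
    · obtain ⟨v, hv⟩ := hex
      exact ⟨v, fun u hu hn => Set.disjoint_left.1 (hdis u v hu) hn hv⟩
    · push Not at hex
      exact ⟨0, fun u _ => hex u⟩
  -- the copy
  obtain ⟨u0, hu0⟩ : ∃ u0, u0 ≠ v := ⟨v + 1, by omega⟩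
  obtain ⟨t0, ht0⟩ := (hB u0).1
  rcases t0 with _ | ⟨n, d, y0⟩
  · exact absurd ht0 (hv u0 hu0)
  have hblock : ∀ u, u ≠ v → ∀ t ∈ B u, ∃ y, t = some (n, d, y) := by
    intro u hu
    have hc := hL.1 v u0 u hu0 hu
    induction hc with
    | refl => exact fun t ht => (CG_pull (hv u0 hu0) ((hB _).2 _ ht0 t ht)).imp fun _ h => h.1
    | @tail p q _ hpq ih =>
      intro t ht
      obtain ⟨h1, hp, hq⟩ := hpq
      obtain ⟨a, ha, b, hb, hab⟩ := hadj _ _ h1
      obtain ⟨y, rfl⟩ := ih hp a ha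
      rcases CG_inv hab with ⟨_, rfl⟩ | ⟨z, rfl, _⟩
      · exact absurd hb (hv q hu)
      · exact (CG_pull (hv q hu) ((hB _).2 _ hb t ht)).imp fun _ h => h.1
  by_cases hnone : none ∈ B v
  · -- the set of `v` passes through the apex
    have hS : ∀ y, some (n, d, y) ∈ B v →
        Conn (g n) {z | some (n, d, z) ∈ B v} y 0 ∧ some (n, d, 0) ∈ B v := by
      intro y hy
      have := CG_pull_apex ((hB v).2 _ hy none hnone) y rfl
      exact ⟨this.1, this.2 hy⟩
    have hroot : some (n, d, 0) ∈ B v := by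
      by_contra hno
      obtain ⟨u1, u2, h12, hu1, hu2⟩ := hL.2 v
      have hin : ∀ u, L.Adj v u → some (n, d, 0) ∈ B u := by
        intro u hvu
        have huv : u ≠ v := fun h => L.loopless.irrefl v (h ▸ hvu)
        obtain ⟨a, ha, b, hb, hab⟩ := hadj v u hvu
        obtain ⟨y, rfl⟩ := hblock u huv b hb
        rcases CG_inv hab.symm with ⟨rfl, _⟩ | ⟨z, rfl, _⟩
        · exact hb
        · exact absurd (hS z ha).2 hno
      exact Set.disjoint_left.1 (hdis u1 u2 h12) (hin u1 hu1) (hin u2 hu2)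
    refine ⟨n, fun u => {y | some (n, d, y) ∈ B u}, ?_, ?_, ?_⟩
    · intro u
      by_cases huv : u = v
      · subst huv
        exact ⟨⟨0, hroot⟩, fun y hy y' hy' => Conn.trans (hS y hy).1 (Conn.symm (hS y' hy').1)⟩
      · refine ⟨?_, ?_⟩
        · obtain ⟨t, ht⟩ := (hB u).1
          obtain ⟨y, rfl⟩ := hblock u huv t ht
          exact ⟨y, ht⟩
        · intro y hy y' hy'
          obtain ⟨z, hz, hconn⟩ := CG_pull (hv u huv) ((hB _).2 _ hy _ hy')
          simp only [Option.some.injEq, Prod.mk.injEq, true_and] at hz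
          rw [hz]
          exact hconn
    · intro x x' hxx'
      rw [Set.disjoint_left]
      intro y hy hy'
      exact Set.disjoint_left.1 (hdis x x' hxx') hy hy'
    · have key : ∀ u w, L.Adj u w → u ≠ v → ∃ a ∈ {y | some (n, d, y) ∈ B u},
          ∃ b ∈ {y | some (n, d, y) ∈ B w}, (g n).Adj a b := by
        intro u w huw huv
        obtain ⟨a, ha, b, hb, hab⟩ := hadj u w huw
        obtain ⟨y, rfl⟩ := hblock u huv a ha
        rcases CG_inv hab with ⟨rfl, rfl⟩ | ⟨z, rfl, hz⟩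
        · exact absurd hroot (Set.disjoint_left.1 (hdis u v huv) ha)
        · exact ⟨y, ha, z, hb, hz⟩
      intro u w huw
      by_cases huv : u = v
      · have hwv : w ≠ v := fun h => L.loopless.irrefl v (by rw [huv, h] at huw; exact huw)
        obtain ⟨a, ha, b, hb, hab⟩ := key w u huw.symm hwv
        exact ⟨b, hb, a, ha, hab.symm⟩
      · exact key u w huw huv
  · -- no branch set contains the apex
    have hall : ∀ u, none ∉ B u := by
      intro u
      by_cases huv : u = v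
      · rw [huv]; exact hnone
      · exact hv u huv
    have hblock' : ∀ u, ∀ t ∈ B u, ∃ y, t = some (n, d, y) := by
      intro u
      by_cases huv : u = v
      · intro t ht
        obtain ⟨u1, _, _, hu1, _⟩ := hL.2 v
        have hu1v : u1 ≠ v := fun h => L.loopless.irrefl v (h ▸ hu1)
        obtain ⟨a, ha, b, hb, hab⟩ := hadj u1 v hu1.symm
        obtain ⟨y, rfl⟩ := hblock u1 hu1v a ha
        rcases CG_inv hab with ⟨_, rfl⟩ | ⟨z, rfl, _⟩
        · exact absurd hb hnone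
        · rw [huv] at ht
          exact (CG_pull hnone ((hB _).2 _ hb t ht)).imp fun _ h => h.1
      · exact hblock u huv
    refine ⟨n, fun u => {y | some (n, d, y) ∈ B u}, ?_, ?_, ?_⟩
    · intro u
      refine ⟨?_, ?_⟩
      · obtain ⟨t, ht⟩ := (hB u).1
        obtain ⟨y, rfl⟩ := hblock' u t ht
        exact ⟨y, ht⟩
      · intro y hy y' hy'
        obtain ⟨z, hz, hconn⟩ := CG_pull (hall u) ((hB _).2 _ hy _ hy')
        simp only [Option.some.injEq, Prod.mk.injEq, true_and] at hz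
        rw [hz]
        exact hconn
    · intro x x' hxx'
      rw [Set.disjoint_left]
      intro y hy hy'
      exact Set.disjoint_left.1 (hdis x x' hxx') hy hy'
    · intro u w huw
      obtain ⟨a, ha, b, hb, hab⟩ := hadj u w huw
      obtain ⟨y, rfl⟩ := hblock' u a ha
      rcases CG_inv hab with ⟨_, rfl⟩ | ⟨z, rfl, hz⟩
      · exact absurd hb (hall w)
      · exact ⟨y, ha, z, hb, hz⟩

theorem CG_rayless {f : ℕ → SimpleGraph ℕ} {δ : Ordinal.{0}}
    (hf : ∀ m, R (f m) δ Set.univ) : R (CG f) (δ + 1) Set.univ := by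
  rw [R_iff]
  refine ⟨{none}, ?_⟩
  rintro s ⟨_, hs⟩
  rcases s with _ | ⟨m, c, x⟩
  · exfalso
    simp at hs
  refine ⟨δ, lt_add_one δ, ?_⟩
  have h0 : (none : Option (ℕ × ℕ × ℕ)) ∉ (Set.univ \ (({none} : Finset (Option (ℕ × ℕ × ℕ))) :
      Set (Option (ℕ × ℕ × ℕ)))) := by simp
  have hmem : ∀ t ∈ comp (CG f) (Set.univ \ (({none} : Finset (Option (ℕ × ℕ × ℕ))) :
      Set (Option (ℕ × ℕ × ℕ)))) (some (m, c, x)), ∃ y, t = some (m, c, y) := fun t ht =>
    (CG_pull h0 ht).imp fun _ h => h.1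
  refine R_minor δ _ _ (MinorOn.of_map (H := f m) (T := Set.univ)
    (fun t => match t with | none => 0 | some p => p.2.2) ?_ (fun _ _ => trivial) ?_) (hf m)
  · intro p hp q hq hpq
    obtain ⟨y, rfl⟩ := hmem p hp
    obtain ⟨z, rfl⟩ := hmem q hq
    simp only at hpq
    rw [hpq]
  · intro p hp q hq hpq
    obtain ⟨y, rfl⟩ := hmem p hp
    obtain ⟨z, rfl⟩ := hmem q hq
    rcases CG_inv hpq with ⟨_, h⟩ | ⟨w, hw, hyw⟩
    · exact absurd h (by simp)
    · simp only [Option.some.injEq, Prod.mk.injEq, true_and] at hw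
      simp only
      rw [hw]
      exact hyw

end Pool.Agent.Lib.MP_a45bfb_lc
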