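import Pool.Agent.Lib.MP_a45bfb_lc.FamDefs
import Pool.Agent.Lib.MP_a45bfb_lc.Defs2

/-!
# Hereditarily countable families over a quasi-order
-/

namespace Pool.Agent.Lib.MP_a45bfb_lc

open Ordinal Set

/-- The hereditarily countable families over `Q`: a member of `Q`, or a sequence of families. -/
inductive HFam (Q : Type) : Type
  | leaf : Q → HFam Q
  | node : (ℕ → HFam Q) → HFam Q

/-- All members of `Q` used by the family satisfy `P`. -/
def HAll {Q : Type} (P : Q → Prop) : HFam Q → Prop
  | HFam.leaf a => P a
  | HFam.node f => ∀ m : ℕ, HAll P (f m)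

/-- `a` is below the family `y`: `r a b` if `y` is the member `b` of `Q`, and `a` is below some
member of `y` otherwise. -/
def HLeafLe {Q : Type} (r : Q → Q → Prop) (a : Q) : HFam Q → Prop
  | HFam.leaf b => r a b
  | HFam.node g => ∃ n : ℕ, HLeafLe r a (g n)

/-- The quasi-order of the hereditary families over `(Q, r)`: between members of `Q` it is `r`, a
member of `Q` is below a sequence if it is below some member of it, a sequence is below a member of
`Q` if all its members are, and a sequence is below a sequence if every member of the first is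
below some member of the second. -/
def HLe {Q : Type} (r : Q → Q → Prop) : HFam Q → HFam Q → Prop
  | HFam.leaf a, y => HLeafLe r a y
  | HFam.node f, HFam.leaf b => ∀ m : ℕ, HLe r (f m) (HFam.leaf b)
  | HFam.node f, HFam.node g => ∀ m : ℕ, ∃ n : ℕ, HLe r (f m) (g n)

/-- The hereditarily countable families over `{a : Q | P a}` are well-quasi-ordered. -/
def HWQO {Q : Type} (r : Q → Q → Prop) (P : Q → Prop) : Prop :=
  ∀ F : ℕ → HFam Q, (∀ i, HAll P (F i)) → ∃ i j, i < j ∧ HLe r (F i) (F j)

/-- The hereditarily countable families of rayless graphs on `ℕ` are well-quasi-ordered. -/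
def RaylessHWQO : Prop :=
  HWQO (Q := SimpleGraph ℕ) (fun G H => IsMinor G H) (fun G => Rayless G)

/-- The hereditarily countable families of finite graphs are well-quasi-ordered. -/
def FiniteHWQO : Prop :=
  HWQO (Q := FinGraph) (fun F H => IsMinor F.2 H.2) (fun _ => True)

end Pool.Agent.Lib.MP_a45bfb_lc
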