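import Pool.Agent.Lib.MP_a45bfb_lc.HGCode
import Pool.Agent.Lib.MP_a45bfb_lc.Finite

/-!
# Q1 and the hereditarily countable families of rayless graphs
-/

namespace Pool.Agent.Lib.MP_a45bfb_lc

open Ordinal Set

theorem cone_connd (G : SimpleGraph ℕ) : Connd (cone G) := by
  have h1 : ∀ x, Conn (cone G) Set.univ 0 x := by
    intro x
    rcases Nat.eq_zero_or_pos x with rfl | hx
    · exact Conn.refl _ _ _
    · exact Conn.tail (Conn.refl _ _ _) (Or.inl ⟨rfl, by omega⟩) trivial trivial
  exact fun x y => (h1 x).symm.trans (h1 y)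

theorem cone_cone_two (G : SimpleGraph ℕ) : TwoConn (cone (cone G)) := by
  have h0 : ∀ x, x ≠ 0 → (cone (cone G)).Adj 0 x := fun x hx => Or.inl ⟨rfl, hx⟩
  have h1 : ∀ x, 2 ≤ x → (cone (cone G)).Adj 1 x := fun x hx =>
    Or.inr (Or.inr ⟨0, x - 1, rfl, by omega, Or.inl ⟨rfl, by omega⟩⟩)
  refine ⟨?_, ?_⟩
  · intro v u w hu hw
    by_cases hv : v = 0
    · subst hv
      have hbase : ∀ x, x ≠ 0 → Conn (cone (cone G)) {0}ᶜ 1 x := by
        intro x hx
        by_cases hx1 : x = 1
        · rw [hx1]
          exact Conn.refl _ _ _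
        · exact Conn.tail (Conn.refl _ _ _) (h1 x (by omega)) (by simp) (by simpa using hx)
      exact (hbase u hu).symm.trans (hbase w hw)
    · have hbase : ∀ x, x ≠ v → Conn (cone (cone G)) {v}ᶜ 0 x := by
        intro x hx
        by_cases hx1 : x = 0
        · rw [hx1]
          exact Conn.refl _ _ _
        · refine Conn.tail (Conn.refl _ _ _) (h0 x hx1) ?_ (by simpa using hx)
          simp only [mem_compl_iff, mem_singleton_iff]
          exact fun h => hv h.symm
      exact (hbase u hu).symm.trans (hbase w hw)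
  · intro v
    rcases Nat.lt_or_ge v 2 with hv | hv
    · by_cases hv0 : v = 0
      · subst hv0
        exact ⟨1, 2, by omega, h0 1 (by omega), h0 2 (by omega)⟩
      · have hv1 : v = 1 := by omega
        subst hv1
        exact ⟨0, 2, by omega, (h0 1 (by omega)).symm, h1 2 le_rfl⟩
    · exact ⟨0, 1, by omega, (h0 v (by omega)).symm, (h1 v hv).symm⟩

theorem rayless_R_iff (G : SimpleGraph ℕ) : Rayless G ↔ ∃ α < ω₁, R G α Set.univ := by
  constructor
  · intro h
    exact rayless_R ((rayless_iff G).1 h)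
  · rintro ⟨α, _, h⟩
    exact (rayless_iff G).2 (R_rayless α _ h)

theorem cone_rayless {G : SimpleGraph ℕ} (h : Rayless G) : Rayless (cone G) := by
  obtain ⟨α, hα, hR⟩ := (rayless_R_iff G).1 h
  refine (rayless_R_iff _).2 ⟨α, hα, R_minor α _ _ (MinorOn.of_map (fun x => ((0 : ℕ), x)) ?_ ?_ ?_)
    (R_UU (f := fun _ => G) (k := 0) hR)⟩
  · intro x _ y _ hxy
    exact congrArg Prod.snd hxy
  · intro x _
    rfl
  · intro x _ y _ hxy
    exact ⟨rfl, hxy⟩

theorem exists_HFcode : ∃ Code : (ℕ → SimpleGraph ℕ) → SimpleGraph ℕ,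
    (∀ f, (∀ m, Rayless (f m)) → Rayless (Code f)) ∧
    (∀ f, (∀ m, Connd (f m)) → Connd (Code f)) ∧
    (∀ f g, (∀ m, Connd (f m)) → IsMinor (Code f) (Code g) → ∀ m, ∃ n, IsMinor (f m) (g n)) ∧
    (∀ (L : SimpleGraph ℕ) (g : ℕ → SimpleGraph ℕ), TwoConn L → IsMinor L (Code g) →
      ∃ n, IsMinor L (g n)) ∧
    ∀ f m, IsMinor (f m) (Code f) := by
  obtain ⟨e⟩ : Nonempty (ℕ ≃ Option (ℕ × ℕ × ℕ)) := nonempty_equiv_of_countable
  have hdown : ∀ f, IsMinor ((CG f).comap e) (CG f) := fun f =>
    isMinor_iff.2 (MinorOn.of_map e e.injective.injOn (fun _ _ => trivial) fun _ _ _ _ h => h)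
  have hup : ∀ f, IsMinor (CG f) ((CG f).comap e) := fun f =>
    isMinor_iff.2 (MinorOn.of_map e.symm e.symm.injective.injOn (fun _ _ => trivial)
      fun u _ v _ h => by
        simp only [SimpleGraph.comap_adj, Equiv.apply_symm_apply]
        exact h)
  refine ⟨fun f => (CG f).comap e, ?_, ?_, ?_, ?_, ?_⟩
  · intro f hf
    have hex : ∀ m, ∃ α < ω₁, R (f m) α Set.univ := fun m => (rayless_R_iff (f m)).1 (hf m)
    choose a ha hr using hex
    have hsup : ⨆ m, a m < ω₁ := Ordinal.iSup_lt_omega_one ha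
    have hlim : (⨆ m, a m) + 1 < ω₁ := (Cardinal.isSuccLimit_omega 1).add_one_lt hsup
    refine (rayless_R_iff _).2 ⟨_, hlim, R_minor _ _ _ (isMinor_iff.1 (hdown f)) ?_⟩
    exact CG_rayless fun m => R_mono (Ordinal.le_iSup a m) (hr m)
  · intro f hf x y
    have h1 := CG_connd hf (e x) (e y)
    have key : ∀ t, Conn (CG f) Set.univ (e x) t →
        Conn ((CG f).comap e) Set.univ x (e.symm t) := by
      intro t ht
      induction ht with
      | refl =>
        rw [Equiv.symm_apply_apply]
        exact Conn.refl _ _ _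
      | @tail b c _ hbc ih =>
        refine Conn.tail ih ?_ trivial trivial
        simp only [SimpleGraph.comap_adj, Equiv.apply_symm_apply]
        exact hbc.1
    have h2 := key _ h1
    rwa [Equiv.symm_apply_apply] at h2
  · intro f g hf h
    exact CG_dom hf (((hup f).trans h).trans (hdown g))
  · intro L g hL h
    exact CG_two hL (h.trans (hdown g))
  · intro f m
    refine IsMinor.trans ?_ (hup f)
    refine isMinor_iff.2 (MinorOn.of_map (fun x => some (m, 0, x)) ?_ (fun _ _ => trivial) ?_)
    · intro x _ y _ hxy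
      simpa using hxy
    · intro x _ y _ hxy
      exact CG_adj 0 hxy

theorem HWQO_of_wqo (h : IsWQO {G : SimpleGraph ℕ | Rayless G}) : RaylessHWQO := by
  obtain ⟨Code, P1, P2, P3, P4, P5⟩ := exists_HFcode
  obtain ⟨Φ, hΦl, hΦn⟩ : ∃ Φ : HFam (SimpleGraph ℕ) → SimpleGraph ℕ,
      (∀ G, Φ (HFam.leaf G) = cone (cone G)) ∧
      ∀ f, Φ (HFam.node f) = Code (fun m => Φ (f m)) :=
    ⟨fun x => HFam.rec (motive := fun _ => SimpleGraph ℕ) (fun G => cone (cone G))
      (fun _ ih => Code ih) x, fun _ => rfl, fun _ => rfl⟩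
  have hR : ∀ x, HAll (fun G : SimpleGraph ℕ => Rayless G) x → Rayless (Φ x) := by
    intro x
    induction x with
    | leaf G =>
      intro hG
      rw [hΦl]
      exact cone_rayless (cone_rayless hG)
    | node f ih =>
      intro hf
      rw [hΦn]
      exact P1 _ fun m => ih m (hf m)
  have hC : ∀ x, Connd (Φ x) := by
    intro x
    induction x with
    | leaf G =>
      rw [hΦl]
      exact cone_connd _
    | node f ih =>
      rw [hΦn]
      exact P2 _ ih
  have key1 : ∀ (G : SimpleGraph ℕ) y, IsMinor (cone (cone G)) (Φ y) →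
      HLeafLe (fun G H : SimpleGraph ℕ => IsMinor G H) G y := by
    intro G y
    induction y with
    | leaf H =>
      intro hm
      rw [hΦl] at hm
      exact minor_of_cone' (minor_of_cone' hm)
    | node g ih =>
      intro hm
      rw [hΦn] at hm
      obtain ⟨n, hn⟩ := P4 _ _ (cone_cone_two G) hm
      exact ⟨n, ih n hn⟩
  have key : ∀ x y, IsMinor (Φ x) (Φ y) → HLe (fun G H : SimpleGraph ℕ => IsMinor G H) x y := by
    intro x
    induction x with
    | leaf G =>
      intro y hm
      rw [hΦl] at hm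
      rw [HLe]
      exact key1 G y hm
    | node f ih =>
      intro y hm
      rw [hΦn] at hm
      cases y with
      | leaf H =>
        rw [HLe]
        exact fun m => ih m _ (IsMinor.trans (P5 (fun m => Φ (f m)) m) hm)
      | node g =>
        rw [hΦn] at hm
        rw [HLe]
        intro m
        obtain ⟨n, hn⟩ := P3 _ _ (fun m => hC (f m)) hm m
        exact ⟨n, ih m _ hn⟩
  intro F hF
  obtain ⟨i, j, hij, hm⟩ := h (fun i => Φ (F i)) fun i => hR _ (hF i)
  exact ⟨i, j, hij, key _ _ hm⟩

theorem wqo_of_HWQO (h : RaylessHWQO) : IsWQO {G : SimpleGraph ℕ | Rayless G} := by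
  intro g hg
  obtain ⟨i, j, hij, hl⟩ := h (fun i => HFam.leaf (g i)) fun i => hg i
  rw [HLe] at hl
  exact ⟨i, j, hij, hl⟩

/-- Q1 is equivalent to the well-quasi-ordering of the hereditarily countable families of rayless
graphs. -/
theorem question_iff_H : QuestionFor Set.univ ↔ RaylessHWQO := by
  have h15 : QuestionFor Set.univ ↔ IsWQO {G : SimpleGraph ℕ | Rayless G} := tfae_main.out 0 4
  rw [h15]
  exact ⟨HWQO_of_wqo, wqo_of_HWQO⟩

/-- The hereditarily countable families of finite graphs embed into those of rayless graphs. -/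
theorem finite_of_rayless (h : RaylessHWQO) : FiniteHWQO := by
  obtain ⟨T, hTl, hTn⟩ : ∃ T : HFam FinGraph → HFam (SimpleGraph ℕ),
      (∀ F, T (HFam.leaf F) = HFam.leaf (code F.2)) ∧
      ∀ f, T (HFam.node f) = HFam.node (fun m => T (f m)) :=
    ⟨fun x => HFam.rec (motive := fun _ => HFam (SimpleGraph ℕ)) (fun F => HFam.leaf (code F.2))
      (fun _ ih => HFam.node ih) x, fun _ => rfl, fun _ => rfl⟩
  have hR : ∀ x, HAll (fun G : SimpleGraph ℕ => Rayless G) (T x) := by
    intro x
    induction x with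
    | leaf F =>
      rw [hTl]
      exact rayless_of_mem (code_rank F.2)
    | node f ih =>
      rw [hTn]
      exact ih
  have key1 : ∀ (F : FinGraph) y, HLeafLe (fun G H : SimpleGraph ℕ => IsMinor G H) (code F.2) (T y) →
      HLeafLe (fun F H : FinGraph => IsMinor F.2 H.2) F y := by
    intro F y
    induction y with
    | leaf H =>
      intro hm
      rw [hTl] at hm
      exact minor_of_code hm
    | node g ih =>
      intro hm
      rw [hTn] at hm
      obtain ⟨n, hn⟩ := hm
      exact ⟨n, ih n hn⟩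
  have key : ∀ x y, HLe (fun G H : SimpleGraph ℕ => IsMinor G H) (T x) (T y) →
      HLe (fun F H : FinGraph => IsMinor F.2 H.2) x y := by
    intro x
    induction x with
    | leaf F =>
      intro y hm
      rw [hTl, HLe] at hm
      rw [HLe]
      exact key1 F y hm
    | node f ih =>
      intro y hm
      cases y with
      | leaf H =>
        rw [hTn, hTl, HLe] at hm
        rw [HLe]
        intro m
        refine ih m _ ?_
        rw [hTl]
        exact hm m
      | node g =>
        rw [hTn, hTn, HLe] at hm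
        rw [HLe]
        intro m
        obtain ⟨n, hn⟩ := hm m
        exact ⟨n, ih m _ hn⟩
  intro F _
  obtain ⟨i, j, hij, hm⟩ := h (fun i => T (F i)) fun i => hR _
  exact ⟨i, j, hij, key _ _ hm⟩

end Pool.Agent.Lib.MP_a45bfb_lc
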