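import Pool.Agent.Lib.MP_a45bfb_lc.Borel

namespace Pool.Agent.Lib.MP_a45bfb_lc

open Ordinal Set

/-- `C` is closed under taking minors. -/
def MinorClosed (C : Set (SimpleGraph ℕ)) : Prop :=
  ∀ G ∈ C, ∀ H : SimpleGraph ℕ, IsMinor H G → H ∈ C

/-- Q1 of the problem for the families contained in `D`: every family `C ⊆ D` of rayless graphs
that is closed under minor-twins and has Borel rank slices is well-quasi-ordered. -/
def QuestionFor (D : Set (SimpleGraph ℕ)) : Prop :=
  ∀ C : Set (SimpleGraph ℕ), C ⊆ D → (∀ G ∈ C, Rayless G) → TwinClosed C →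
    (∀ α < ω₁, IsBorel (C ∩ Rank α)) → IsWQO C

/-- The graphs on `ℕ` of rank at most `δ`. -/
def RankLE (δ : Ordinal.{0}) : Set (SimpleGraph ℕ) := {G | ∃ α ≤ δ, G ∈ Rank α}

theorem mem_RankLE {G : SimpleGraph ℕ} {δ : Ordinal.{0}} : G ∈ RankLE δ ↔ R G δ Set.univ :=
  exists_le_rank_iff G δ

theorem rayless_of_mem {G : SimpleGraph ℕ} {δ : Ordinal.{0}} (h : G ∈ RankLE δ) : Rayless G := by
  obtain ⟨_, _, h, _⟩ := h
  exact h

theorem minorClosed_RankLE (δ : Ordinal.{0}) : MinorClosed (RankLE δ) := by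
  intro G hG H hH
  rw [mem_RankLE] at hG ⊢
  exact R_of_isMinor hH hG

theorem isBorel_RankLE {δ : Ordinal.{0}} (hδ : δ < ω₁) : IsBorel (RankLE δ) := by
  have : RankLE δ = {G : SimpleGraph ℕ | R G δ Set.univ} := by
    ext G
    exact mem_RankLE
  rw [this]
  exact borel_R δ hδ

theorem twinClosed_of_minorClosed {C : Set (SimpleGraph ℕ)} (h : MinorClosed C) : TwinClosed C :=
  fun G hG H _ hHG => h G hG H hHG

theorem IsWQO.mono {C D : Set (SimpleGraph ℕ)} (h : C ⊆ D) (hD : IsWQO D) : IsWQO C :=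
  fun g hg => hD g fun n => h (hg n)

theorem questionFor_of_wqo {D : Set (SimpleGraph ℕ)} (h : IsWQO {G ∈ D | Rayless G}) :
    QuestionFor D := by
  intro C hCD hC _ _
  exact IsWQO.mono (D := {G ∈ D | Rayless G}) (fun G hG => ⟨hCD hG, hC G hG⟩) h

theorem questionFor_rankLE {δ : Ordinal.{0}} (hδ : δ < ω₁) :
    QuestionFor (RankLE δ) ↔ IsWQO (RankLE δ) := by
  constructor
  · intro h
    exact h _ Subset.rfl (fun G hG => rayless_of_mem hG)
      (twinClosed_of_minorClosed (minorClosed_RankLE δ))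
      fun α hα => isBorel_inter (isBorel_RankLE hδ) (borel_Rank α hα)
  · intro h
    exact questionFor_of_wqo (IsWQO.mono (fun G hG => hG.1) h)

theorem wqo_rayless_iff : IsWQO {G : SimpleGraph ℕ | Rayless G} ↔ ∀ δ < ω₁, IsWQO (RankLE δ) := by
  constructor
  · intro h δ _
    exact IsWQO.mono (fun G hG => rayless_of_mem hG) h
  · intro h g hg
    have hex : ∀ n, ∃ α < ω₁, g n ∈ Rank α := fun n => (rayless_iff_rank (g n)).1 (hg n)
    choose a ha hr using hex
    have hsup : ⨆ n, a n < ω₁ := Ordinal.iSup_lt_omega_one ha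
    exact h _ hsup g fun n => ⟨a n, Ordinal.le_iSup a n, hr n⟩

theorem minorClosed_rayless : MinorClosed {G : SimpleGraph ℕ | Rayless G} := by
  intro G hG H hH
  obtain ⟨α, _, hα⟩ := (rayless_iff_rank G).1 hG
  obtain ⟨β, _, hβ⟩ := rank_minor hH hα
  exact hβ.1

theorem isBorel_rayless_inter {α : Ordinal.{0}} (hα : α < ω₁) :
    IsBorel ({G : SimpleGraph ℕ | Rayless G} ∩ Rank α) := by
  have : {G : SimpleGraph ℕ | Rayless G} ∩ Rank α = Rank α :=
    inter_eq_right.2 fun G hG => hG.1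
  rw [this]
  exact borel_Rank α hα

theorem tfae_main :
    [QuestionFor Set.univ,
     ∀ C : Set (SimpleGraph ℕ), (∀ G ∈ C, Rayless G) → MinorClosed C → IsBorel C → IsWQO C,
     ∀ δ < ω₁, QuestionFor (RankLE δ),
     ∀ δ < ω₁, IsWQO (RankLE δ),
     IsWQO {G : SimpleGraph ℕ | Rayless G}].TFAE := by
  tfae_have 1 → 5 := fun h => h _ (subset_univ _) (fun _ hG => hG)
    (twinClosed_of_minorClosed minorClosed_rayless) fun α hα => isBorel_rayless_inter hα
  tfae_have 5 → 1 := fun h => questionFor_of_wqo (IsWQO.mono (fun G hG => hG.2) h)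
  tfae_have 5 ↔ 4 := wqo_rayless_iff
  tfae_have 3 ↔ 4 := forall_congr' fun δ => forall_congr' fun hδ => questionFor_rankLE hδ
  tfae_have 5 → 2 := fun h C hC _ _ => IsWQO.mono hC h
  tfae_have 2 → 4 := fun h δ hδ => h _ (fun G hG => rayless_of_mem hG) (minorClosed_RankLE δ)
    (isBorel_RankLE hδ)
  tfae_finish

end Pool.Agent.Lib.MP_a45bfb_lc
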