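import Pool.Agent.Lib.MP_a45bfb_lc.Finite

/-!
# MP_a45bfb_lc: the case of rank one contains the graph minor theorem
-/

namespace Pool.Agent.Lib.MP_a45bfb_lc.RankOne

open Ordinal
open Pool.Agent.Lib.MP_a45bfb_lc

/-- If Q1 holds for the families of graphs of rank at most one, then the graph minor theorem for
finite graphs holds. -/
theorem result : QuestionFor (RankLE 1) → GraphMinorTheorem :=
  fun h => gmt_of_wqo ((questionFor_rankLE
    (lt_trans Ordinal.one_lt_omega0 Ordinal.omega0_lt_omega_one)).1 h)

end Pool.Agent.Lib.MP_a45bfb_lc.RankOne
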