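import Pool.Agent.Lib.MP_a45bfb_lc.Rooted

/-!
# Graphs that lose all infinite components when `n` vertices are deleted
-/

namespace Pool.Agent.Lib.MP_a45bfb_lc

open Ordinal Set

theorem mem_Sep {n : ℕ} {G : SimpleGraph ℕ} :
    G ∈ Sep n ↔ ∃ X : Finset ℕ, X.card ≤ n ∧ ∀ x ∉ X, (comp G ((X : Set ℕ)ᶜ) x).Finite := by
  constructor
  · rintro ⟨X, h1, h2⟩
    exact ⟨X, h1, fun x hx => h2 _ ⟨x, hx, rfl⟩⟩
  · rintro ⟨X, h1, h2⟩
    refine ⟨X, h1, ?_⟩
    rintro C ⟨x, hx, rfl⟩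
    exact h2 x hx

theorem sep_sub (n : ℕ) : Sep n ⊆ RankLE 1 := by
  intro G hG
  rw [mem_RankLE, R_iff]
  obtain ⟨X, _, h⟩ := mem_Sep.1 hG
  refine ⟨X, fun x hx => ⟨0, by simp, ?_⟩⟩
  have : (Set.univ : Set ℕ) \ (X : Set ℕ) = (X : Set ℕ)ᶜ := (compl_eq_univ_sdiff _).symm
  rw [this] at hx ⊢
  exact R_of_finite (h x hx) _

theorem rankLE_one_eq : RankLE 1 = ⋃ n, Sep n := by
  apply Subset.antisymm
  · intro G hG
    rw [mem_RankLE, R_iff] at hG
    obtain ⟨X, hX⟩ := hG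
    refine mem_iUnion.2 ⟨X.card, mem_Sep.2 ⟨X, le_rfl, fun x hx => ?_⟩⟩
    obtain ⟨β, hβ, hR⟩ := hX x ⟨trivial, hx⟩
    have hβ0 : β = 0 := by simpa using hβ
    subst hβ0
    rw [compl_eq_univ_sdiff]
    exact finite_of_R_zero hR
  · exact iUnion_subset sep_sub

theorem sep_zero : Sep 0 = FinComp := by
  ext G
  rw [mem_Sep, mem_FinComp]
  constructor
  · rintro ⟨X, h1, h2⟩ x
    have hX : X = ∅ := Finset.card_eq_zero.1 (Nat.le_zero.1 h1)
    subst hX
    have := h2 x (by simp)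
    simpa using this
  · intro h
    refine ⟨∅, le_rfl, fun x _ => ?_⟩
    have := h x
    simpa using this

theorem minorClosed_Sep (n : ℕ) : MinorClosed (Sep n) := by
  classical
  intro H hH G hGH
  obtain ⟨X, hXn, hX⟩ := mem_Sep.1 hH
  obtain ⟨B, hB, hdis, hadj⟩ := hGH
  have hfin : {v | ∃ w ∈ X, w ∈ B v}.Finite := by
    have hsub : {v | ∃ w ∈ X, w ∈ B v} ⊆ ⋃ w ∈ X, {v | w ∈ B v} := by
      rintro v ⟨w, hw, hwv⟩
      exact mem_biUnion hw hwv
    refine Set.Finite.subset (X.finite_toSet.biUnion fun w _ => ?_) hsub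
    refine Set.Subsingleton.finite ?_
    rintro u hwu v hwv
    by_contra hne
    exact Set.disjoint_left.1 (hdis u v hne) hwu hwv
  refine mem_Sep.2 ⟨hfin.toFinset, ?_, ?_⟩
  · refine le_trans ?_ hXn
    have hch : ∀ v, ∃ w, (∃ w ∈ X, w ∈ B v) → w ∈ X ∧ w ∈ B v := by
      intro v
      by_cases h : ∃ w ∈ X, w ∈ B v
      · obtain ⟨w, hw⟩ := h
        exact ⟨w, fun _ => hw⟩
      · exact ⟨0, fun h' => absurd h' h⟩
    choose f hf using hch
    refine Finset.card_le_card_of_injOn f ?_ ?_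
    · intro v hv
      simp only [Finite.coe_toFinset, mem_ofPred_eq] at hv
      exact (hf v hv).1
    · intro u hu v hv huv
      simp only [Finite.coe_toFinset, mem_ofPred_eq] at hu hv
      by_contra hne
      exact Set.disjoint_left.1 (hdis u v hne) (hf u hu).2 (huv ▸ (hf v hv).2)
  · intro x hx
    have hout : ∀ v, v ∉ hfin.toFinset → B v ⊆ ((X : Set ℕ))ᶜ := by
      intro v hv w hw hwX
      apply hv
      simp only [Finite.mem_toFinset, mem_ofPred_eq]
      exact ⟨w, hwX, hw⟩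
    obtain ⟨w, hw⟩ := (hB x).1
    have hsub : ∀ y ∈ comp G ((hfin.toFinset : Set ℕ)ᶜ) x, ∀ b ∈ B y,
        b ∈ comp H ((X : Set ℕ)ᶜ) w := by
      intro y hy
      induction hy with
      | refl => exact fun b hb => ((hB x).2 w hw b hb).mono (hout x hx)
      | @tail p q _ hpq ih =>
        intro b hb
        obtain ⟨h1, hp, hq⟩ := hpq
        obtain ⟨s, hs, t, ht, hst⟩ := hadj p q h1
        have h1 : Conn H ((X : Set ℕ)ᶜ) w t := Conn.tail (ih s hs) hst (hout p hp hs) (hout q hq ht)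
        exact h1.trans (((hB q).2 t ht b hb).mono (hout q hq))
    have hch : ∀ y, ∃ b, b ∈ B y := fun y => (hB y).1
    choose f hf using hch
    refine Set.Finite.of_finite_image (f := f) ((hX w (hout x hx hw)).subset ?_) ?_
    · rintro _ ⟨y, hy, rfl⟩
      exact hsub y hy _ (hf y)
    · intro y _ z _ hyz
      by_contra hne
      exact Set.disjoint_left.1 (hdis y z hne) (hf y) (hyz ▸ hf z)

theorem isBorel_Sep (n : ℕ) : IsBorel (Sep n) := by
  have : Sep n = ⋃ X ∈ {X : Finset ℕ | X.card ≤ n}, ⋂ x : ℕ,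
      {G : SimpleGraph ℕ | x ∉ X → R G 0 (comp G ((X : Set ℕ)ᶜ) x)} := by
    ext G
    rw [mem_Sep]
    simp only [mem_iUnion, mem_iInter, mem_ofPred_eq, exists_prop]
    refine exists_congr fun X => and_congr_right fun _ => forall_congr' fun x =>
      forall_congr' fun _ => ⟨fun h => R_of_finite h _, finite_of_R_zero⟩
  rw [this]
  refine MeasurableSet.biUnion (Set.to_countable _) fun X _ => MeasurableSet.iInter fun x => ?_
  by_cases hx : x ∈ X
  · have : {G : SimpleGraph ℕ | x ∉ X → R G 0 (comp G ((X : Set ℕ)ᶜ) x)} = Set.univ := by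
      ext G
      simp only [mem_ofPred_eq, mem_univ, iff_true]
      exact fun h => absurd hx h
    rw [this]
    exact MeasurableSet.univ
  · have : {G : SimpleGraph ℕ | x ∉ X → R G 0 (comp G ((X : Set ℕ)ᶜ) x)} =
        {G : SimpleGraph ℕ | R G 0 (comp G ((X : Set ℕ)ᶜ) x)} := by
      ext G
      simp only [mem_ofPred_eq]
      exact ⟨fun h => h hx, fun h _ => h⟩
    rw [this]
    exact borel_R_comp 0 (Ordinal.omega_pos 1) X x hx

theorem questionFor_Sep (n : ℕ) : QuestionFor (Sep n) ↔ IsWQO (Sep n) := by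
  constructor
  · intro h
    exact h _ Subset.rfl (fun G hG => rayless_of_mem (sep_sub n hG))
      (twinClosed_of_minorClosed (minorClosed_Sep n))
      fun α hα => isBorel_inter (isBorel_Sep n) (borel_Rank α hα)
  · intro h
    exact questionFor_of_wqo (IsWQO.mono (fun G hG => hG.1) h)

/-- The least elements of the components of `G[T]`. -/
def repsOn (G : SimpleGraph ℕ) (T : Set ℕ) : Set ℕ := {x ∈ T | ∀ y ∈ comp G T x, x ≤ y}

theorem repsOn_cover (G : SimpleGraph ℕ) (T : Set ℕ) {v : ℕ} (hv : v ∈ T) :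
    ∃ x ∈ repsOn G T, v ∈ comp G T x := by
  have hne : (comp G T v).Nonempty := ⟨v, Conn.refl _ _ _⟩
  have hmem : sInf (comp G T v) ∈ comp G T v := Nat.sInf_mem hne
  refine ⟨sInf (comp G T v), ⟨comp_subset hv hmem, fun y hy => Nat.sInf_le (Conn.trans hmem hy)⟩,
    Conn.symm hmem⟩

theorem repsOn_unique {G : SimpleGraph ℕ} {T : Set ℕ} {x y : ℕ} (hx : x ∈ repsOn G T)
    (hy : y ∈ repsOn G T) (h : y ∈ comp G T x) : x = y :=
  le_antisymm (hx.2 y h) (hy.2 x (Conn.symm h))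

/-- Gluing rooted minor models over the components. -/
theorem isMinor_of_pieces {n : ℕ} {G H : SimpleGraph ℕ} {e e' : Fin n → ℕ}
    (he : Function.Injective e) (he' : Function.Injective e')
    (hroot : ∀ a b, G.Adj (e a) (e b) → H.Adj (e' a) (e' b)) (f : ℕ → ℕ)
    (hf : Set.InjOn f (repsOn G (Set.range e)ᶜ))
    (hfP : ∀ x ∈ repsOn G (Set.range e)ᶜ, f x ∈ repsOn H (Set.range e')ᶜ)
    (hm : ∀ x ∈ repsOn G (Set.range e)ᶜ, RMinor G e (comp G (Set.range e)ᶜ x) H e'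
      (comp H (Set.range e')ᶜ (f x))) : IsMinor G H := by
  classical
  have hrt : ∀ v, ∃ x, v ∉ Set.range e →
      x ∈ repsOn G (Set.range e)ᶜ ∧ v ∈ comp G (Set.range e)ᶜ x := by
    intro v
    by_cases hv : v ∈ Set.range e
    · exact ⟨0, fun h => absurd hv h⟩
    · obtain ⟨x, h1, h2⟩ := repsOn_cover G (Set.range e)ᶜ hv
      exact ⟨x, fun _ => ⟨h1, h2⟩⟩
  choose rt hrt using hrt
  have hm' : ∀ x, ∃ B : ℕ → Set ℕ, x ∈ repsOn G (Set.range e)ᶜ →
      (∀ v ∈ comp G (Set.range e)ᶜ x ∪ Set.range e, ConnectedOn H (B v)) ∧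
      (∀ v ∈ comp G (Set.range e)ᶜ x, B v ⊆ comp H (Set.range e')ᶜ (f x)) ∧
      (∀ i, e' i ∈ B (e i) ∧ B (e i) ⊆ comp H (Set.range e')ᶜ (f x) ∪ {e' i}) ∧
      (∀ u ∈ comp G (Set.range e)ᶜ x ∪ Set.range e, ∀ v ∈ comp G (Set.range e)ᶜ x ∪ Set.range e,
        u ≠ v → Disjoint (B u) (B v)) ∧
      ∀ u ∈ comp G (Set.range e)ᶜ x, ∀ v ∈ comp G (Set.range e)ᶜ x ∪ Set.range e, G.Adj u v →
        ∃ a ∈ B u, ∃ b ∈ B v, H.Adj a b := by
    intro x
    by_cases hx : x ∈ repsOn G (Set.range e)ᶜ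
    · obtain ⟨B, hB⟩ := hm x hx
      exact ⟨B, fun _ => hB⟩
    · exact ⟨fun _ => ∅, fun h => absurd h hx⟩
  choose B hB using hm'
  have hC' : ∀ x ∈ repsOn G (Set.range e)ᶜ, ∀ w ∈ comp H (Set.range e')ᶜ (f x),
      w ∉ Set.range e' := fun x hx w hw => comp_subset (hfP x hx).1 hw
  have hsame : ∀ x ∈ repsOn G (Set.range e)ᶜ, ∀ y ∈ repsOn G (Set.range e)ᶜ, ∀ w,
      w ∈ comp H (Set.range e')ᶜ (f x) → w ∈ comp H (Set.range e')ᶜ (f y) → x = y := by
    intro x hx y hy w h1 h2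
    exact hf hx hy (repsOn_unique (hfP x hx) (hfP y hy) (Conn.trans h1 (Conn.symm h2)))
  let D : ℕ → Set ℕ := fun v => {w | (∃ a, v = e a ∧ (w = e' a ∨
    ∃ x ∈ repsOn G (Set.range e)ᶜ, w ∈ B x v)) ∨ (v ∉ Set.range e ∧ w ∈ B (rt v) v)}
  have hDr : ∀ a w, w ∈ D (e a) ↔ (w = e' a ∨ ∃ x ∈ repsOn G (Set.range e)ᶜ, w ∈ B x (e a)) := by
    intro a w
    constructor
    · rintro (⟨b, hb, h⟩ | ⟨h, _⟩)
      · rw [he hb]
        rw [he hb] at h
        exact h
      · exact absurd ⟨a, rfl⟩ h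
    · intro h
      exact Or.inl ⟨a, rfl, h⟩
  have hDn : ∀ v, v ∉ Set.range e → D v = B (rt v) v := by
    intro v hv
    ext w
    constructor
    · rintro (⟨a, rfl, _⟩ | ⟨_, h⟩)
      · exact absurd ⟨a, rfl⟩ hv
      · exact h
    · exact fun h => Or.inr ⟨hv, h⟩
  have hadjrt : ∀ u v, u ∉ Set.range e → v ∉ Set.range e → G.Adj u v → rt u = rt v := by
    intro u v hu hv huv
    have h1 : v ∈ comp G (Set.range e)ᶜ (rt u) := Conn.tail (hrt u hu).2 huv hu hv
    exact repsOn_unique (hrt u hu).1 (hrt v hv).1 (Conn.trans h1 (Conn.symm (hrt v hv).2))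
  -- disjointness of a root set and another set
  have hdr : ∀ a v, v ≠ e a → Disjoint (D (e a)) (D v) := by
    intro a v hva
    rw [Set.disjoint_left]
    intro w hw hw'
    rw [hDr] at hw
    by_cases hv : v ∈ Set.range e
    · obtain ⟨b, rfl⟩ := hv
      rw [hDr] at hw'
      have hab : a ≠ b := fun h => hva (h ▸ rfl)
      rcases hw with rfl | ⟨x, hx, hwx⟩
      · rcases hw' with h | ⟨y, hy, hwy⟩
        · exact hab (he' h)
        · rcases ((hB y hy).2.2.1 b).2 hwy with h | h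
          · exact hC' y hy _ h ⟨a, rfl⟩
          · exact hab (he' h)
      · rcases hw' with rfl | ⟨y, hy, hwy⟩
        · rcases ((hB x hx).2.2.1 a).2 hwx with h | h
          · exact hC' x hx _ h ⟨b, rfl⟩
          · exact hab (he' h).symm
        · by_cases hxy : x = y
          · subst hxy
            exact Set.disjoint_left.1 ((hB x hx).2.2.2.1 (e a) (Or.inr ⟨a, rfl⟩) (e b)
              (Or.inr ⟨b, rfl⟩) (fun h => hab (he h))) hwx hwy
          · rcases ((hB x hx).2.2.1 a).2 hwx with h | h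
            · rcases ((hB y hy).2.2.1 b).2 hwy with h' | h'
              · exact hxy (hsame x hx y hy w h h')
              · exact hC' x hx _ h ⟨b, (mem_singleton_iff.1 h').symm⟩
            · rcases ((hB y hy).2.2.1 b).2 hwy with h' | h'
              · exact hC' y hy _ h' ⟨a, (mem_singleton_iff.1 h).symm⟩
              · exact hab (he' ((mem_singleton_iff.1 h).symm.trans (mem_singleton_iff.1 h')))
    · rw [hDn v hv] at hw'
      have hw1 := (hB _ (hrt v hv).1).2.1 v (hrt v hv).2 hw'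
      have hw2 := hC' _ (hrt v hv).1 _ hw1
      rcases hw with rfl | ⟨x, hx, hwx⟩
      · exact hw2 ⟨a, rfl⟩
      · by_cases hxy : x = rt v
        · rw [hxy] at hwx
          exact Set.disjoint_left.1 ((hB _ (hrt v hv).1).2.2.2.1 (e a) (Or.inr ⟨a, rfl⟩) v
            (Or.inl (hrt v hv).2) hva.symm) hwx hw'
        · rcases ((hB x hx).2.2.1 a).2 hwx with h | h
          · exact hxy (hsame x hx _ (hrt v hv).1 w h hw1)
          · exact hw2 ⟨a, (mem_singleton_iff.1 h).symm⟩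
  refine ⟨D, ?_, ?_, ?_⟩
  · intro v
    by_cases hv : v ∈ Set.range e
    · obtain ⟨a, rfl⟩ := hv
      have hbase : ∀ w ∈ D (e a), Conn H (D (e a)) (e' a) w := by
        intro w hw
        rcases (hDr a w).1 hw with rfl | ⟨x, hx, hwx⟩
        · exact Conn.refl _ _ _
        · refine Conn.mono ?_ (((hB x hx).1 (e a) (Or.inr ⟨a, rfl⟩)).2 _
            ((hB x hx).2.2.1 a).1 _ hwx)
          intro z hz
          exact (hDr a z).2 (Or.inr ⟨x, hx, hz⟩)
      exact ⟨⟨e' a, (hDr a _).2 (Or.inl rfl)⟩, fun p hp q hq =>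
        Conn.trans (Conn.symm (hbase p hp)) (hbase q hq)⟩
    · rw [hDn v hv]
      exact (hB _ (hrt v hv).1).1 v (Or.inl (hrt v hv).2)
  · intro u v huv
    by_cases hu : u ∈ Set.range e
    · obtain ⟨a, rfl⟩ := hu
      exact hdr a v huv.symm
    · by_cases hv : v ∈ Set.range e
      · obtain ⟨a, rfl⟩ := hv
        exact (hdr a u huv).symm
      · rw [Set.disjoint_left]
        intro w hw hw'
        rw [hDn u hu] at hw
        rw [hDn v hv] at hw'
        have h1 := (hB _ (hrt u hu).1).2.1 u (hrt u hu).2 hw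
        have h2 := (hB _ (hrt v hv).1).2.1 v (hrt v hv).2 hw'
        have h3 := hsame _ (hrt u hu).1 _ (hrt v hv).1 w h1 h2
        rw [← h3] at hw'
        refine Set.disjoint_left.1 ((hB _ (hrt u hu).1).2.2.2.1 u (Or.inl (hrt u hu).2) v
          (Or.inl ?_) huv) hw hw'
        rw [h3]
        exact (hrt v hv).2
  · intro u v huv
    by_cases hu : u ∈ Set.range e
    · obtain ⟨a, rfl⟩ := hu
      by_cases hv : v ∈ Set.range e
      · obtain ⟨b, rfl⟩ := hv
        exact ⟨e' a, (hDr a _).2 (Or.inl rfl), e' b, (hDr b _).2 (Or.inl rfl), hroot a b huv⟩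
      · obtain ⟨p, hp, q, hq, hpq⟩ := (hB _ (hrt v hv).1).2.2.2.2 v (hrt v hv).2 (e a)
          (Or.inr ⟨a, rfl⟩) huv.symm
        refine ⟨q, (hDr a _).2 (Or.inr ⟨_, (hrt v hv).1, hq⟩), p, ?_, hpq.symm⟩
        rw [hDn v hv]
        exact hp
    · by_cases hv : v ∈ Set.range e
      · obtain ⟨b, rfl⟩ := hv
        obtain ⟨p, hp, q, hq, hpq⟩ := (hB _ (hrt u hu).1).2.2.2.2 u (hrt u hu).2 (e b)
          (Or.inr ⟨b, rfl⟩) huv
        refine ⟨p, ?_, q, (hDr b _).2 (Or.inr ⟨_, (hrt u hu).1, hq⟩), hpq⟩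
        rw [hDn u hu]
        exact hp
      · have h3 := hadjrt u v hu hv huv
        obtain ⟨p, hp, q, hq, hpq⟩ := (hB _ (hrt u hu).1).2.2.2.2 u (hrt u hu).2 v
          (Or.inl (by rw [h3]; exact (hrt v hv).2)) huv
        refine ⟨p, ?_, q, ?_, hpq⟩
        · rw [hDn u hu]
          exact hp
        · rw [hDn v hv, ← h3]
          exact hq

end Pool.Agent.Lib.MP_a45bfb_lc
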