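import Pool.Agent.Lib.MP_a45bfb_lc.SepUp

/-!
# Coding classes of finite pieces by graphs
-/

namespace Pool.Agent.Lib.MP_a45bfb_lc

open Ordinal Set

variable {n : ℕ}

instance : Countable (Piece n) :=
  inferInstanceAs (Countable {P : Σ m : ℕ, SimpleGraph (Fin n ⊕ Fin m) //
    ConnectedOn P.2 (Set.range Sum.inr)})

/-- The roots, and infinitely many copies of the further vertices of each piece. -/
abbrev TT (n : ℕ) : Type := Fin n ⊕ (Σ P : Piece n, ℕ × Fin P.1.1)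

/-- The `c`-th copy of the piece `P`. -/
def cemb (P : Piece n) (c : ℕ) : Fin n ⊕ Fin P.1.1 → TT n :=
  Sum.elim Sum.inl (fun x => Sum.inr ⟨P, c, x⟩)

theorem cemb_inj (P : Piece n) (c : ℕ) : Function.Injective (cemb P c) := by
  intro u v huv
  cases u with
  | inl i =>
    cases v with
    | inl j => exact congrArg Sum.inl (Sum.inl.inj huv)
    | inr y => exact absurd huv (by simp [cemb])
  | inr x =>
    cases v with
    | inl j => exact absurd huv (by simp [cemb])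
    | inr y =>
      have h := Sum.inr.inj huv
      simp only [Sigma.mk.injEq, heq_eq_eq, Prod.mk.injEq, true_and] at h
      rw [h]

/-- All copies of all pieces, glued along the roots. -/
def KK (n : ℕ) : SimpleGraph (TT n) where
  Adj s t := ∃ (P : Piece n) (c : ℕ) (u v : Fin n ⊕ Fin P.1.1), P.1.2.Adj u v ∧
    (u ∈ Set.range Sum.inr ∨ v ∈ Set.range Sum.inr) ∧ s = cemb P c u ∧ t = cemb P c v
  symm := ⟨fun _ _ ⟨P, c, u, v, h1, h2, h3, h4⟩ => ⟨P, c, v, u, h1.symm, h2.symm, h4, h3⟩⟩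
  loopless := ⟨fun s ⟨P, c, u, v, h1, _, h3, h4⟩ => by
    have := cemb_inj P c (h3.symm.trans h4)
    subst this
    exact P.1.2.loopless.irrefl _ h1⟩

theorem KK_inv {P : Piece n} {c : ℕ} {x : Fin P.1.1} {t : TT n}
    (h : (KK n).Adj (Sum.inr ⟨P, c, x⟩) t) :
    ∃ v, t = cemb P c v ∧ P.1.2.Adj (Sum.inr x) v := by
  obtain ⟨Q, d, u, v, h1, _, h3, h4⟩ := h
  cases u with
  | inl i => exact absurd h3 (by simp [cemb])
  | inr y =>
    have h := Sum.inr.inj h3
    cases h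
    exact ⟨v, h4, h1⟩

theorem KK_adj {P : Piece n} (c : ℕ) {x : Fin P.1.1} {v : Fin n ⊕ Fin P.1.1}
    (h : P.1.2.Adj (Sum.inr x) v) : (KK n).Adj (Sum.inr ⟨P, c, x⟩) (cemb P c v) :=
  ⟨P, c, Sum.inr x, v, h, Or.inl ⟨x, rfl⟩, rfl, rfl⟩

theorem KK_pull {S : Set (TT n)} (hS : ∀ k, Sum.inl k ∉ S) {Q : Piece n} {c : ℕ}
    {y : Fin Q.1.1} {t : TT n} (h : Conn (KK n) S (Sum.inr ⟨Q, c, y⟩) t) :
    ∃ y', t = Sum.inr ⟨Q, c, y'⟩ ∧
      Conn Q.1.2 {w | cemb Q c w ∈ S} (Sum.inr y) (Sum.inr y') := by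
  induction h with
  | refl => exact ⟨y, rfl, Conn.refl _ _ _⟩
  | @tail b t _ hbt ih =>
    obtain ⟨y', rfl, hy'⟩ := ih
    obtain ⟨h1, h2, h3⟩ := hbt
    obtain ⟨v, rfl, hv⟩ := KK_inv h1
    cases v with
    | inl k => exact absurd h3 (hS k)
    | inr z => exact ⟨z, rfl, hy'.tail hv h2 h3⟩

theorem KK_pull_root {S : Set (TT n)} {k : Fin n} (hS : ∀ k', Sum.inl k' ∈ S → k' = k)
    {Q : Piece n} {c : ℕ} {s : TT n} (h : Conn (KK n) S s (Sum.inl k)) :
    ∀ y : Fin Q.1.1, s = Sum.inr ⟨Q, c, y⟩ →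
      Conn Q.1.2 {w | cemb Q c w ∈ S} (Sum.inr y) (Sum.inl k) := by
  induction h using Relation.ReflTransGen.head_induction_on with
  | refl => exact fun y hy => absurd hy (by simp)
  | @head s s' hss' _ ih =>
    rintro y rfl
    obtain ⟨h1, h2, h3⟩ := hss'
    obtain ⟨v, rfl, hv⟩ := KK_inv h1
    cases v with
    | inl k' =>
      have hk := hS k' h3
      subst hk
      exact Conn.tail (Conn.refl _ _ _) hv h2 h3
    | inr z => exact Conn.trans (Conn.tail (Conn.refl _ _ _) hv h2 h3) (ih z rfl)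

/-- The roots and the copies of the members of `A`. -/
def SS (A : Set (Piece n)) : Set (TT n) := {t | ∀ s, t = Sum.inr s → s.1 ∈ A}

theorem inl_mem_SS (A : Set (Piece n)) (i : Fin n) : (Sum.inl i : TT n) ∈ SS A :=
  fun s hs => absurd hs (by simp)

theorem inr_mem_SS {A : Set (Piece n)} {P : Piece n} (hP : P ∈ A) (c : ℕ) (x : Fin P.1.1) :
    (Sum.inr ⟨P, c, x⟩ : TT n) ∈ SS A := by
  intro s hs
  rw [← Sum.inr.inj hs]
  exact hP

theorem cemb_mem_SS {A : Set (Piece n)} {P : Piece n} (hP : P ∈ A) (c : ℕ)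
    (u : Fin n ⊕ Fin P.1.1) : cemb P c u ∈ SS A := by
  cases u with
  | inl i => exact inl_mem_SS A i
  | inr x => exact inr_mem_SS hP c x

/-- The piece with one further vertex, joined to the root `i` if `o = some i` and isolated if
`o = none`. -/
def leaf (o : Option (Fin n)) : Piece n :=
  ⟨⟨1, { Adj := fun u v => ∃ i, o = some i ∧
            ((u = Sum.inl i ∧ v = Sum.inr 0) ∨ (u = Sum.inr 0 ∧ v = Sum.inl i))
         symm := ⟨by
            rintro u v ⟨i, h, h' | h'⟩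
            · exact ⟨i, h, Or.inr ⟨h'.2, h'.1⟩⟩
            · exact ⟨i, h, Or.inl ⟨h'.2, h'.1⟩⟩⟩
         loopless := ⟨by
            rintro u ⟨i, h, h' | h'⟩
            · rw [h'.1] at h'
              exact absurd h'.2 (by simp)
            · rw [h'.1] at h'
              exact absurd h'.2 (by simp)⟩ }⟩, by
    refine ⟨⟨Sum.inr 0, 0, rfl⟩, ?_⟩
    rintro _ ⟨x, rfl⟩ _ ⟨y, rfl⟩
    rw [Subsingleton.elim x y]
    exact Conn.refl _ _ _⟩

theorem leaf_adj (i : Fin n) :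
    (leaf (some i)).1.2.Adj (Sum.inr (0 : Fin 1)) (Sum.inl i : Fin n ⊕ Fin 1) :=
  ⟨i, rfl, Or.inr ⟨rfl, rfl⟩⟩

theorem dom_of_KK {A A' : Set (Piece n)} (hA : ∀ i, leaf (some i) ∈ A)
    (h : MinorOn (KK n) (SS A) (KK n) (SS A')) :
    ∃ σ : Equiv.Perm (Fin n), ∀ P ∈ A, ∃ Q ∈ A', TMinor σ P Q := by
  obtain ⟨B, hB, hdis, hadj⟩ := h
  -- every branch set of a root contains a root
  have hroot : ∀ l : Fin n, ∃ k : Fin n, Sum.inl k ∈ B (Sum.inl l) := by
    intro l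
    by_contra hno
    push Not at hno
    have hBl := hB _ (inl_mem_SS A l)
    obtain ⟨t0, ht0⟩ := hBl.1.1
    rcases t0 with k | ⟨Q, c0, y0⟩
    · exact hno k ht0
    · have hall : ∀ t ∈ B (Sum.inl l), ∃ y, t = Sum.inr ⟨Q, c0, y⟩ := fun t ht =>
        (KK_pull hno (hBl.1.2 _ ht0 t ht)).imp fun _ h => h.1
      have hex : ∀ c : ℕ, ∃ b, b ∈ B (Sum.inr ⟨leaf (some l), c, (0 : Fin 1)⟩) ∧
          b ∈ Set.range (cemb Q c0) := by
        intro c
        obtain ⟨b, hb, a, ha, hba⟩ := hadj (Sum.inr ⟨leaf (some l), c, (0 : Fin 1)⟩)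
          (inr_mem_SS (hA l) c _) (Sum.inl l) (inl_mem_SS A l) (KK_adj c (leaf_adj l))
        obtain ⟨y, rfl⟩ := hall a ha
        obtain ⟨v, rfl, _⟩ := KK_inv hba.symm
        exact ⟨_, hb, v, rfl⟩
      choose b hb hb' using hex
      have hinj : Function.Injective b := by
        intro c d hcd
        by_contra hne
        refine Set.disjoint_left.1 (hdis _ (inr_mem_SS (hA l) c (0 : Fin 1)) _
          (inr_mem_SS (hA l) d (0 : Fin 1)) ?_) (hb c) (hcd ▸ hb d)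
        intro h
        have h' := Sum.inr.inj h
        simp only [Sigma.mk.injEq, heq_eq_eq, Prod.mk.injEq, true_and, and_true] at h'
        exact hne h'
      exact (Set.infinite_range_of_injective hinj)
        ((Set.finite_range (cemb Q c0)).subset (by rintro _ ⟨c, rfl⟩; exact hb' c))
  choose σ0 hσ0 using hroot
  have hσinj : Function.Injective σ0 := by
    intro l l' hl
    by_contra hne
    exact Set.disjoint_left.1 (hdis _ (inl_mem_SS A l) _ (inl_mem_SS A l')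
      (fun h => hne (Sum.inl.inj h))) (hσ0 l) (hl ▸ hσ0 l')
  let σ : Equiv.Perm (Fin n) := Equiv.ofBijective σ0 (Finite.injective_iff_bijective.1 hσinj)
  have hσ : ∀ l, Sum.inl (σ l) ∈ B (Sum.inl l) := hσ0
  have honly : ∀ l k, Sum.inl k ∈ B (Sum.inl l) → k = σ l := by
    intro l k hk
    obtain ⟨l', rfl⟩ := σ.surjective k
    by_contra hne
    exact Set.disjoint_left.1 (hdis _ (inl_mem_SS A l') _ (inl_mem_SS A l)
      (fun h => hne (by rw [Sum.inl.inj h]))) (hσ l') hk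
  refine ⟨σ, fun P hP => ?_⟩
  have hnr : ∀ x k, Sum.inl k ∉ B (Sum.inr ⟨P, 0, x⟩) := by
    intro x k hk
    obtain ⟨l', rfl⟩ := σ.surjective k
    exact Set.disjoint_left.1 (hdis _ (inl_mem_SS A l') _ (inr_mem_SS hP 0 x) (by simp))
      (hσ l') hk
  obtain ⟨_, x0, rfl⟩ := P.2.1
  have hB0 := hB _ (inr_mem_SS hP 0 x0)
  obtain ⟨t0, ht0⟩ := hB0.1.1
  rcases t0 with k | ⟨Q, c, y0⟩
  · exact absurd ht0 (hnr x0 k)
  have hQ : Q ∈ A' := hB0.2 ht0 _ rfl
  have hblock : ∀ x, ∀ t ∈ B (Sum.inr ⟨P, 0, x⟩), ∃ y, t = Sum.inr ⟨Q, c, y⟩ := by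
    have key : ∀ w, Conn P.1.2 (Set.range Sum.inr) (Sum.inr x0) w → ∀ x, w = Sum.inr x →
        ∀ t ∈ B (Sum.inr ⟨P, 0, x⟩), ∃ y, t = Sum.inr ⟨Q, c, y⟩ := by
      intro w hw
      induction hw with
      | refl =>
        intro x hx t ht
        obtain rfl := Sum.inr.inj hx
        exact (KK_pull (hnr x0) (hB0.1.2 _ ht0 t ht)).imp fun _ h => h.1
      | @tail p q _ hpq ih =>
        rintro x rfl t ht
        obtain ⟨h1, ⟨x', rfl⟩, _⟩ := hpq
        obtain ⟨a, ha, b, hb, hab⟩ := hadj _ (inr_mem_SS hP 0 x') _ (inr_mem_SS hP 0 x)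
          (KK_adj (P := P) 0 h1)
        obtain ⟨y, rfl⟩ := ih x' rfl a ha
        obtain ⟨v, rfl, _⟩ := KK_inv hab
        cases v with
        | inl k => exact absurd hb (hnr x k)
        | inr z =>
          exact (KK_pull (hnr x) ((hB _ (inr_mem_SS hP 0 x)).1.2 _ hb t ht)).imp fun _ h => h.1
    intro x
    exact key _ (P.2.2 _ ⟨x0, rfl⟩ _ ⟨x, rfl⟩) x rfl
  refine ⟨Q, hQ, fun u => {w | cemb Q c w ∈ B (cemb P 0 u)}, ?_, ?_, ?_, ?_, ?_⟩
  · rintro v (⟨x, rfl⟩ | ⟨l, rfl⟩)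
    · refine ⟨?_, ?_⟩
      · obtain ⟨t, ht⟩ := (hB _ (inr_mem_SS hP 0 x)).1.1
        obtain ⟨y, rfl⟩ := hblock x t ht
        exact ⟨Sum.inr y, ht⟩
      · intro w hw w' hw'
        obtain ⟨y, hy⟩ := hblock x _ hw
        obtain ⟨y', hy'⟩ := hblock x _ hw'
        have e1 : w = Sum.inr y := cemb_inj Q c hy
        have e2 : w' = Sum.inr y' := cemb_inj Q c hy'
        subst e1
        subst e2
        obtain ⟨z, hz, hc⟩ := KK_pull (hnr x) ((hB _ (inr_mem_SS hP 0 x)).1.2 _ hw _ hw')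
        have e3 : (Sum.inr y' : Fin n ⊕ Fin Q.1.1) = Sum.inr z := cemb_inj Q c hz
        rw [e3]
        exact hc
    · have hbase : ∀ w ∈ {w | cemb Q c w ∈ B (cemb P 0 (Sum.inl l))},
          Conn Q.1.2 {w | cemb Q c w ∈ B (cemb P 0 (Sum.inl l))} w (Sum.inl (σ l)) := by
        intro w hw
        cases w with
        | inl k =>
          rw [honly l k hw]
          exact Conn.refl _ _ _
        | inr y =>
          exact KK_pull_root (honly l) ((hB _ (inl_mem_SS A l)).1.2 _ hw _ (hσ l)) y rfl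
      exact ⟨⟨Sum.inl (σ l), hσ l⟩, fun p hp q hq =>
        Conn.trans (hbase p hp) (Conn.symm (hbase q hq))⟩
  · rintro _ ⟨x, rfl⟩ w hw
    cases w with
    | inl k => exact absurd hw (hnr x k)
    | inr y => exact ⟨y, rfl⟩
  · intro l
    refine ⟨hσ l, fun w hw => ?_⟩
    cases w with
    | inl k =>
      right
      rw [honly l k hw]
      rfl
    | inr y => exact Or.inl ⟨y, rfl⟩
  · intro u _ v _ huv
    rw [Set.disjoint_left]
    intro w hw hw'
    exact Set.disjoint_left.1 (hdis _ (cemb_mem_SS hP 0 u) _ (cemb_mem_SS hP 0 v)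
      (fun h => huv (cemb_inj P 0 h))) hw hw'
  · rintro _ ⟨x, rfl⟩ v _ hxv
    obtain ⟨a, ha, b, hb, hab⟩ := hadj _ (inr_mem_SS hP 0 x) _ (cemb_mem_SS hP 0 v)
      (KK_adj (P := P) 0 hxv)
    obtain ⟨y, rfl⟩ := hblock x a ha
    obtain ⟨w, rfl, hw⟩ := KK_inv hab
    exact ⟨Sum.inr y, ha, w, hb, hw⟩

end Pool.Agent.Lib.MP_a45bfb_lc
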