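import Pool.Agent.Lib.MP_a45bfb_lc.SepDown

/-!
# Q1 below a bounded number of deleted vertices, as a question on finite pieces
-/

namespace Pool.Agent.Lib.MP_a45bfb_lc

open Ordinal Set

variable {n : ℕ}

/-- The graph on `ℕ` coding the class `A`. -/
theorem exists_code (A : Set (Piece n)) (hA : leaf none ∈ A) :
    ∃ G : SimpleGraph ℕ, G ∈ Sep n ∧ MinorOn G Set.univ (KK n) (SS A) ∧
      MinorOn (KK n) (SS A) G Set.univ := by
  classical
  have hinf : Infinite (SS A) := by
    refine Infinite.of_injective (fun c : ℕ =>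
      (⟨Sum.inr ⟨leaf none, c, (0 : Fin 1)⟩, inr_mem_SS hA c _⟩ : SS A)) fun a b hab => ?_
    have h' := Sum.inr.inj (congrArg Subtype.val hab)
    simpa only [Sigma.mk.injEq, heq_eq_eq, Prod.mk.injEq, true_and, and_true] using h'
  obtain ⟨e⟩ : Nonempty (ℕ ≃ SS A) := nonempty_equiv_of_countable
  have hvinj : Function.Injective (fun k : ℕ => (e k : TT n)) :=
    Subtype.val_injective.comp e.injective
  refine ⟨(KK n).comap (fun k => (e k : TT n)), ?_, ?_, ?_⟩
  · refine mem_Sep.2 ⟨Finset.univ.image (fun i : Fin n => e.symm ⟨Sum.inl i, inl_mem_SS A i⟩), ?_,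
      fun x hx => ?_⟩
    · refine Finset.card_image_le.trans ?_
      simp
    · have hno : ∀ z, z ∉ Finset.univ.image (fun i : Fin n => e.symm ⟨Sum.inl i, inl_mem_SS A i⟩) →
          ∀ i, (e z : TT n) ≠ Sum.inl i := by
        intro z hz i hi
        apply hz
        rw [Finset.mem_image]
        refine ⟨i, Finset.mem_univ _, ?_⟩
        rw [Equiv.symm_apply_eq]
        exact Subtype.ext hi.symm
      obtain ⟨⟨Q, c, y⟩, hQ⟩ : ∃ s, (e x : TT n) = Sum.inr s := by
        rcases h : (e x : TT n) with i | s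
        · exact absurd h (hno x hx i)
        · exact ⟨s, rfl⟩
      have hfin : (Set.range (fun y : Fin Q.1.1 => (Sum.inr ⟨Q, c, y⟩ : TT n))).Finite :=
        Set.finite_range _
      refine (hfin.preimage hvinj.injOn).subset fun z hz => ?_
      show (e z : TT n) ∈ Set.range (fun y : Fin Q.1.1 => (Sum.inr ⟨Q, c, y⟩ : TT n))
      induction hz with
      | refl => exact ⟨y, hQ.symm⟩
      | @tail p q _ hpq ih =>
        obtain ⟨y', hy'⟩ := ih
        obtain ⟨h1, _, h3⟩ := hpq
        have h1' : (KK n).Adj (e p : TT n) (e q : TT n) := h1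
        simp only at hy'
        rw [← hy'] at h1'
        obtain ⟨v, hv, _⟩ := KK_inv h1'
        cases v with
        | inl i => exact absurd hv (hno q h3 i)
        | inr z' => exact ⟨z', hv.symm⟩
  · exact MinorOn.of_map (fun k => (e k : TT n)) hvinj.injOn (fun k _ => (e k).2)
      fun _ _ _ _ h => h
  · have hval : ∀ t (ht : t ∈ SS A), (e (if h : t ∈ SS A then e.symm ⟨t, h⟩ else 0) : TT n) = t := by
      intro t ht
      rw [dif_pos ht, Equiv.apply_symm_apply]
    refine MinorOn.of_map (fun t => if h : t ∈ SS A then e.symm ⟨t, h⟩ else 0) ?_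
      (fun _ _ => trivial) ?_
    · intro s hs t ht hst
      have := congrArg (fun k : ℕ => (e k : TT n)) hst
      simp only at this
      rw [hval s hs, hval t ht] at this
      exact this
    · intro s hs t ht hst
      show (KK n).Adj (e (if h : s ∈ SS A then e.symm ⟨s, h⟩ else 0) : TT n)
        (e (if h : t ∈ SS A then e.symm ⟨t, h⟩ else 0) : TT n)
      rw [hval s hs, hval t ht]
      exact hst

theorem leaf_none_le (P : Piece n) : RootedMinor (leaf none) P := by
  obtain ⟨_, x0, rfl⟩ := P.2.1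
  refine ⟨Sum.elim (fun i => {Sum.inl i}) (fun _ => {Sum.inr x0}), ?_, ?_, ?_, ?_⟩
  · rintro (i | x)
    · exact connectedOn_singleton _ _
    · exact connectedOn_singleton _ _
  · rintro (i | x) (j | y) huv
    · simp only [Sum.elim_inl, Set.disjoint_singleton]
      exact fun h => huv (by rw [Sum.inl.inj h])
    · simp
    · simp
    · exact absurd (congrArg Sum.inr (Subsingleton.elim (α := Fin 1) x y)) huv
  · intro i
    rfl
  · rintro x v ⟨i, h, _⟩
    exact absurd h (by simp)

theorem leaf_some_le {P : Piece n} {x0 : Fin P.1.1} {i0 : Fin n}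
    (h : P.1.2.Adj (Sum.inr x0) (Sum.inl i0)) : RootedMinor (leaf (some i0)) P := by
  refine ⟨Sum.elim (fun i => {Sum.inl i}) (fun _ => {Sum.inr x0}), ?_, ?_, ?_, ?_⟩
  · rintro (i | x)
    · exact connectedOn_singleton _ _
    · exact connectedOn_singleton _ _
  · rintro (i | x) (j | y) huv
    · simp only [Sum.elim_inl, Set.disjoint_singleton]
      exact fun h => huv (by rw [Sum.inl.inj h])
    · simp
    · simp
    · exact absurd (congrArg Sum.inr (Subsingleton.elim (α := Fin 1) x y)) huv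
  · intro i
    rfl
  · rintro x v ⟨i, hi, h' | h'⟩
    · exact absurd h'.1 (by simp)
    · have hi' : i0 = i := Option.some.inj hi
      rw [h'.2, ← hi']
      exact ⟨_, rfl, _, rfl, h⟩

theorem small_pieces {P : Piece n} {o : Option (Fin n)} (h : RootedMinor P (leaf o)) :
    ∃ o', RootedMinor (leaf o') P ∧ RootedMinor P (leaf o') := by
  by_cases hcase : ∃ i0, o = some i0 ∧ ∃ x : Fin P.1.1, P.1.2.Adj (Sum.inr x) (Sum.inl i0)
  · obtain ⟨i0, rfl, x, hx⟩ := hcase
    exact ⟨some i0, leaf_some_le hx, h⟩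
  · obtain ⟨B, hB, hdis, hr, hadj⟩ := h
    have hnr : ∀ (x : Fin P.1.1) (w : Fin n ⊕ Fin 1), w ∈ B (Sum.inr x) → w = Sum.inr 0 := by
      intro x w hw
      cases w with
      | inl i => exact absurd hw (Set.disjoint_left.1 (hdis (Sum.inl i) (Sum.inr x) (by simp)) (hr i))
      | inr y => exact congrArg Sum.inr (Subsingleton.elim (α := Fin 1) y 0)
    have hmem : ∀ x : Fin P.1.1, (Sum.inr (0 : Fin 1) : Fin n ⊕ Fin 1) ∈ B (Sum.inr x) := by
      intro x
      obtain ⟨w, hw⟩ := (hB (Sum.inr x)).1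
      rw [← hnr x w hw]
      exact hw
    have heq : ∀ x y : Fin P.1.1, x = y := by
      intro x y
      by_contra hne
      exact Set.disjoint_left.1 (hdis (Sum.inr x) (Sum.inr y) (fun h => hne (Sum.inr.inj h)))
        (hmem x) (hmem y)
    refine ⟨none, leaf_none_le P, Sum.elim (fun i => {Sum.inl i}) (fun _ => {Sum.inr (0 : Fin 1)}),
      ?_, ?_, ?_, ?_⟩
    · rintro (i | x)
      · exact connectedOn_singleton _ _
      · exact connectedOn_singleton _ _
    · rintro (i | x) (j | y) huv
      · simp only [Sum.elim_inl, Set.disjoint_singleton]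
        exact fun h => huv (by rw [Sum.inl.inj h])
      · refine Set.disjoint_left.2 fun w (hw : w = Sum.inl i) (hw' : w = Sum.inr (0 : Fin 1)) => ?_
        exact Sum.inl_ne_inr (hw.symm.trans hw')
      · refine Set.disjoint_left.2 fun w (hw : w = Sum.inr (0 : Fin 1)) (hw' : w = Sum.inl j) => ?_
        exact Sum.inl_ne_inr (hw'.symm.trans hw)
      · exact absurd (congrArg Sum.inr (heq x y)) huv
    · intro i
      rfl
    · intro x v hxv
      exfalso
      cases v with
      | inr y =>
        rw [heq x y] at hxv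
        exact P.1.2.loopless.irrefl _ hxv
      | inl i =>
        obtain ⟨a, ha, b, hb, j, ho, h' | h'⟩ := hadj x _ hxv
        · have ha' := hnr x a ha
          rw [h'.1] at ha'
          exact absurd ha' (by simp)
        · have hij : i = j := by
            by_contra hne
            refine Set.disjoint_left.1 (hdis (Sum.inl i) (Sum.inl j)
              (fun h => hne (Sum.inl.inj h))) hb ?_
            rw [h'.2]
            exact hr j
          subst hij
          exact hcase ⟨i, ho, x, hxv⟩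

/-- Domination of classes, twisted by a permutation. -/
def Dom (σ : Equiv.Perm (Fin n)) (A A' : Set (Piece n)) : Prop :=
  ∀ P ∈ A, ∃ Q ∈ A', TMinor σ P Q

theorem Dom.comp {σ τ : Equiv.Perm (Fin n)} {A A' A'' : Set (Piece n)} (h1 : Dom σ A A')
    (h2 : Dom τ A' A'') : Dom (τ * σ) A A'' := by
  intro P hP
  obtain ⟨Q, hQ, h⟩ := h1 P hP
  obtain ⟨R, hR, h'⟩ := h2 Q hQ
  exact ⟨R, hR, TMinor.comp h h'⟩

theorem Dom.refl (A : Set (Piece n)) : Dom 1 A A := fun P hP => ⟨P, hP, TMinor.refl P⟩

/-- `A` with the small pieces added. -/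
def plus (A : Set (Piece n)) : Set (Piece n) := A ∪ Set.range leaf

theorem down_of_wqo_Sep (h : IsWQO (Sep n)) : DownWQO (RootedMinor (n := n)) := by
  intro A hA
  have hpre : IsPreorder (Set (Piece n)) (fun C D => ∃ σ, Dom σ (plus C) (plus D)) :=
    { refl := fun C => ⟨1, Dom.refl _⟩
      trans := fun C D E ⟨σ, h1⟩ ⟨τ, h2⟩ => ⟨τ * σ, h1.comp h2⟩ }
  have hw : WellQuasiOrdered (fun C D : Set (Piece n) => ∃ σ, Dom σ (plus C) (plus D)) := by
    intro f
    have hex := fun i => exists_code (plus (f i)) (Or.inr ⟨none, rfl⟩)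
    choose G hG hG1 hG2 using hex
    obtain ⟨i, j, hij, hm⟩ := h G hG
    refine ⟨i, j, hij, dom_of_KK (fun k => Or.inr ⟨some k, rfl⟩) ?_⟩
    exact ((hG2 i).trans (isMinor_iff.1 hm)).trans (hG1 j)
  obtain ⟨g, hg⟩ := hw.exists_monotone_subseq A
  have hstep : ∀ k, ∃ σ, Dom σ (plus (A (g k))) (plus (A (g (k + 1)))) := fun k =>
    hg k (k + 1) (Nat.le_succ k)
  choose σ hσ using hstep
  let τ : ℕ → Equiv.Perm (Fin n) := fun k => Nat.rec 1 (fun k p => σ k * p) k
  have hτ : ∀ k, τ (k + 1) = σ k * τ k := fun _ => rfl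
  have hdom : ∀ a d, Dom (τ (a + d) * (τ a)⁻¹) (plus (A (g a))) (plus (A (g (a + d)))) := by
    intro a d
    induction d with
    | zero =>
      rw [Nat.add_zero, mul_inv_cancel]
      exact Dom.refl _
    | succ d ih =>
      rw [← Nat.add_assoc, hτ, mul_assoc]
      exact ih.comp (hσ (a + d))
  obtain ⟨a', b', hne, heq⟩ := Finite.exists_ne_map_eq_of_infinite
    (fun k : ℕ => (τ k, {o : Option (Fin n) | leaf o ∈ A (g k)}))
  obtain ⟨a, b, hab, heq⟩ : ∃ a b, a < b ∧ (τ a, {o : Option (Fin n) | leaf o ∈ A (g a)}) =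
      (τ b, {o : Option (Fin n) | leaf o ∈ A (g b)}) := by
    rcases lt_or_gt_of_ne hne with h | h
    · exact ⟨a', b', h, heq⟩
    · exact ⟨b', a', h, heq.symm⟩
  have h1 : τ a = τ b := congrArg Prod.fst heq
  have h2 : {o : Option (Fin n) | leaf o ∈ A (g a)} = {o : Option (Fin n) | leaf o ∈ A (g b)} :=
    congrArg Prod.snd heq
  obtain ⟨d, rfl⟩ := Nat.exists_eq_add_of_lt hab
  have hD := hdom a (d + 1)
  rw [← Nat.add_assoc, ← h1, mul_inv_cancel] at hD
  refine ⟨g a, g (a + d + 1), g.strictMono hab, fun P hP => ?_⟩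
  obtain ⟨Q, hQ, hPQ⟩ := hD P (Or.inl hP)
  have hPQ' := tminor_one_iff.1 hPQ
  rcases hQ with hQ | ⟨o, rfl⟩
  · exact hA _ Q hQ P hPQ'
  · obtain ⟨o', h3, h4⟩ := small_pieces hPQ'
    have h5 : o' ∈ {o : Option (Fin n) | leaf o ∈ A (g a)} := hA _ P hP _ h3
    rw [h2] at h5
    exact hA _ _ h5 P h4

/-- Q1 for the graphs from which at most `n` vertices can be deleted so that all components are
finite is equivalent to the well-quasi-ordering of the classes of finite pieces with `n` roots. -/
theorem questionFor_Sep_iff (n : ℕ) : QuestionFor (Sep n) ↔ DownWQO (RootedMinor (n := n)) :=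
  (questionFor_Sep n).trans ⟨down_of_wqo_Sep, wqo_Sep_of_down⟩

end Pool.Agent.Lib.MP_a45bfb_lc
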