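import Pool.Agent.Lib.MP_a45bfb_lc.Sep

/-!
# From classes of finite pieces to graphs
-/

namespace Pool.Agent.Lib.MP_a45bfb_lc

open Ordinal Set

theorem sep_roots {n : ℕ} {G : SimpleGraph ℕ} (hG : G ∈ Sep n) :
    ∃ e : Fin n → ℕ, Function.Injective e ∧ ∀ x, (comp G (Set.range e)ᶜ x).Finite := by
  obtain ⟨X, hXn, hX⟩ := mem_Sep.1 hG
  obtain ⟨Y, hXY, hY⟩ := Infinite.exists_superset_card_eq X n hXn
  refine ⟨Y.orderEmbOfFin hY, (Y.orderEmbOfFin hY).injective, fun x => ?_⟩
  rw [Finset.range_orderEmbOfFin]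
  by_cases hx : x ∈ Y
  · refine (finite_singleton x).subset fun y hy => ?_
    induction hy with
    | refl => rfl
    | tail _ hbc ih =>
      rw [mem_singleton_iff.1 ih] at hbc
      exact absurd hx hbc.2.1
  · refine (hX x (fun h => hx (hXY h))).subset fun y hy => ?_
    exact Conn.mono (compl_subset_compl.2 (Finset.coe_subset.2 hXY)) hy

theorem wqo_Sep_of_down {n : ℕ} (h : DownWQO (RootedMinor (n := n))) : IsWQO (Sep n) := by
  intro G hG
  have hex := fun i => sep_roots (hG i)
  choose e he hfin using hex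
  obtain ⟨y, hy⟩ := Finite.exists_infinite_fiber (fun i => (G i).comap (e i))
  have hinf : {i | (G i).comap (e i) = y}.Infinite := Set.infinite_coe_iff.1 hy
  let g : ℕ → ℕ := Nat.nth (fun i => i ∈ {i | (G i).comap (e i) = y})
  have hg : ∀ k, (G (g k)).comap (e (g k)) = y := fun k => Nat.nth_mem_of_infinite hinf k
  have hgm : StrictMono g := Nat.nth_strictMono hinf
  have hconn : ∀ k x, ConnectedOn (G (g k)) ((hfin (g k) x).toFinset : Set ℕ) := by
    intro k x
    rw [Finite.coe_toFinset]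
    exact comp_connected _ _ _
  obtain ⟨a, b, hab, f, hf, hf'⟩ := families_wqo h
    (fun k => repsOn (G (g k)) (Set.range (e (g k)))ᶜ)
    (fun k x => mkPiece (G (g k)) (e (g k)) (hfin (g k) x).toFinset (hconn k x))
  refine ⟨g a, g b, hgm hab, isMinor_of_pieces (he (g a)) (he (g b)) ?_ f hf
    (fun x hx => (hf' x hx).1) fun x hx => ?_⟩
  · intro p q hpq
    have h1 : ((G (g a)).comap (e (g a))).Adj p q := hpq
    rw [hg a, ← hg b] at h1
    exact h1
  · have hno : ∀ k x, x ∈ repsOn (G (g k)) (Set.range (e (g k)))ᶜ →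
        ∀ i, e (g k) i ∉ (hfin (g k) x).toFinset := by
      intro k x hx i hi
      rw [Finite.mem_toFinset] at hi
      exact comp_subset hx.1 hi ⟨i, rfl⟩
    have h1 := piece_up (G (g a)) (he (g a)) (hfin (g a) x).toFinset (hconn a x) (hno a x hx)
    have h2 := piece_down (G (g b)) (he (g b)) (hfin (g b) (f x)).toFinset (hconn b (f x))
      (hno b (f x) (hf' x hx).1)
    rw [Finite.coe_toFinset] at h1 h2
    exact (h1.trans (tminor_one_iff.2 (hf' x hx).2)).trans h2

end Pool.Agent.Lib.MP_a45bfb_lc
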